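import Pool.Agent.Lib.MP_e39d36_ag.Sch3

open AlgebraicGeometry CategoryTheory Order WithZero Set
open Pool.Agent.Lib.MP_99f32e_ag hiding IsProjective
open Pool.Agent.Lib.MP_cc3443_ag

set_option linter.unusedSectionVars false
set_option linter.style.haveILetI false
set_option linter.unusedVariables false

noncomputable section

namespace Pool.Agent.Lib.MP_e39d36_ag

variable {X Y : Scheme.{0}} [IsIntegral X] [IsIntegral Y] [IsLocallyNoetherian X]
  [IsLocallyNoetherian Y]

lemma Coord.isPull_iff (s : X ⟶ Spec (.of ℂ)) : letI := algK s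
    ∀ (c : Coord X) φ T, c.curves.IsPull φ T ↔ IsPull s φ T := by
  letI := algK s
  refine fun c φ T => and_congr_left' ⟨fun h a => ?_, fun h a => h _⟩
  obtain ⟨b, rfl⟩ := (ConcreteCategory.bijective_of_isIso (Scheme.ΓSpecIso (.of ℂ)).inv).2 a
  exact h b

variable (π : X ⟶ Y) [IsDominant π]

lemma exists_IC [IsFinite π] [Etale π] [Algebra ℂ X.functionField] [Algebra ℂ Y.functionField]
    [Algebra Y.functionField X.functionField] [IsScalarTower ℂ Y.functionField X.functionField]
    [FiniteDimensional Y.functionField X.functionField] [IsGalois Y.functionField X.functionField]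
    (h : ∀ f, algebraMap _ _ f = pullFun π f) (c : Coord X) (c' : Coord Y) :
    ∃ p : Var.IC c'.var c.var, p.Free := by
  have h1 : ∀ x, Dom (OX (π x)) ((OX x).comap (algebraMap Y.functionField X.functionField)) :=
    fun x => ⟨fun f hf => by rw [Subring.mem_comap, h]; exact pullFun_mem_stalk π hf, by
      rintro _ ⟨a, rfl⟩ ha
      rw [un_comap, h, pullFun_algebraMap, un_OX] at ha
      exact un_OX.2 ((isUnit_map_iff (π.stalkMap x).hom a).1 ha)⟩
  refine ⟨.mk' π h1 fun x => ?_, Var.IC.free _ fun x => ?_⟩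
  · obtain ⟨i, hi⟩ := c'.cov (π x)
    have h2 := genericPoint_mem ⟨_, hi⟩
    have h3 := genericPoint_mem_preimage π h2
    refine (locOf_AU ((c'.aff i).preimage π) h3 hi).of_le ?_ (icl_le (c.var.nml x) (h1 x).1)
    rintro _ ⟨a, rfl⟩
    letI := (π.app (c'.U i)).hom.toAlgebra
    refine icl_mono (locOf_AU (c'.aff i) h2 hi).1 (IsIntegral.map_of_comp_eq
      (Y.presheaf.germ _ _ h2).hom.rangeRestrict (X.presheaf.germ _ _ h3).hom
      (RingHom.ext fun b => (h _).trans congr($(pullFun_germ π _ h2 h3) b))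
      ((π.finite_app _ (c'.aff i)).to_isIntegral a))
  · letI := (π.stalkMap x).hom.toAlgebra
    exact ⟨_, _, _, _, this, FormallyUnramified.stalkMap π x, eqO x,
      fun r => ⟨_, (h _).trans (pullFun_algebraMap π x r)⟩⟩

theorem descent [IsFinite π] [Etale π] (s : Y ⟶ Spec (.of ℂ)) (hG : IsGaloisCover π)
    (hY : IsProjective s) (hX : IsProjective (π ≫ s))
    (nX : ∀ x : X, IsIntegrallyClosed (X.presheaf.stalk x))
    (nY : ∀ y : Y, IsIntegrallyClosed (Y.presheaf.stalk y)) (fd : FiniteDimensional ℝ (N1 X))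
    (ht : TameKernel (π ≫ s)) (hc : ∃ S : Set (CDiv X), S.Finite ∧ Covers (π ≫ s) (cone S)) :
    ∃ S : Set (CDiv Y), S.Finite ∧ Covers s (cone S) ∧ ∀ φ L, IsPull s φ L → L ≠ 1 →
      interior (cone S) ∩ L '' interior (cone S) = ∅ := by
  letI := algK s
  letI := algK (π ≫ s)
  letI := (pullFun π).hom.toAlgebra
  haveI : IsScalarTower ℂ Y.functionField X.functionField := .of_algebraMap_eq fun a =>
    congr($(pullFun_germ π ⊤ trivial trivial) (s.appTop ((Scheme.ΓSpecIso (.of ℂ)).inv a))).symm
  haveI : IsGalois Y.functionField X.functionField := hG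
  obtain ⟨c⟩ := exists_coord' hX (algK_spec _) nX
  obtain ⟨c'⟩ := exists_coord' hY (algK_spec _) nY
  obtain ⟨i⟩ := c.var.nei
  haveI := essFin_of_frac _ (c.var.fg i) (c.var.frac i)
  haveI := Algebra.EssFiniteType.of_comp ℂ Y.functionField X.functionField
  haveI : FiniteDimensional Y.functionField X.functionField :=
    Algebra.finite_of_essFiniteType_of_isAlgebraic
  obtain ⟨p, hp⟩ := exists_IC π (fun _ => rfl) c c'
  obtain ⟨S, h1, h2⟩ := hc
  haveI : FiniteDimensional ℝ c.curves.N1 := fd
  obtain ⟨S', h3, h4, h5⟩ := Var.Curves.descent c.curves c'.curves p hp c.prj c'.prj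
    (by simp only [Var.Curves.Tame, c.isPull_iff]; exact ht) h1
    (by simp only [Var.Curves.Covers, c.isPull_iff]; exact h2)
  simp only [Var.Curves.Covers, c'.isPull_iff] at h4 h5
  exact ⟨S', h3, h4, h5⟩

end Pool.Agent.Lib.MP_e39d36_ag
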