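import Pool.Agent.Lib.MP_e39d36_ag.Abs1

open Set WithZero Filter Finsupp Pool.Agent.Lib.MP_cc3443_ag
open scoped NNReal

set_option linter.unusedSectionVars false
set_option linter.style.haveILetI false
set_option linter.unusedVariables false

noncomputable section

namespace Pool.Agent.Lib.MP_e39d36_ag

variable {K L : Type} [Field K] [Algebra ℂ K] [Field L] [Algebra ℂ L]

namespace Var

namespace Curves

variable {X : Var K} {Y : Var L} (Γ : Curves X) (Γ' : Curves Y)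

/-- Translates cover the effective movable cone. -/
def Covers (P : Set Γ.N1) : Prop := (Γ.movE : Set Γ.N1) = ⋃ (φ) (T) (_ : Γ.IsPull φ T), T '' P

/-- The numerically trivial pseudo-automorphisms are virtually divisible abelian. -/
def Tame : Prop :=
  ∃ (A : Subgroup (RingAut K)) (T : Finset (RingAut K)),
    (∀ a ∈ A, Γ.IsPull a 1) ∧ (∀ φ, Γ.IsPull φ 1 → ∃ t ∈ T, t⁻¹ * φ ∈ A) ∧
    (∀ a ∈ A, ∀ b ∈ A, a * b = b * a) ∧
    ∀ n : ℕ, 0 < n → (∀ a ∈ A, ∃ b ∈ A, b ^ n = a) ∧ {a ∈ A | a ^ n = 1}.Finite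

variable {Γ} in
lemma covers_iff {P : Set Γ.N1} :
    Γ.Covers P ↔ ∀ x, x ∈ Γ.movE ↔ ∃ T ∈ Γ.rho.range, ∃ y ∈ P, T y = x := by
  simp only [Covers, Set.ext_iff, mem_iUnion, mem_image, Γ.mem_range_rho, exists_prop,
    SetLike.mem_coe]
  exact forall_congr' fun x => iff_congr Iff.rfl
    ⟨fun ⟨φ, T, h, h'⟩ => ⟨T, ⟨φ, h⟩, h'⟩, fun ⟨T, ⟨φ, h⟩, h'⟩ => ⟨φ, T, h, h'⟩⟩

variable {Γ} in
lemma Tame.tame (h : Γ.Tame) : ∃ A, CG.Tame Γ.rho.ker A := by
  obtain ⟨A, T, h1, h2, h3, h4⟩ := h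
  have h5 : A ≤ Γ.Bir := fun a ha => ⟨1, h1 a ha⟩
  refine ⟨A.subgroupOf Γ.Bir, fun a ha => (Γ.isPull_rho a).unique (h1 a ha),
    ⟨Subtype.val ⁻¹' T, T.finite_toSet.preimage Subtype.val_injective.injOn, fun k hk => ?_⟩,
    fun a ha b hb => Subtype.ext (h3 a ha b hb), fun n hn a ha => ?_, fun n hn =>
      ((h4 n hn).2.preimage Subtype.val_injective.injOn).subset
        fun a ha => ⟨ha.1, congrArg Subtype.val ha.2⟩⟩
  · obtain ⟨t, h6, h7⟩ := h2 k (MonoidHom.mem_ker.1 hk ▸ Γ.isPull_rho k)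
    exact ⟨⟨t, by simpa using mul_mem k.2 (inv_mem (h5 h7))⟩, h6, h7⟩
  · obtain ⟨b, h6, h7⟩ := (h4 n hn).1 a ha
    exact ⟨⟨b, h5 h6⟩, h6, Subtype.ext h7⟩

variable [Algebra L K] [IsScalarTower ℂ L K] [FiniteDimensional L K] [IsGalois L K] (π : IC Y X)

/-- The action of the Galois group on Cartier divisors. -/
def actC (σ : K ≃ₐ[L] K) (D : X.CD) : X.CD := ⟨π.actD σ D.1, π.cart_act D.2⟩

/-- Pull-back of Cartier divisors. -/
def pullC (D : Y.CD) : X.CD := ⟨π.pull D.1, π.cart_pull D.2⟩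

lemma exists_gal (σ : K ≃ₐ[L] K) :
    ∃ T, Γ.IsPull σ.toRingEquiv T ∧ ∀ D, T (Γ.cls D) = Γ.cls (actC π σ D) := by
  choose f hf using fun σ => Γ.exists_lin_mor Γ (π.actMor σ) (actC π σ) fun _ _ _ => π.locEq_act
  let ε : X.CD ≃ X.CD := ⟨actC π σ, actC π σ⁻¹,
    fun D => Subtype.ext (Finsupp.ext fun E => π.actD_apply E),
    fun D => Subtype.ext (Finsupp.ext fun E => π.actD_apply (σ := σ⁻¹) E)⟩
  obtain ⟨T, hT⟩ := Γ.exists_equiv ε (hf σ) (hf σ⁻¹)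
  exact ⟨T, ⟨fun a => (σ.restrictScalars ℂ).commutes a, π.actP σ, ε, π.ord_act σ,
    fun D => π.actD_apply, hT⟩, hT⟩

/-- The Galois group acts by pseudo-automorphisms. -/
def gal : (K ≃ₐ[L] K) →* Γ.Bir :=
  MonoidHom.mk' (fun σ => ⟨σ.toRingEquiv, (Γ.exists_gal π σ).imp fun _ h => h.1⟩) fun _ _ => rfl

lemma rho_gal (σ : K ≃ₐ[L] K) (D : X.CD) :
    Γ.rho (Γ.gal π σ) (Γ.cls D) = Γ.cls (actC π σ D) := by
  obtain ⟨T, h1, h2⟩ := Γ.exists_gal π σ
  rw [(Γ.isPull_rho _).unique h1, h2]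

lemma exists_lift (c : {c // Γ'.cv c}) :
    ∃ ψ : Γ.N1 →ₗ[ℝ] ℝ, ∀ D, ψ (Γ.cls (pullC π D)) = Γ'.int D.1 c := by
  obtain ⟨F, _, _, _, γ, h1, h2, h3⟩ := Γ'.int_eq c.1 c.2
  obtain ⟨x, hx⟩ := π.surj c.1
  haveI := CMap.isFF_of_isCurve (CMap.res_surj x) (π.isCurve.1 (hx ▸ (Γ'.cv_iff _).1 c.2))
  obtain ⟨n, hn, h4⟩ := CMap.exists_deg_factor ((CMap.res x).push π.mor) γ (hx.trans h1.symm) h2
  obtain ⟨φ, h5, -⟩ := Γ.exists_fun (CMap.res x)
  refine ⟨(n : ℝ)⁻¹ • φ, fun D => ?_⟩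
  rw [LinearMap.smul_apply, h5, h3 _ D.2, pullC, CMap.deg_push π.mor D.2 fun _ _ => π.locEq_pull,
    h4 _ D.2]
  simp [hn.ne']

theorem descent (hπ : π.Free) (Q : Prj X) (Q' : Prj Y) [FiniteDimensional ℝ Γ.N1] (ht : Γ.Tame)
    {S : Set X.CD} (hS : S.Finite) (hc : Γ.Covers (Γ.cone S)) :
    ∃ S' : Set Y.CD, S'.Finite ∧ Γ'.Covers (Γ'.cone S') ∧ ∀ φ T, Γ'.IsPull φ T → T ≠ 1 →
      interior (Γ'.cone S' : Set Γ'.N1) ∩ T '' interior (Γ'.cone S' : Set Γ'.N1) = ∅ := by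
  obtain ⟨A, hA⟩ := ht.tame
  obtain ⟨p, hp⟩ := Γ.exists_lin_mor Γ' π.mor (pullC π) fun _ _ _ => π.locEq_pull
  choose N hN hN' using fun W : X.CD => π.exists_norm W.2
  have h1 : ∀ W, ∑ σ, Γ.rho (Γ.gal π σ) (Γ.cls W) = Γ.cls (pullC π ⟨N W, hN W⟩) := fun W => by
    simp only [rho_gal, ← cls_sum]
    exact congrArg _ (Subtype.ext (hN' W).symm)
  obtain ⟨r, hr⟩ := Γ.exists_lin Γ' (fun W => ⟨N W, hN W⟩) fun c => by
    obtain ⟨ψ, hψ⟩ := Γ.exists_lift Γ' π c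
    exact ⟨ψ ∘ₗ ∑ σ, (Γ.rho (Γ.gal π σ)).toLinearMap, fun W => by simp [h1, hψ]⟩
  have hn : (Fintype.card (K ≃ₐ[L] K) : ℝ) ≠ 0 := by simp
  have hrp : ∀ y, r (p y) = (Fintype.card (K ≃ₐ[L] K) : ℝ) • y :=
    LinearMap.ext_iff.1 (lin_ext (f := r ∘ₗ p) 
      (g := (Fintype.card (K ≃ₐ[L] K) : ℝ) • LinearMap.id) fun D => by
      rw [LinearMap.comp_apply, hp, hr, LinearMap.smul_apply, LinearMap.id_apply, ← cls_nsmul]
      refine congrArg _ (Subtype.ext (π.pull_inj ?_))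
      simp [hN', pullC, π.actD_pull])
  haveI : FiniteDimensional ℝ Γ'.N1 := FiniteDimensional.of_injective p fun x y h =>
    smul_right_injective _ hn (by simpa only [hrp] using congrArg r h)
  have h2 := Γ.map_mem Γ' r fun W => ⟨_, hr W, π.norm_mov (hN' W), π.norm_nonneg (hN' W)⟩
  have h3 := Γ'.map_mem Γ p fun D => ⟨_, hp D, π.mov_pull, π.pull_nonneg.2⟩
  obtain ⟨P, h4, h5, h6, h7⟩ := CG.descent (Γ.setup Q) (Γ'.setup Q') Γ.rho rfl hA (Γ.gal π)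
    Γ.movE Γ'.movE inf_le_left inf_le_left (Γ.interior_movC Q)
    ((Γ.interior_cone Q).mono (interior_mono subset_closure))
    (by
      rintro _ ⟨b, rfl⟩
      exact (Γ'.map_mem Γ' (Γ'.rho b).toLinearMap (Γ'.isPull_rho b).exists_map).2.2)
    (hS.image Γ.cls) (image_subset_range _ _)
    (fun x => (covers_iff.1 hc x).trans (by simp [cone])) p r
    (LinearMap.ext_iff.1 (lin_ext (f := p ∘ₗ r) (g := ∑ σ, (Γ.rho (Γ.gal π σ)).toLinearMap)
      fun W => by simp [h1, hp, hr]) · |>.trans (by simp)) hrp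
    (fun σ => LinearMap.ext_iff.1 (lin_ext (f := (Γ.rho (Γ.gal π σ)).toLinearMap ∘ₗ p) (g := p)
      fun D => by
        rw [LinearMap.comp_apply, hp, LinearEquiv.coe_coe, rho_gal]
        exact congrArg _ (Subtype.ext π.actD_pull)))
    h2.1 h2.2.2 h3.2.2 h2.2.1 h3.2.1 fun z hz => by
      have h4 : ∀ z : Γ.Bir, (∀ g, z * Γ.gal π g = Γ.gal π g * z) → ∀ f : L, ∃ f',
          algebraMap L K f' = z.1 (algebraMap L K f) := fun z hz f =>
        (IsGalois.mem_range_algebraMap_iff_fixed _).2 fun σ =>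
          (DFunLike.congr_fun (congrArg Subtype.val (hz σ)) (algebraMap L K f)).symm.trans
            (congrArg z.1 (σ.commutes f))
      choose ψ₁ h5 using h4 z hz
      choose ψ₂ h6 using h4 z⁻¹ fun g => (Commute.inv_left (hz g)).eq
      have hi := (algebraMap L K).injective
      let ψ : L ≃+* L :=
        { toFun := ψ₁
          invFun := ψ₂
          left_inv := fun f => hi (by rw [h6, h5]; exact z.1.symm_apply_apply _)
          right_inv := fun f => hi (by rw [h5, h6]; exact z.1.apply_symm_apply _)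
          map_mul' := fun a b => hi (by simp [h5])
          map_add' := fun a b => hi (by simp [h5]) }
      obtain ⟨h7, e, ε, h8, h9, h10⟩ := Γ.isPull_rho z
      obtain ⟨e', h11, h12⟩ := π.exists_desc_aut z.1 ψ h5 e h8
      have h13 : ∀ D, (ε D).1 = equivMapDomain e D.1 := fun D => Finsupp.ext
        (e.surjective.forall.2 fun E => by simp [h9])
      let ε' : Y.CD ≃ Y.CD := (equivCongrLeft e').subtypeEquiv fun D =>
        ⟨fun h => π.cart_of_pull hπ (by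
          rw [equivCongrLeft_apply, h12]
          exact h13 ⟨_, π.cart_pull h⟩ ▸ (ε _).2), fun h => π.cart_of_pull hπ (by
          have h14 := h13 (ε.symm ⟨_, π.cart_pull h⟩)
          rw [ε.apply_symm_apply] at h14
          have h15 := (equivCongrLeft e).injective ((h12 D).symm.trans h14)
          exact h15 ▸ (ε.symm _).2)⟩
      have h14 : ∀ D, Γ.rho z (p (Γ'.cls D)) = p (Γ'.cls (ε' D)) := fun D => by
        rw [hp, hp, h10]
        exact congrArg _ (Subtype.ext ((h13 _).trans (h12 _).symm))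
      obtain ⟨T, hT⟩ := Γ'.exists_equiv ε'
        (f := (Fintype.card (K ≃ₐ[L] K) : ℝ)⁻¹ • r ∘ₗ (Γ.rho z).toLinearMap ∘ₗ p)
        (g := (Fintype.card (K ≃ₐ[L] K) : ℝ)⁻¹ • r ∘ₗ (Γ.rho z).symm.toLinearMap ∘ₗ p)
        (fun D => by simp [h14, hrp]) fun D => by
          have := (Γ.rho z).eq_symm_apply.2 (h14 (ε'.symm D))
          rw [ε'.apply_symm_apply] at this
          simp [← this, hrp]
      refine ⟨T, Γ'.mem_range_rho.2 ⟨ψ, fun a => hi ?_, e', ε', h11, fun D E => by simp [ε'], hT⟩,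
        LinearMap.ext_iff.1 (lin_ext (f := p ∘ₗ T.toLinearMap)
          (g := (Γ.rho z).toLinearMap ∘ₗ p) fun D => by simp [hT, h14])⟩
      exact (h5 _).trans (by rw [← IsScalarTower.algebraMap_apply, h7])
  obtain ⟨S', -, h8, rfl⟩ := SurjOn.exists_subset_injOn_image_eq (s := univ) (f := Γ'.cls) (t := P)
    fun x hx => image_univ.ge (h5 hx)
  exact ⟨S', h4.of_finite_image h8, covers_iff.2 h6,
    fun φ T h => h7 T (Γ'.mem_range_rho.2 ⟨φ, h⟩)⟩

end Curves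

end Var

end Pool.Agent.Lib.MP_e39d36_ag
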