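import Pool.Agent.Lib.MP_e39d36_ag.Val
import Pool.Agent.Lib.MP_cc3443_ag.Line

open Set WithZero IsDedekindDomain IntermediateField Pool.Agent.Lib.MP_cc3443_ag

set_option linter.unusedSectionVars false
set_option linter.style.haveILetI false
set_option linter.unusedVariables false
set_option linter.deprecated false

noncomputable section

namespace Pool.Agent.Lib.MP_e39d36_ag

variable {F F' : Type} [Field F] [Field F'] [Algebra ℂ F] [Algebra ℂ F']

lemma place_isV [IsFF F] (P : Place F) : IsV P.val P.O.toSubring := ⟨P.val_surj, fun _ => P.mem_iff⟩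

theorem prod_formula [IsFF F] (z : F) : ∑ᶠ P : Place F, P.ord z = 0 := by
  obtain ⟨u, hu⟩ := IsFF.ex (K := F)
  haveI := IsFF.fin u hu
  let e := RatFunc.algEquivOfTranscendental u hu
  letI : Algebra (RatFunc ℂ) F := ((ℂ⟮u⟯.val).comp e.toAlgHom).toRingHom.toAlgebra
  haveI : IsScalarTower ℂ (RatFunc ℂ) F := IsScalarTower.of_algebraMap_eq fun a =>
    (((ℂ⟮u⟯.val).comp e.toAlgHom).commutes a).symm
  haveI : FiniteDimensional (RatFunc ℂ) F :=
    Module.Finite.of_equiv_equiv (A₁ := ℂ⟮u⟯) (B₁ := F) e.symm.toRingEquiv (RingEquiv.refl F) (by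
      ext a
      change ((e (e.symm a) : ℂ⟮u⟯) : F) = a
      simp)
  have := degree_divF z
  rw [Finsupp.degree_apply] at this
  rw [finsum_eq_sum_of_support_subset (s := (divF z).support), ← this]
  · rfl
  · intro P hP
    exact Finsupp.mem_support_iff.2 hP

lemma finite_of_isFF (j : F →ₐ[ℂ] F') [IsFF F'] {v : F} (hv : Transcendental ℂ v) :
    letI := j.toRingHom.toAlgebra
    IsFF F ∧ FiniteDimensional F F' := by
  letI := j.toRingHom.toAlgebra
  haveI : IsScalarTower ℂ F F' := IsScalarTower.of_algebraMap_eq fun a => (j.commutes a).symm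
  have key : ∀ v : F, Transcendental ℂ v → FiniteDimensional ℂ⟮v⟯ F' := fun v hv => by
    haveI := IsFF.fin (j v) ((transcendental_algebraMap_iff (A := F') j.injective).2 hv)
    refine Module.Finite.of_equiv_equiv (A₁ := ℂ⟮j v⟯) (B₁ := F')
      ((ℂ⟮v⟯.equivMap j).trans (equivOfEq (by simp [adjoin_map]))).symm.toRingEquiv
      (RingEquiv.refl F') ?_
    ext a
    obtain ⟨a, rfl⟩ := ((ℂ⟮v⟯.equivMap j).trans (equivOfEq (by simp [adjoin_map]) :
      _ ≃ₐ[ℂ] ℂ⟮j v⟯)).surjective a
    simp only [RingHom.coe_comp, RingHom.coe_coe, Function.comp_apply,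
      AlgEquiv.coe_ringEquiv, AlgEquiv.symm_apply_apply]
    rfl
  refine ⟨⟨⟨v, hv⟩, fun w hw => ?_⟩, ?_⟩
  · haveI := key w hw
    exact FiniteDimensional.left ℂ⟮w⟯ F F'
  · haveI := key v hv
    exact FiniteDimensional.right ℂ⟮v⟯ F F'

variable [IsFF F] [IsFF F']

/-- Restriction of a place. -/
def resP (j : F →ₐ[ℂ] F') (Q : Place F') : Place F where
  O := Q.O.comap j.toRingHom
  const a := by
    change j (algebraMap ℂ F a) ∈ Q.O
    rw [j.commutes]; exact Q.const a
  ne_top h := by
    obtain ⟨v, hv⟩ := IsFF.ex (K := F)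
    letI := j.toRingHom.toAlgebra
    haveI := (finite_of_isFF j hv).2
    refine Q.ne_top (eq_top_iff.2 fun z _ => nml_val Q.O z ?_)
    letI : Algebra F Q.O.toSubring :=
      (j.toRingHom.codRestrict Q.O.toSubring fun a => (h ▸ trivial : a ∈ Q.O.comap j.toRingHom)).toAlgebra
    haveI : IsScalarTower F Q.O.toSubring F' := IsScalarTower.of_algebraMap_eq fun _ => rfl
    exact (Algebra.IsIntegral.isIntegral (R := F) z).tower_top

lemma mem_resP {j : F →ₐ[ℂ] F'} {Q : Place F'} {z : F} : z ∈ (resP j Q).O ↔ j z ∈ Q.O := Iff.rfl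

theorem exists_sum_over (j : F →ₐ[ℂ] F') : ∃ n : ℕ, 0 < n ∧ ∀ P : Place F,
    ∃ T : Finset (Place F'), (∀ Q, Q ∈ T ↔ resP j Q = P) ∧
      ∀ z, ∑ Q ∈ T, Q.ord (j z) = n * P.ord z := by
  classical
  obtain ⟨v, hv⟩ := IsFF.ex (K := F)
  letI := j.toRingHom.toAlgebra
  haveI := (finite_of_isFF j hv).2
  haveI : CharZero F := charZero_of_injective_algebraMap (algebraMap ℂ F).injective
  refine ⟨Module.finrank F F', Module.finrank_pos, fun P => ?_⟩
  let R := P.O.toSubring
  haveI : IsDiscreteValuationRing R := inferInstanceAs (IsDiscreteValuationRing P.O)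
  haveI : IsFractionRing R F := inferInstanceAs (IsFractionRing P.O F)
  let S := integralClosure R F'
  haveI := integralClosure.isDedekindDomain R F F'
  haveI := integralClosure.isFractionRing_of_finite_extension (A := R) F F'
  haveI : Module.Finite R S := IsIntegralClosure.finite R F F' S
  haveI : FaithfulSMul R S := (faithfulSMul_iff_algebraMap_injective R S).2 fun a b h =>
    Subtype.ext (j.injective (congrArg Subtype.val h))
  let p := IsDiscreteValuationRing.maximalIdeal R
  have hp : p.valuation F = P.val := IsV.unique (R := R) ⟨p.valuation_surjective F, fun z =>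
    ⟨fun hz => p.valuation_le_one (⟨z, hz⟩ : R), fun hz => by
      obtain ⟨a, rfl⟩ := IsDiscreteValuationRing.exists_lift_of_le_one hz
      exact a.2⟩⟩ (place_isV P)
  have hc : ∀ a : ℂ, algebraMap ℂ F' a = algebraMap S F' (algebraMap R S ⟨_, P.const a⟩) :=
    fun a => (j.commutes a).symm
  let pl : HeightOneSpectrum S → Place F' := fun w =>
    ⟨(w.valuation F').valuationSubring, by
      simp only [ne_eq, Valuation.valuationSubring_eq_top_iff, not_not]
      infer_instance, fun a => by rw [hc]; exact w.valuation_le_one _⟩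
  have hpl : ∀ w, (pl w).val = w.valuation F' := fun w =>
    (place_isV _).unique ⟨w.valuation_surjective F', fun _ => Iff.rfl⟩
  have hinj : Function.Injective pl := fun w w' h => by
    ext b
    rw [← w.valuation_lt_one_iff_mem (K := F'), ← w'.valuation_lt_one_iff_mem (K := F'), ← hpl,
      ← hpl, h]
  haveI : p.asIdeal.IsMaximal := p.isMaximal
  let T₀ := (IsDedekindDomain.primesOverFinset p.asIdeal S).attach
  have hT₀ := fun q : IsDedekindDomain.primesOverFinset p.asIdeal S => (IsDedekindDomain.mem_primesOverFinset_iff p.ne_bot S).1 q.2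
  let ht : IsDedekindDomain.primesOverFinset p.asIdeal S → HeightOneSpectrum S := fun q =>
    ⟨q.1, (hT₀ q).1, haveI := (hT₀ q).2; Ideal.ne_bot_of_liesOver_of_ne_bot p.ne_bot q.1⟩
  have hval : ∀ q z, (pl (ht q)).ord (j z) = p.asIdeal.ramificationIdx' q.1 * P.ord z := by
    intro q z
    haveI : (ht q).asIdeal.LiesOver p.asIdeal := (hT₀ q).2
    have := HeightOneSpectrum.valuation_liesOver F' p (ht q) z
    simp only [Place.ord, hpl, ← hp]
    change -log ((ht q).valuation F' (algebraMap F F' z)) = _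
    rw [← this]
    simp [ht]
  refine ⟨T₀.image fun q => pl (ht q), fun Q => ⟨?_, ?_⟩, fun z => ?_⟩
  · intro hQ
    obtain ⟨q, -, rfl⟩ := Finset.mem_image.1 hQ
    refine (P.eq_of_le fun z hz => ?_).symm
    exact (ht q).valuation_le_one (K := F') (algebraMap R S ⟨z, hz⟩)
  · rintro rfl
    obtain ⟨w, hw⟩ := exists_heightOne R F Q.O Q.ne_top fun r => r.2
    have hw' : pl w = Q := Place.ext' (by
      rw [← hw, HeightOneSpectrum.valuationSubringAtPrime_eq_valuationSubring])
    have hlo : w.asIdeal.LiesOver p.asIdeal := ⟨by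
      ext r
      rw [Ideal.mem_under, ← w.valuation_lt_one_iff_mem (K := F'), ← hpl, hw',
        ← p.valuation_lt_one_iff_mem (K := F), hp]
      by_cases hr : (r : F) = 0
      · have : r = 0 := Subtype.ext hr
        simp [this]
      change (resP j Q).val r < 1 ↔ Q.val (j r) < 1
      rw [← not_le, ← not_le, ← Place.inv_mem_iff _ hr,
        ← Place.inv_mem_iff _ ((map_ne_zero j).2 hr), mem_resP, map_inv₀]⟩
    refine Finset.mem_image.2 ⟨⟨w.asIdeal, (IsDedekindDomain.mem_primesOverFinset_iff p.ne_bot S).2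
      ⟨w.isPrime, hlo⟩⟩, Finset.mem_attach _ _, hw'⟩
  · rw [Finset.sum_image fun q _ q' _ h => Subtype.ext (congrArg (·.asIdeal) (hinj h))]
    simp only [hval]
    rw [← Finset.sum_mul, ← Ideal.sum_ramification_inertia S F F' p.ne_bot,
      ← Finset.sum_attach (IsDedekindDomain.primesOverFinset p.asIdeal S), Nat.cast_sum]
    refine congrArg (· * _) (Finset.sum_congr rfl fun q _ => ?_)
    haveI := (hT₀ q).2
    haveI := (hT₀ q).1
    have : p.asIdeal.inertiaDeg' q.1 = 1 := by
      rw [Ideal.inertiaDeg'_algebraMap]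
      letI := Ideal.Quotient.field p.asIdeal
      refine (finrank_eq_one_iff_of_nonzero' 1 one_ne_zero).2 fun s => ?_
      obtain ⟨s, rfl⟩ := Ideal.Quotient.mk_surjective s
      obtain ⟨a, ha⟩ := (pl (ht q)).exists_res ((ht q).valuation_le_one (K := F') s)
      refine ⟨Ideal.Quotient.mk _ ⟨_, P.const a⟩, ?_⟩
      rw [hpl, hc, ← map_sub, HeightOneSpectrum.valuation_lt_one_iff_mem] at ha
      rw [Algebra.smul_def, mul_one, Ideal.Quotient.algebraMap_mk_of_liesOver, eq_comm,
        Ideal.Quotient.eq]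
      exact ha
    rw [this]; simp

theorem exists_deg (j : F →ₐ[ℂ] F') : ∃ n : ℕ, 0 < n ∧ ∀ u : Place F → F,
    {P : Place F | P.ord (u P) ≠ 0}.Finite →
      ∑ᶠ Q : Place F', Q.ord (j (u (resP j Q))) = n * ∑ᶠ P : Place F, P.ord (u P) := by
  classical
  obtain ⟨n, hn, h⟩ := exists_sum_over j
  choose T hT hT' using h
  refine ⟨n, hn, fun u hu => ?_⟩
  rw [finsum_eq_sum_of_support_subset (s := hu.toFinset) _ (by simp [Function.support]),
    finsum_eq_sum_of_support_subset (s := hu.toFinset.biUnion T), Finset.sum_biUnion,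
    Finset.mul_sum]
  · refine Finset.sum_congr rfl fun P _ => ?_
    rw [← hT']
    exact Finset.sum_congr rfl fun Q hQ => by rw [(hT P Q).1 hQ]
  · intro P _ P' _ hPP'
    refine Finset.disjoint_left.2 fun Q h1 h2 => hPP' ?_
    rw [← (hT P Q).1 h1, (hT P' Q).1 h2]
  · intro Q hQ
    simp only [Finset.coe_biUnion, mem_iUnion, Finset.mem_coe, hT]
    refine ⟨resP j Q, hu.mem_toFinset.2 fun h0 => hQ ?_, rfl⟩
    obtain ⟨e, -, he⟩ := exists_ram j.toRingHom (w := Q.val) (resP j Q).val_surj fun z => by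
      rw [← Place.mem_iff, ← Place.mem_iff]; rfl
    have := he (u (resP j Q))
    change Q.ord (j _) = e * (resP j Q).ord _ at this
    exact this.trans (by rw [h0, mul_zero])

end Pool.Agent.Lib.MP_e39d36_ag
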