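import Pool.Agent.Lib.MP_e39d36_ag.Pn

open Set WithZero Filter Pool.Agent.Lib.MP_cc3443_ag

set_option linter.unusedSectionVars false
set_option linter.style.haveILetI false
set_option linter.unusedVariables false

noncomputable section

namespace Pool.Agent.Lib.MP_e39d36_ag

variable {K L : Type} [Field K] [Algebra ℂ K] [Field L] [Algebra ℂ L]

lemma exists_avoid_count {ι : Type*} [Countable ι] (W : Submodule ℂ K) [FiniteDimensional ℂ W]
    (U : ι → Submodule ℂ K) (h : ∀ i, ¬W ≤ U i) : ∃ w ∈ W, ∀ i, w ∉ U i := by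
  by_contra! h1
  let f := W.subtype ∘ₗ (Module.finBasis ℂ W).equivFun.symm.toLinearMap
  obtain ⟨i, hi⟩ := nonempty_interior_of_iUnion_of_closed 
    (f := fun i => ((U i).comap f : Set (Fin (Module.finrank ℂ W) → ℂ)))
    (fun i => Submodule.closed_of_finiteDimensional _)
    (eq_univ_of_forall fun v => mem_iUnion.2 (h1 (f v) (Subtype.property _)))
  refine h i fun w hw => ?_
  have h2 := (Submodule.eq_top_of_nonempty_interior' _ hi).ge
    (Submodule.mem_top (x := (Module.finBasis ℂ W).equivFun ⟨w, hw⟩))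
  rwa [Submodule.mem_comap, LinearMap.comp_apply, LinearEquiv.coe_coe,
    LinearEquiv.symm_apply_apply] at h2

lemma exists_galois_closure (L K : Type) [Field K] [Algebra ℂ K] [Field L] [Algebra ℂ L]
    [Algebra L K] [IsScalarTower ℂ L K] [FiniteDimensional L K] :
    ∃ (M : Type) (_ : Field M) (_ : Algebra ℂ M) (_ : Algebra K M) (_ : Algebra L M),
      IsScalarTower ℂ K M ∧ IsScalarTower ℂ L M ∧ IsScalarTower L K M ∧ FiniteDimensional L M ∧
        IsGalois L M := by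
  haveI : CharZero L := charZero_of_injective_algebraMap (algebraMap ℂ L).injective
  haveI : IsAlgClosure L (AlgebraicClosure K) :=
    ⟨inferInstance, Algebra.IsAlgebraic.trans L K _⟩
  refine ⟨IntermediateField.normalClosure L K (AlgebraicClosure K), inferInstance, inferInstance,
    inferInstance, inferInstance, IsScalarTower.of_algebraMap_eq fun a => Subtype.ext ?_,
    inferInstance, inferInstance, inferInstance, inferInstance⟩
  exact IsScalarTower.algebraMap_apply ℂ K (AlgebraicClosure K) a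

lemma mem_icl_of_val [Algebra L K] {R : Subring L} {w : K}
    (h : ∀ V : ValuationSubring K, R ≤ V.toSubring.comap (algebraMap L K) → w ∈ V) :
    w ∈ icl K R :=
  nml_icl R w (isIntegral_of_val fun V hV => h V fun a ha => hV (alg_mem_icl ha))

namespace Var

variable {X : Var K} {Y : Var L}

theorem exists_family [Algebra L K] [IsScalarTower ℂ L K] [FiniteDimensional L K] (π : IC Y X)
    (hY : ∀ (F : Type) [Field F] [Algebra ℂ F] [IsFF F] (γ : CMap Y F) N, Cart N → 0 ≤ N →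
      0 ≤ γ.deg N) {c : X.Pt} (hc : IsCurve c) :
    ∃ (F : Type) (_ : Field F) (_ : Algebra ℂ F) (_ : IsFF F) (G : Type) (_ : Fintype G)
      (γ : G → CMap X F), (∀ D, Cart D → 0 ≤ D → 0 ≤ ∑ g, (γ g).deg D) ∧ (∃ g, (γ g).c = c) ∧
        ∀ g, π.p (γ g).c = π.p c := by
  obtain ⟨M, _, _, _, _, _, _, _, _, _⟩ := exists_galois_closure L K
  haveI := FiniteDimensional.right L K M
  haveI := IsGalois.tower_top_of_isGalois L K M
  obtain ⟨Z, ⟨π'⟩⟩ := exists_normalisation (K := M) X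
  obtain ⟨x, rfl⟩ := π'.surj c
  haveI := CMap.isFF_of_isCurve (CMap.res_surj x) (π'.isCurve.1 hc)
  refine ⟨_, inferInstance, inferInstance, this, M ≃ₐ[L] M, inferInstance,
    fun σ => ((CMap.res x).push ((π.comp π').actMor σ)).push π'.mor, fun D hD h0 => ?_,
    ⟨1, congrArg π'.p (π.comp π').act_one⟩, fun σ => (π.comp π').p_act⟩
  have h1 := π'.cart_pull hD
  obtain ⟨N, h2, h3⟩ := (π.comp π').exists_norm h1
  have h4 := hY _ ((CMap.res x).push (π.comp π').mor) N h2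
    ((π.comp π').norm_nonneg h3 (π'.pull_nonneg.2 h0))
  rw [← CMap.deg_push _ h2 fun _ _ => (π.comp π').locEq_pull, h3,
    CMap.deg_sum fun σ _ => (π.comp π').cart_act h1] at h4
  refine h4.trans_eq (Finset.sum_congr rfl fun σ _ => ?_)
  rw [CMap.deg_push ((π.comp π').actMor σ) h1 fun _ _ => (π.comp π').locEq_act,
    CMap.deg_push π'.mor hD fun _ _ => π'.locEq_pull]

namespace Prj

variable (Q : Prj X) {m : ℕ}

lemma exists_cuts {W : Submodule ℂ K} (hW : W ≤ Q.Fm m) {B : X.Pt → Prop}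
    (hB : ∀ x y, X.O x ≤ X.O y → B y → B x) (hWB : ∀ s, ¬B s → ¬W ≤ Q.van m s) (r : ℕ)
    {S : Set X.Pt} (hS : S.Countable) : ∃ (G : Fin r → K) (S' : Set X.Pt), (∀ a, G a ∈ W) ∧
      S'.Countable ∧ ∀ s ∈ S, ∀ x, X.O x ≤ X.O s → (∀ a, G a ∈ Q.van m x) →
        B x ∨ ∃ t ∈ S', X.O x ≤ X.O t ∧ ∀ k, Indep t k → Indep s (k + r) := by
  haveI := Submodule.finiteDimensional_of_le hW
  induction r generalizing S with
  | zero => exact ⟨Fin.elim0, S, fun a => a.elim0, hS, fun s hs x h _ =>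
      Or.inr ⟨s, hs, h, fun _ h => h⟩⟩
  | succ r ih =>
    haveI := (hS.mono (sep_subset S fun s => ¬B s)).to_subtype
    obtain ⟨g, h1, h2⟩ := exists_avoid_count W (fun s : {s ∈ S | ¬B s} => Q.van m s)
      fun s => hWB s s.2.2
    choose T h3 h4 h5 using Q.exists_comp (hW h1)
    obtain ⟨G, S', h6, h7, h8⟩ := ih (hS.biUnion fun s _ => (h3 s).countable)
    refine ⟨Fin.cons g G, S', Fin.cases h1 h6, h7, fun s hs x h9 h10 => ?_⟩
    by_cases h11 : B s
    · exact Or.inl (hB x s h9 h11)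
    obtain ⟨t, h12, h13⟩ := h5 s x h9 (h10 0)
    refine (h8 t (mem_biUnion hs h12) x h13 fun a => h10 a.succ).imp_right
      fun ⟨u, h14, h15, h16⟩ => ⟨u, h14, h15, fun k hk => (h16 k hk).succ ?_⟩
    exact (h4 s t h12).1.lt_of_ne fun h => h2 ⟨s, hs, h11⟩ (X.O_inj h ▸ (h4 s t h12).2)

variable [Algebra L K] [IsScalarTower ℂ L K] {J : Type} {z : J → K} {u : J → L} {d : K}
  (hm : 0 < m) (hz : ∀ a, z a ∈ Q.Fm m) (hv : ∀ x, ∃ a, z a ∉ Q.van m x) (hd : d ≠ 0)
  (hu : ∀ a, algebraMap L K (u a) = z a / d)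

include hz hd hu in
lemma chA_le_iff {x : X.Pt} (hv : ∃ a, z a ∉ Q.van m x) {a : J} (ha : z a ≠ 0) :
    (chA u a).toSubring ≤ (X.O x).comap (algebraMap L K) ↔ z a ∉ Q.van m x := by
  have h1 := (ch_spec x).1
  have h2 : ∀ b, algebraMap L K (u b / u a) =
      z b / Q.y (ch x) ^ m / (z a / Q.y (ch x) ^ m) := fun b => by
    rw [map_div₀, hu, hu, div_div_div_cancel_right₀ hd,
      div_div_div_cancel_right₀ (pow_ne_zero _ (Q.ne _))]
  rw [Q.notMem_van (hz a) h1]
  refine ⟨fun h => ?_, fun h => chA_le (fun c => ?_) fun b => ?_⟩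
  · obtain ⟨b, hb⟩ := hv
    have h3 := Subring.mem_comap.1 (h (div_mem_chA u a b))
    rw [Q.notMem_van (hz b) h1,
      ← div_mul_cancel₀ (z b / _) (div_ne_zero ha (pow_ne_zero m (Q.ne (ch x)))), ← h2] at hb
    exact hb.of_mul' h3 (h1 (Q.div_mem (hz a) _))
  · rw [Subring.mem_comap, ← IsScalarTower.algebraMap_apply]
    exact X.const_mem x c
  · rw [Subring.mem_comap, h2]
    exact h.div_mem (h1 (Q.div_mem (hz b) _))

include hz hd hu hv in
lemma mem_icl_Fm {a : J} (ha : z a ≠ 0) {k : ℕ} {G : K} (hG : G ∈ Q.Fm (m * k)) :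
    G / z a ^ k ∈ icl K (chA u a).toSubring := mem_icl_of_val fun V hV => by
  obtain ⟨x, hx⟩ := X.exists_ctr_val V fun c => by
    rw [IsScalarTower.algebraMap_apply ℂ L K]
    exact hV ((chA u a).algebraMap_mem c)
  obtain ⟨b, hb⟩ := hv x
  have h1 := (ch_spec x).1
  have h2 := ((Q.notMem_van (hz b) h1).1 hb).mono hx.1
  have h3 := Subring.mem_comap.1 (hV (div_mem_chA u a b))
  rw [map_div₀, hu, hu, div_div_div_cancel_right₀ hd] at h3
  have h4 := mul_mem (hx.1 (h1 (Q.div_mem hG _))) (pow_mem (h2.div_mem h3) k)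
  have h5 := (div_ne_zero_iff.1 h2.1).1
  have h6 := Q.ne (ch x)
  change _ ∈ V.toSubring
  convert h4 using 1
  simp only [div_pow, pow_mul]
  field_simp

include hm hz hd hu hv in
lemma locOf_icl {a : J} {x : X.Pt} (ha : z a ∉ Q.van m x) :
    LocOf (icl K (chA u a).toSubring) (X.O x) := by
  have h0 : z a ≠ 0 := fun h => ha (h ▸ zero_mem _)
  refine ⟨icl_le (X.nml x) ((Q.chA_le_iff hz hd hu (hv x) h0).2 ha), fun w hw => ?_⟩
  obtain ⟨b, h1, h2, h3⟩ := (ch_spec x).2 w hw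
  obtain ⟨k, h4, h5⟩ := ((tendsto_id.const_mul_atTop' hm).eventually
    ((Q.eventually_mem h1).and (Q.eventually_mem h3))).exists
  refine ⟨_, Q.mem_icl_Fm hz hv hd hu h0 h4, ?_, ?_⟩
  · convert h2.div (((Q.notMem_van (hz a) (ch_spec x).1).1 ha).pow k) using 1
    simp only [div_pow, pow_mul, id]
    field_simp
  · convert Q.mem_icl_Fm hz hv hd hu h0 h5 using 1
    ring

include hm hz hv in
theorem exists_pn [Finite J] (hJ : ∀ a, Cardinal.mk {b : J // b ≠ a} ≤ Algebra.trdeg ℂ K) :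
    ∃ (L : IntermediateField ℂ K) (_ : FiniteDimensional L K) (Y : Var L) (π : IC Y X),
      (∀ (F : Type) [Field F] [Algebra ℂ F] [IsFF F] (γ : CMap Y F) N, Cart N → 0 ≤ N →
        0 ≤ γ.deg N) ∧ ∀ x x' a, π.p x = π.p x' → z a ∈ Q.van m x → z a ∈ Q.van m x' := by
  obtain ⟨η, hη⟩ := X.exists_top
  obtain ⟨o, ho⟩ := hv η
  have hd : z o ≠ 0 := fun h => ho (h ▸ zero_mem _)
  let L := IntermediateField.adjoin ℂ (range fun a => z a / z o)
  let u : J → L := fun a => ⟨_, IntermediateField.subset_adjoin _ _ ⟨a, rfl⟩⟩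
  have hu : ∀ a, algebraMap L K (u a) = z a / z o := fun _ => rfl
  have ho1 : u o = 1 := Subtype.ext (div_self hd)
  haveI : Algebra.IsAlgebraic L K := ⟨fun w => by
    obtain ⟨b, h1, h2, h3⟩ := (Q.locOf_icl hm hz hv hd hu ho).2 w (hη ▸ trivial)
    rw [← mul_div_cancel_left₀ w h2.1, div_eq_mul_inv]
    exact (mem_icl.1 h3).tower_top.isAlgebraic.mul (mem_icl.1 h1).tower_top.isAlgebraic.inv⟩
  haveI := essFin_of_frac _ (X.fg (ch η)) (X.frac _)
  haveI := Algebra.EssFiniteType.of_comp ℂ L K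
  have h1 : IntermediateField.adjoin ℂ (range u) = ⊤ := L.lift_injective (by
    rw [IntermediateField.lift_adjoin, IntermediateField.lift_top, ← range_comp]; rfl)
  have h2 : ∀ a, u a ≠ 0 → IntermediateField.adjoin ℂ
      (range fun b : {b // b ≠ a} => u b / u a) = ⊤ := fun a ha => by
    have h2 : ∀ b, u b / u a ∈ IntermediateField.adjoin ℂ
        (range fun b : {b // b ≠ a} => u b / u a) := fun b => by
      by_cases hb : b = a
      · simp [hb, ha]
      · exact IntermediateField.subset_adjoin _ _ ⟨⟨b, hb⟩, rfl⟩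
    rw [eq_top_iff, ← h1, IntermediateField.adjoin_le_iff]
    rintro _ ⟨b, rfl⟩
    have := _root_.div_mem (h2 b) (h2 o)
    rwa [div_div_div_cancel_right₀ ha, ho1, div_one] at this
  have h3 : ∀ a, u a ≠ 0 → AlgebraicIndependent ℂ fun b : {b // b ≠ a} => u b / u a := by
    intro a ha
    haveI : Algebra.IsAlgebraic (Algebra.adjoin ℂ (range fun b : {b // b ≠ a} => u b / u a)) L :=
      IntermediateField.isAlgebraic_adjoin_iff_top.1 (by rw [h2 a ha]; infer_instance)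
    refine (Algebra.IsAlgebraic.isTranscendenceBasis_of_le_trdeg_of_finite ℂ _ ?_).1
    have := hJ a
    rwa [← trdeg_add_eq ℂ L, trdeg_eq_zero (A := K), add_zero] at this
  have h4 : ∀ a, u a ≠ 0 := fun a => by
    by_cases ha : a = o
    · simp [ha, ho1]
    · exact (div_ne_zero_iff.1 ((h3 o (by simp [ho1])).ne_zero ⟨a, ha⟩)).1
  have h5 : ∀ a, z a ≠ 0 := fun a h => h4 a (Subtype.ext (by simp [u, h]))
  haveI : Nonempty J := ⟨o⟩
  let Y : Var L := pn u h4 (fun a => h3 a (h4 a)) fun a w => by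
    have h6 : Algebra.adjoin ℂ (range fun b : {b // b ≠ a} => u b / u a) ≤ chA u a :=
      Algebra.adjoin_mono (by rintro _ ⟨b, rfl⟩; exact ⟨b, rfl⟩)
    obtain ⟨r, h7, s, h8, rfl⟩ := IntermediateField.mem_adjoin_iff_div.1
      (h2 a (h4 a) ▸ IntermediateField.mem_top (x := w))
    by_cases hs : s = 0
    · exact ⟨1, one_mem _, one_ne_zero, by simp [hs]⟩
    · exact ⟨s, h6 h8, hs, by rw [mul_div_cancel₀ _ hs]; exact h6 h7⟩
  have h6 : ∀ x, ∃ y, Dom (Y.O y) ((X.O x).comap (algebraMap L K)) ∧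
      LocOf (icl K (Y.O y)) (X.O x) := fun x => by
    obtain ⟨a, ha⟩ := hv x
    obtain ⟨y, h6, h7⟩ := exists_centre (X := Y) (i := a) ((X.isLoc x).comap _)
      ((Q.chA_le_iff hz hd hu (hv x) (h5 a)).2 ha)
    exact ⟨y, h6, (Q.locOf_icl hm hz hv hd hu ha).of_le (icl_mono h7.1) (icl_le (X.nml x) h6.1)⟩
  choose p hp hp' using h6
  refine ⟨L, Algebra.finite_of_essFiniteType_of_isAlgebraic, Y, IC.mk' p hp hp',
    fun F _ _ _ γ N => Prj.deg_nonneg ⟨u, h4, fun _ => rfl⟩ (fun a => h3 a (h4 a)) γ,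
    fun x x' a h h7 => of_not_not fun h8 => ?_⟩
  obtain ⟨y, h9, h10⟩ := exists_centre (X := Y) (i := a) ((X.isLoc x').comap _)
    ((Q.chA_le_iff hz hd hu (hv x') (h5 a)).2 h8)
  rw [Y.sep _ _ _ ((X.isLoc x').comap _) h9 (hp x'), ← show p x = p x' from h] at h10
  exact (Q.chA_le_iff hz hd hu (hv x) (h5 a)).1 (h10.1.trans (hp x).1) h7

include Q in
theorem exists_curves {c : X.Pt} (hc : IsCurve c) {S : Set X.PD} (hS : S.Countable) :
    ∃ (F : Type) (_ : Field F) (_ : Algebra ℂ F) (_ : IsFF F) (G : Type) (_ : Fintype G)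
      (γ : G → CMap X F), (∀ D, Cart D → 0 ≤ D → 0 ≤ ∑ g, (γ g).deg D) ∧ (∃ g, (γ g).c = c) ∧
        ∀ g, (γ g).c = c ∨ ∀ E ∈ S, ¬X.O (γ g).c ≤ X.O E.1 := by
  obtain ⟨η, hη⟩ := X.exists_top
  have hle : ∀ x, X.O x ≤ X.O η := fun x => hη ▸ le_top
  haveI := essFin_of_frac _ (X.fg (ch η)) (X.frac _)
  obtain ⟨n, hn⟩ := Cardinal.lt_aleph0.1 (trdeg_lt_aleph0 ℂ K)
  have h1 : ∀ x k, Indep x k → k ≤ n := fun x k h => by
    have := Indep.le_trdeg ⟨η, id, fun _ _ _ _ => rfl, fun _ _ _ _ => rfl, fun _ => rfl,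
      fun a _ h => by simpa [hη, un_top] using h⟩ (h.mono (hle x))
    rwa [hn, Nat.cast_le] at this
  have h2 : ∀ x : X.Pt, IsCurve x → Indep x 1 := fun x ⟨⟨y, hy⟩, _⟩ => (indep_zero y).succ hy
  obtain ⟨k, rfl⟩ := Nat.exists_eq_add_of_le' (h1 _ _ (h2 c hc))
  obtain ⟨m, hm, h3⟩ := Q.exists_cut c
  obtain ⟨G, S', h4, h5, h6⟩ := Q.exists_cuts (W := Q.Fm m ⊓ Q.van m c) inf_le_left
    (B := fun x => X.O x ≤ X.O c) (fun _ _ => le_trans)
    (fun s hs h => by
      obtain ⟨G, h4, h5, h6⟩ := h3 s hs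
      exact h6 (h ⟨h4, h5⟩)) k ((hS.image Subtype.val).insert η)
  obtain ⟨G', S'', h7, -, h8⟩ := Q.exists_cuts (m := m) le_rfl (B := fun _ => False) (fun _ _ _ => id)
    (fun s _ h => (Q.notMem_van (Q.y_pow_mem (ch s) m) (ch_spec s).1).2
      (by rw [div_self (pow_ne_zero _ (Q.ne _))]; exact Un.one) (h (Q.y_pow_mem _ m))) 2
    ((h5.mono (sep_subset S' fun t => ∀ j, Indep t j → Indep η (j + k))).insert c)
  obtain ⟨L, _, Y, π, h9, h10⟩ := Q.exists_pn (z := Sum.elim G G') hm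
    (Sum.rec (fun a => (h4 a).1) h7) (fun x => by
      by_contra! h9
      rcases h6 η (mem_insert _ _) x (hle x) fun a => h9 (.inl a) with h | ⟨t, h10, h11, h12⟩
      · obtain ⟨t, -, -, h13⟩ := (h8 c (mem_insert _ _) x h fun a => h9 (.inr a)).resolve_left id
        haveI := CMap.isFF_of_isCurve (CMap.res_surj c) hc
        exact absurd ((Indep.le_trdeg (CMap.res c) (h13 0 (indep_zero t))).trans trdeg_of_isFF)
          (by norm_num)
      · obtain ⟨t', -, -, h13⟩ := (h8 t (mem_insert_of_mem _ ⟨h10, h12⟩) x h11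
          fun a => h9 (.inr a)).resolve_left id
        have := h1 _ _ (h12 _ (h13 0 (indep_zero t')))
        omega) fun a => by
      classical
      rw [hn, Cardinal.mk_fintype, Fintype.card_subtype_compl, Nat.cast_le]
      simp
  obtain ⟨F, _, _, _, H, _, γ, h11, h12, h13⟩ := exists_family π h9 hc
  refine ⟨F, _, _, inferInstance, H, inferInstance, γ, h11, h12, fun g => ?_⟩
  refine or_iff_not_imp_left.2 fun h14 E hE h15 => ?_
  rcases h6 E.1 (mem_insert_of_mem _ ⟨E, hE, rfl⟩) _ h15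
    fun a => h10 c _ (.inl a) (h13 g).symm (h4 a).2 with h | ⟨t, -, h16, h17⟩
  · exact h14 (π.incomp (h13 g) h)
  · have := h1 _ _ ((h17 1 ((h2 _ (π.isCurve.1 ((h13 g).symm ▸ π.isCurve.2 hc))).mono h16)).succ
      ((hle _).lt_of_ne (hη.symm ▸ (isV E).ne_top)))
    omega

end Prj

end Var

end Pool.Agent.Lib.MP_e39d36_ag
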