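import Pool.Agent.Lib.MP_e39d36_ag.CG2

open Set Submodule Module Filter Topology
open scoped NNReal Pointwise

set_option linter.unusedSectionVars false

noncomputable section

namespace Pool.Agent.Lib.MP_e39d36_ag.CG

variable {V : Type*} [AddCommGroup V] [Module ℝ V] [TopologicalSpace V] [IsTopologicalAddGroup V]
  [ContinuousSMul ℝ V] [T2Space V] [FiniteDimensional ℝ V] [LocallyConvexSpace ℝ V]

namespace Setup

variable {S : Setup V}

lemma map_int {γ : V ≃ₗ[ℝ] V} (hγ : γ ∈ S.Γ) {x : V} (hx : x ∈ interior (S.C : Set V)) :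
    γ x ∈ interior (S.C : Set V) := map_mem_int γ (S.ΓC γ hγ) hx

/-- The Siegel property. -/
theorem siegel {Q : Set V} (hQ : Q.Finite) (hΛ : Q ⊆ S.Λ) (hC : Q ⊆ S.C) :
    {γ | γ ∈ S.Γ ∧ ∃ x ∈ span ℝ≥0 Q, x ∈ interior (S.C : Set V) ∧ γ x ∈ span ℝ≥0 Q}.Finite := by
  obtain ⟨ξ, hξ, hp⟩ := S.exists_pos_int
  have hM := hp.finite_mins hξ hQ hΛ hC
  refine (hM.inv.mul hM).subset ?_
  rintro γ ⟨hγ, x, hx, hx', hγx⟩
  obtain ⟨δ, hδ, hmin⟩ := hp.exists_min (map_int hγ hx')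
  refine ⟨δ⁻¹, by simpa using ⟨hδ, _, hγx, map_int hγ hx', hmin⟩, δ * γ,
    ⟨mul_mem hδ hγ, x, hx, hx', fun δ' h' => ?_⟩, by simp⟩
  simpa using hmin (δ' * γ⁻¹) (mul_mem h' (inv_mem hγ))

lemma isClosed_span {P : Set V} (hP : P.Finite) (hC : P ⊆ S.C) :
    IsClosed (span ℝ≥0 P : Set V) := by
  classical
  obtain ⟨ξ, hξ⟩ := S.exists_pos
  have hpos : ∀ v ∈ P, v ≠ 0 → 0 < ξ v := by
    intro v hv h0
    obtain ⟨φ, -, hφ⟩ := S.sepa v h0
    obtain ⟨M, hM, hM'⟩ := hξ.2 φ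
    refine (hξ.1 v (hC hv)).lt_of_ne' fun h => hφ ?_
    have := hM' v (hC hv)
    rw [h, mul_zero] at this
    exact abs_nonpos_iff.1 this
  refine isClosed_of_closure_subset fun x hx => ?_
  let c := ξ x + 1
  let K := (fun t : V → ℝ => ∑ v ∈ hP.toFinset, t v • v) '' Set.pi univ fun v => Icc 0 |c / ξ v|
  have hK : IsCompact K := (isCompact_univ_pi fun _ => isCompact_Icc).image (by fun_prop)
  have hKP : K ⊆ span ℝ≥0 P := by
    rintro _ ⟨t, ht, rfl⟩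
    exact sum_mem fun v hv => smul_mem' (ht v trivial).1 (subset_span (hP.mem_toFinset.1 hv))
  have hU : IsOpen {z | ξ z < c} := isOpen_lt ξ.continuous_of_finiteDimensional continuous_const
  have h1 := hU.inter_closure ⟨(by simp [c] : ξ x < c), hx⟩
  refine hKP (hK.isClosed.closure_subset_iff.2 ?_ h1)
  rintro z ⟨hz, hz'⟩
  obtain ⟨t, ht, rfl⟩ := exists_coeff hP hz'
  have hz : ∑ v ∈ hP.toFinset, t v * ξ v < c := by simpa using hz
  have hnn : ∀ v ∈ hP.toFinset, 0 ≤ t v * ξ v := fun v hv =>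
    mul_nonneg (ht v) (hξ.1 v (hC (hP.mem_toFinset.1 hv)))
  refine ⟨fun v => if v ∈ P ∧ v ≠ 0 then t v else 0,
    fun v _ => ?_, Finset.sum_congr rfl fun v hv => ?_⟩
  · by_cases h : v ∈ P ∧ v ≠ 0
    · simp only [if_pos h]
      refine ⟨ht v, le_trans ?_ (le_abs_self _)⟩
      rw [le_div_iff₀ (hpos v h.1 h.2)]
      exact (Finset.single_le_sum hnn (hP.mem_toFinset.2 h.1)).trans hz.le
    · simp only [if_neg h]
      exact ⟨le_rfl, abs_nonneg _⟩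
  · by_cases h0 : v = 0
    · simp [h0]
    · simp [hP.mem_toFinset.1 hv, h0]

/-- Existence of a rational polyhedral fundamental domain. -/
theorem fund (E : Submodule ℝ≥0 V) (hEC : E ≤ S.C) (hE : ∀ γ ∈ S.Γ, ∀ x ∈ E, γ x ∈ E)
    {Q : Set V} (hQ : Q.Finite) (hΛ : Q ⊆ S.Λ) (hQE : Q ⊆ E)
    (hne : (interior (S.C : Set V)).Nonempty)
    (hcov : ∀ x ∈ interior (S.C : Set V), ∃ γ ∈ S.Γ, ∃ y ∈ span ℝ≥0 Q, γ y = x)
    (hrat : ∀ x ∈ E, ∃ R : Set V, R.Finite ∧ R ⊆ S.Λ ∧ R ⊆ S.C ∧ x ∈ span ℝ≥0 R) :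
    ∃ P : Set V, P.Finite ∧ P ⊆ S.Λ ∧ (∀ x, x ∈ E ↔ ∃ γ ∈ S.Γ, ∃ y ∈ span ℝ≥0 P, γ y = x) ∧
      ∀ γ ∈ S.Γ, γ ≠ 1 →
        interior (span ℝ≥0 P : Set V) ∩ γ '' interior (span ℝ≥0 P : Set V) = ∅ := by
  obtain ⟨ξ, hξ, hp, hfree⟩ := S.exists_free
  have hQC : Q ⊆ S.C := fun x hx => hEC (hQE hx)
  have hM := hp.finite_mins hξ hQ hΛ hQC
  let P₀ : Set V := ⋃ δ ∈ S.Mins ξ Q, δ '' Q
  have h1 : P₀.Finite := hM.biUnion fun δ _ => hQ.image _
  have h2 : P₀ ⊆ S.Λ := iUnion₂_subset fun δ hδ => by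
    rintro _ ⟨x, hx, rfl⟩; exact S.ΓΛ δ hδ.1 x (hΛ hx)
  have h3 : P₀ ⊆ E := iUnion₂_subset fun δ hδ => by
    rintro _ ⟨x, hx, rfl⟩; exact hE δ hδ.1 x (hQE hx)
  have h3' : P₀ ⊆ S.C := fun x hx => hEC (h3 hx)
  have hM' := hp.finite_mins hξ h1 h2 h3'
  obtain ⟨P, hP, hPΛ, hPs⟩ := cuts S.Λ _ hM' (fun δ => ξ ∘ₗ δ.toLinearMap - ξ)
    (fun δ hδ x hx => by
      obtain ⟨m, hm⟩ := hξ _ (S.ΓΛ δ hδ.1 x hx)
      obtain ⟨n, hn⟩ := hξ x hx
      exact ⟨m - n, by simp [hm, hn]⟩) P₀ h1 h2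
  have hPE : span ℝ≥0 P ≤ E := fun x hx => span_le.2 h3 ((hPs x).1 hx).1
  have hPC : P ⊆ S.C := fun x hx => hEC (hPE (subset_span hx))
  have hD : ∀ x ∈ interior (S.C : Set V), x ∈ span ℝ≥0 P ↔ ∀ δ ∈ S.Γ, ξ x ≤ ξ (δ x) := by
    intro x hx
    rw [hPs]
    constructor
    · rintro ⟨h4, h5⟩ δ hδ
      obtain ⟨δ₀, h6, h7⟩ := hp.exists_min hx
      have := h5 δ₀ ⟨h6, x, h4, hx, h7⟩
      simp only [LinearMap.sub_apply, LinearMap.comp_apply, LinearEquiv.coe_coe,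
        sub_nonneg] at this
      exact this.trans (h7 δ hδ)
    · intro h
      refine ⟨?_, fun δ hδ => by simpa using h δ hδ.1⟩
      obtain ⟨γ, hγ, y, hy, rfl⟩ := hcov x hx
      have hy' : y ∈ interior (S.C : Set V) := by simpa using map_int (inv_mem hγ) hx
      have hγM : γ ∈ S.Mins ξ Q := ⟨hγ, y, hy, hy', fun δ hδ => by
        simpa using h (δ * γ⁻¹) (mul_mem hδ (inv_mem hγ))⟩
      exact map_mem_span γ.toLinearMap
        (fun v hv => subset_span (mem_biUnion hγM (mem_image_of_mem _ hv))) hy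
  refine ⟨P, hP, hPΛ, fun x => ⟨fun hx => ?_, ?_⟩, fun γ hγ hγ1 => ?_⟩
  · obtain ⟨R, hR, hRΛ, hRC, hxR⟩ := hrat x hx
    obtain ⟨x₀, hx₀⟩ := hne
    obtain ⟨γ, hγ, y, hy, rfl⟩ := hcov x₀ hx₀
    have h4 : (R ∪ γ '' Q).Finite := hR.union (hQ.image _)
    have h5 := hp.finite_mins hξ h4
      (union_subset hRΛ (by rintro _ ⟨x, hx, rfl⟩; exact S.ΓΛ γ hγ x (hΛ hx)))
      (union_subset hRC (by rintro _ ⟨x, hx, rfl⟩; exact S.ΓC γ hγ x (hQC hx)))
    have h6 : IsClosed (⋃ δ ∈ S.Mins ξ (R ∪ γ '' Q), δ ⁻¹' (span ℝ≥0 P : Set V)) :=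
      h5.isClosed_biUnion fun δ _ =>
        (isClosed_span hP hPC).preimage δ.toLinearMap.continuous_of_finiteDimensional
    have h7 : Tendsto (fun t : ℝ => x + t • γ y) (𝓝[>] 0) (𝓝 x) := by
      have : Continuous fun t : ℝ => x + t • γ y := by fun_prop
      have h := this.tendsto 0
      simp only [zero_smul, add_zero] at h
      exact h.mono_left nhdsWithin_le_nhds
    have h8 := h6.mem_of_tendsto h7 (eventually_of_mem self_mem_nhdsWithin fun t ht => by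
      have ht : 0 < t := ht
      have h9 : x + t • γ y ∈ interior (S.C : Set V) :=
        add_mem_int (hEC hx) (smul_mem_int ht hx₀)
      obtain ⟨δ, hδ, hmin⟩ := hp.exists_min h9
      refine mem_biUnion (x := δ) ⟨hδ, _, ?_, h9, hmin⟩ ?_
      · exact add_mem (span_mono subset_union_left hxR) (smul_mem' ht.le
          (map_mem_span γ.toLinearMap
            (fun v hv => subset_span (Or.inr (mem_image_of_mem _ hv))) hy))
      · refine (hD _ (map_int hδ h9)).2 fun δ' hδ' => ?_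
        simpa using hmin (δ' * δ) (mul_mem hδ' hδ))
    simp only [mem_iUnion] at h8
    obtain ⟨δ, hδ, h9⟩ := h8
    exact ⟨δ⁻¹, inv_mem hδ.1, _, h9, by simp⟩
  · rintro ⟨γ, hγ, y, hy, rfl⟩
    exact hE γ hγ y (hPE hy)
  · rw [eq_empty_iff_forall_notMem]
    rintro _ ⟨hx, y, hy, rfl⟩
    refine hγ1 (hfree γ hγ fun v => ?_)
    have hint : interior (span ℝ≥0 P : Set V) ⊆ interior (S.C : Set V) :=
      interior_mono fun z hz => hEC (hPE hz)
    let U := interior (span ℝ≥0 P : Set V) ∩ γ ⁻¹' interior (span ℝ≥0 P : Set V)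
    have hU : IsOpen U := isOpen_interior.inter
      (isOpen_interior.preimage γ.toLinearMap.continuous_of_finiteDimensional)
    have hz : ∀ z ∈ U, ξ (γ z) = ξ z := fun z hz => by
      refine le_antisymm ?_ ((hD z (hint hz.1)).1 (interior_subset hz.1) γ hγ)
      simpa using (hD _ (hint hz.2)).1 (interior_subset hz.2) γ⁻¹ (inv_mem hγ)
    obtain ⟨ε, hε, h⟩ := int_sub (C := U) (x := y) (by rw [hU.interior_eq]; exact ⟨hy, hx⟩) v
    have h4 := hz _ h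
    have h5 := hz y ⟨hy, hx⟩
    simp only [map_sub, map_smul, smul_eq_mul, h5, sub_right_inj] at h4
    exact mul_left_cancel₀ hε.ne' h4

end Setup

end Pool.Agent.Lib.MP_e39d36_ag.CG
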