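import Pool.Agent.Lib.MP_e39d36_ag.Dim

open Set WithZero Filter Pool.Agent.Lib.MP_cc3443_ag

set_option linter.unusedSectionVars false
set_option linter.style.haveILetI false
set_option linter.unusedVariables false

noncomputable section

namespace Pool.Agent.Lib.MP_e39d36_ag

variable {K F : Type} [Field K] [Algebra ℂ K] [Field F] [Algebra ℂ F]

namespace Var

/-- Homogeneous coordinates. -/
structure Prj (X : Var K) where
  y : X.ι → K
  ne : ∀ i, y i ≠ 0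
  A_eq : ∀ i, X.A i = chA y i

variable {X : Var K}

/-- A chosen chart. -/
def ch (x : X.Pt) : X.ι := (X.chart x).choose

lemma ch_spec (x : X.Pt) : LocOf (X.A (ch x)).toSubring (X.O x) := (X.chart x).choose_spec

lemma ord_pow (f : K) (n : ℕ) (E : X.PD) : X.ord (f ^ n) E.1 = n * X.ord f E.1 := by
  simp only [ord_val, od_pow]

namespace Prj

variable (Q : Prj X) {i j : X.ι} {x : X.Pt} {T : Subring K}

lemma mem (i j : X.ι) : Q.y j / Q.y i ∈ X.A i := Q.A_eq i ▸ div_mem_chA Q.y i j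

lemma un (h : (X.A i).toSubring ≤ T) (h' : (X.A j).toSubring ≤ T) : Un T (Q.y j / Q.y i) :=
  un_of_chA (Q.ne i) (Q.ne j) (Q.A_eq i ▸ h) (Q.A_eq j ▸ h')

lemma le_of_un (h : (X.A i).toSubring ≤ T) (hu : Un T (Q.y j / Q.y i)) : (X.A j).toSubring ≤ T :=
  Q.A_eq j ▸ chA_le_of_un (Q.A_eq i ▸ h) hu

lemma div_ne (i j : X.ι) : Q.y j / Q.y i ≠ 0 := div_ne_zero (Q.ne j) (Q.ne i)

/-- The coordinate hyperplane sections. -/
def hyp (j : X.ι) : X.PD →₀ ℤ :=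
  Finsupp.ofSupportFinite (fun E => X.ord (Q.y j / Q.y (ch E.1)) E.1)
    ((finite_iUnion fun i => finite_ord (Q.y j / Q.y i)).subset fun E hE =>
      mem_iUnion.2 ⟨ch E.1, hE⟩)

lemma hyp_apply (j : X.ι) (E : X.PD) : Q.hyp j E = X.ord (Q.y j / Q.y (ch E.1)) E.1 := rfl

lemma hyp_sub (i j : X.ι) (E : X.PD) : Q.hyp j E = Q.hyp i E + X.ord (Q.y j / Q.y i) E.1 := by
  simp only [hyp_apply, ord_div (Q.ne _) (Q.ne _)]
  ring

lemma hyp_eq_zero {E : X.PD} (h : (X.A i).toSubring ≤ X.O E.1) : Q.hyp i E = 0 :=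
  ord_un (Q.un (ch_spec _).1 h)

lemma hyp_nonneg (j : X.ι) : 0 ≤ Q.hyp j := fun E => ord_nonneg ((ch_spec _).1 (Q.mem _ j))

lemma hyp_pos {E : X.PD} (h : ¬(X.A i).toSubring ≤ X.O E.1) : 0 < Q.hyp i E :=
  ord_pos (Q.div_ne _ _) ((ch_spec _).1 (Q.mem _ i)) fun hu => h (Q.le_of_un (ch_spec _).1 hu)

lemma locEq_hyp (j : X.ι) (h : (X.A i).toSubring ≤ X.O x) : LocEq (Q.hyp j) x (Q.y j / Q.y i) :=
  .mk' (Q.div_ne _ _) fun E hE => by rw [Q.hyp_sub i, Q.hyp_eq_zero (h.trans hE), zero_add]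

lemma cart_hyp (j : X.ι) : Cart (Q.hyp j) := fun x => ⟨_, Q.locEq_hyp j (ch_spec x).1⟩

lemma deg_hyp_nonneg [IsFF F] (γ : CMap X F) (j : X.ι) : 0 ≤ γ.deg (Q.hyp j) := by
  have h1 : Q.hyp j = Q.hyp (ch γ.c) + X.div (Q.y j / Q.y (ch γ.c)) := Finsupp.ext (Q.hyp_sub _ j)
  rw [h1, CMap.deg_add (Q.cart_hyp _) (cart_div (Q.div_ne _ _)), CMap.deg_div (Q.div_ne _ _),
    add_zero]
  exact CMap.deg_nonneg (Q.cart_hyp _) (Q.hyp_nonneg _) fun E hE =>
    Q.hyp_eq_zero ((ch_spec _).1.trans hE)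

lemma exists_sec {D : X.PD →₀ ℤ} (hD : Cart D) (x : X.Pt) (j : X.ι) :
    ∃ g : K, (∀ E : X.PD, X.O x ≤ X.O E.1 → D E + X.ord g E.1 = 0) ∧ ∀ᶠ m : ℕ in atTop, ∃ f : K,
      f ≠ 0 ∧ (∀ E, 0 ≤ (D + m • Q.hyp j) E + X.ord f E.1) ∧
        ∀ E, (D + m • Q.hyp j) E + X.ord f E.1 = D E + X.ord g E.1 + m * Q.hyp (ch x) E := by
  obtain ⟨g, h1, h2⟩ := (hD.neg.lf x).exists_section (ch_spec x)
  refine ⟨g, fun E hE => by rw [← h1.eq hE]; simp, ?_⟩
  have h3 : ∀ᶠ m : ℕ in atTop, ∀ E ∈ (D + X.div g).support, -(D E + X.ord g E.1) ≤ m :=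
    (eventually_all_finset _).2 fun E _ => tendsto_natCast_atTop_atTop.eventually_ge_atTop _
  filter_upwards [h3] with m hm
  have h4 : ∀ E : X.PD, (D + m • Q.hyp j) E + X.ord (g * (Q.y (ch x) / Q.y j) ^ m) E.1 =
      D E + X.ord g E.1 + m * Q.hyp (ch x) E := fun E => by
    rw [ord_mul h1.1 (pow_ne_zero _ (Q.div_ne _ _)), ord_pow, Q.hyp_sub j (ch x)]
    simp only [Finsupp.add_apply, Finsupp.smul_apply, nsmul_eq_mul]
    ring
  refine ⟨_, mul_ne_zero h1.1 (pow_ne_zero _ (Q.div_ne _ _)), fun E => ?_, h4⟩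
  rw [h4]
  by_cases hE : (X.A (ch x)).toSubring ≤ X.O E.1
  · have := h2 E hE
    rw [Q.hyp_eq_zero hE]
    simp only [Finsupp.neg_apply] at this
    linarith
  · have h5 := Q.hyp_pos hE
    have h6 : -(D E + X.ord g E.1) ≤ m := by
      by_cases h7 : E ∈ (D + X.div g).support
      · exact hm E h7
      · have : D E + X.ord g E.1 = 0 := by simpa using h7
        simp [this]
    nlinarith [Int.natCast_nonneg m]

theorem exists_mov {D : X.PD →₀ ℤ} (hD : Cart D) (j : X.ι) : ∃ m : ℕ, Mov (D + m • Q.hyp j) := by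
  obtain ⟨η, -⟩ := X.exists_top
  obtain ⟨g, -, h1⟩ := Q.exists_sec hD η j
  have h2 : ∀ᶠ m : ℕ in atTop, ∀ E ∈ ((D + X.div g).support ∪ (Q.hyp (ch η)).support : Set X.PD),
      ∃ f : K, f ≠ 0 ∧ (∀ F : X.PD, 0 ≤ (D + m • Q.hyp j) F + X.ord f F.1) ∧
        (D + m • Q.hyp j) E + X.ord f E.1 = 0 := by
    classical
    refine (eventually_all_finite ((Finset.finite_toSet _).union (Finset.finite_toSet _))).2
      fun E _ => ?_
    obtain ⟨g, h3, h4⟩ := Q.exists_sec hD E.1 j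
    filter_upwards [h4] with m ⟨f, h5, h6, h7⟩
    exact ⟨f, h5, h6, by rw [h7, h3 E le_rfl, Q.hyp_eq_zero (ch_spec _).1]; simp⟩
  obtain ⟨m, ⟨f, h3, h4, h5⟩, h6⟩ := (h1.and h2).exists
  refine ⟨m, fun E => ?_⟩
  by_cases hE : E ∈ ((D + X.div g).support ∪ (Q.hyp (ch η)).support : Set X.PD)
  · exact h6 E hE
  · refine ⟨f, h3, h4, ?_⟩
    simp only [mem_union, Finset.mem_coe, Finsupp.mem_support_iff, not_or, not_not,
      Finsupp.add_apply, div_apply] at hE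
    rw [h5, hE.1, hE.2]; simp

lemma mov_hyp (j : X.ι) : Mov (Q.hyp j) := fun E =>
  ⟨_, Q.div_ne j (ch E.1), fun F => by rw [← Q.hyp_sub]; exact Q.hyp_nonneg _ F,
    by rw [← Q.hyp_sub]; exact Q.hyp_eq_zero (ch_spec _).1⟩

/-- Forms of degree `m`. -/
def Fm (m : ℕ) : Submodule ℂ K := Submodule.span ℂ (range Q.y) ^ m

instance (m : ℕ) : FiniteDimensional ℂ (Q.Fm m) :=
  Module.Finite.iff_fg.2 ((Submodule.fg_span (finite_range _)).pow m)

variable {m : ℕ} {G : K}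

lemma y_mem (i : X.ι) : Q.y i ∈ Q.Fm 1 := by
  rw [Fm, pow_one]; exact Submodule.subset_span ⟨i, rfl⟩

lemma mul_mem_Fm {n : ℕ} {G' : K} (h : G ∈ Q.Fm m) (h' : G' ∈ Q.Fm n) : G * G' ∈ Q.Fm (m + n) := by
  rw [Fm, pow_add]; exact Submodule.mul_mem_mul h h'

lemma pow_mem_Fm (h : G ∈ Q.Fm m) (n : ℕ) : G ^ n ∈ Q.Fm (m * n) := by
  rw [Fm, pow_mul]; exact Submodule.pow_mem_pow _ h n

lemma y_pow_mem (i : X.ι) (m : ℕ) : Q.y i ^ m ∈ Q.Fm m := by
  simpa using Q.pow_mem_Fm (Q.y_mem i) m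

lemma div_mem (h : G ∈ Q.Fm m) (i : X.ι) : G / Q.y i ^ m ∈ X.A i := by
  induction h using Submodule.pow_induction_on_left' with
  | algebraMap r => simp
  | add x y i _ _ hx hy => rw [add_div]; exact add_mem hx hy
  | mem_mul a ha n x _ hx =>
    rw [pow_succ', mul_div_mul_comm]
    refine mul_mem ?_ hx
    induction ha using Submodule.span_induction with
    | mem x hx => obtain ⟨j, rfl⟩ := hx; exact Q.mem i j
    | zero => simp
    | add a b _ _ ha hb => rw [add_div]; exact add_mem ha hb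
    | smul c a _ ha => rw [smul_div_assoc]; exact Subalgebra.smul_mem _ ha c

lemma eventually_mem {a : K} (h : a ∈ X.A i) : ∀ᶠ m : ℕ in atTop, a * Q.y i ^ m ∈ Q.Fm m := by
  have key : ∀ a m, a * Q.y i ^ m ∈ Q.Fm m → ∀ᶠ n : ℕ in atTop, a * Q.y i ^ n ∈ Q.Fm n :=
    fun a m h => eventually_atTop.2 ⟨m, fun n hn => by
      obtain ⟨k, rfl⟩ := Nat.exists_eq_add_of_le hn
      rw [pow_add, ← mul_assoc]
      exact Q.mul_mem_Fm h (Q.y_pow_mem i k)⟩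
  rw [Q.A_eq] at h
  induction h using Algebra.adjoin_induction with
  | mem x hx =>
    obtain ⟨j, rfl⟩ := hx
    exact key _ 1 (by simpa [Q.ne i] using Q.y_mem j)
  | algebraMap c =>
    exact .of_forall fun m => by
      rw [← Algebra.smul_def]; exact Submodule.smul_mem _ _ (Q.y_pow_mem i m)
  | add a b _ _ ha hb =>
    filter_upwards [ha, hb] with m h1 h2
    rw [add_mul]; exact add_mem h1 h2
  | mul a b _ _ ha hb =>
    obtain ⟨m, h1, h2⟩ := (ha.and hb).exists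
    exact key _ (m + m) (by convert Q.mul_mem_Fm h1 h2 using 1; ring)

/-- Forms vanishing at a point. -/
def van (m : ℕ) (x : X.Pt) : Submodule ℂ K :=
  (X.nu x).comap (LinearMap.mulRight ℂ (Q.y (ch x) ^ m)⁻¹)

lemma notMem_van (hG : G ∈ Q.Fm m) (h : (X.A i).toSubring ≤ X.O x) :
    G ∉ Q.van m x ↔ Un (X.O x) (G / Q.y i ^ m) := by
  have h1 := (ch_spec x).1
  have h2 : G ∉ Q.van m x ↔ Un (X.O x) (G / Q.y (ch x) ^ m) := by
    have := h1 (Q.div_mem hG _)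
    rw [div_eq_mul_inv] at this ⊢
    exact ⟨fun h3 => of_not_not fun h4 => h3 ⟨this, h4⟩, fun h3 h4 => h4.2 h3⟩
  have h3 : ∀ i j, G / Q.y i ^ m = G / Q.y j ^ m * (Q.y j / Q.y i) ^ m := fun i j => by
    rw [div_pow, div_mul_div_cancel₀ (pow_ne_zero _ (Q.ne j))]
  rw [h2]
  exact ⟨fun h4 => h3 i _ ▸ h4.mul ((Q.un h h1).pow m), fun h4 => h3 _ i ▸ h4.mul ((Q.un h1 h).pow m)⟩

lemma van_mono {y : X.Pt} (hG : G ∈ Q.Fm m) (h : X.O x ≤ X.O y) (h' : G ∈ Q.van m y) :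
    G ∈ Q.van m x := of_not_not fun h1 =>
  (Q.notMem_van hG ((ch_spec x).1.trans h)).2 (((Q.notMem_van hG (ch_spec x).1).1 h1).mono h) h'

lemma exists_cut (c : X.Pt) : ∃ m, 0 < m ∧ ∀ s, ¬X.O s ≤ X.O c →
    ∃ G ∈ Q.Fm m, G ∈ Q.van m c ∧ G ∉ Q.van m s := by
  have h1 : ∀ i, ∀ᶠ m : ℕ in atTop, ∀ s, (X.A i).toSubring ≤ X.O s → ¬X.O s ≤ X.O c →
      ∃ G ∈ Q.Fm m, G ∈ Q.van m c ∧ G ∉ Q.van m s := by
    intro i
    by_cases hi : (X.A i).toSubring ≤ X.O c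
    · obtain ⟨t, ht⟩ := IsNoetherian.noetherian (mx (X.isLoc c) hi)
      filter_upwards [(eventually_all_finset t).2 fun a _ => Q.eventually_mem (i := i) a.2]
        with m hm s h1 h2
      have h3 : ∀ a : K, a * Q.y i ^ m / Q.y i ^ m = a := fun a =>
        mul_div_cancel_right₀ _ (pow_ne_zero _ (Q.ne i))
      by_contra! h4
      refine h2 ((locOf_of_le h1).le hi fun b hb hu => of_not_not fun h5 => ?_)
      have h6 : mx (X.isLoc c) hi ≤ mx (X.isLoc s) h1 := by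
        rw [← ht, Submodule.span_le]
        intro a ha h7
        refine (Q.notMem_van (hm a ha) h1).2 ((h3 a).symm ▸ h7) (h4 _ (hm a ha) ?_)
        by_contra h8
        have h9 : a ∈ mx (X.isLoc c) hi := ht ▸ Submodule.subset_span ha
        exact h9 (h3 a ▸ (Q.notMem_van (hm a ha) hi).1 h8)
      exact h6 (x := ⟨b, hb⟩) h5 hu
    · filter_upwards [eventually_gt_atTop 0] with m hm s h1 h2
      refine ⟨_, Q.y_pow_mem i m, of_not_not fun h3 => hi ?_, ?_⟩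
      · have h4 := (Q.notMem_van (Q.y_pow_mem i m) (ch_spec c).1).1 h3
        rw [← div_pow] at h4
        exact Q.le_of_un (ch_spec c).1 (h4.of_pow ((ch_spec c).1 (Q.mem _ _)) hm.ne')
      · rw [Q.notMem_van (Q.y_pow_mem i m) h1, div_self (pow_ne_zero _ (Q.ne i))]
        exact Un.one
  obtain ⟨m, h2, h3⟩ := ((eventually_gt_atTop 0).and (eventually_all.2 h1)).exists
  exact ⟨m, h2, fun s => h3 _ s (ch_spec s).1⟩

lemma exists_comp (hG : G ∈ Q.Fm m) (s : X.Pt) : ∃ S : Set X.Pt, S.Finite ∧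
    (∀ t ∈ S, X.O t ≤ X.O s ∧ G ∈ Q.van m t) ∧
      ∀ x, X.O x ≤ X.O s → G ∈ Q.van m x → ∃ t ∈ S, X.O x ≤ X.O t := by
  have h1 : ∀ i, ∃ S : Set X.Pt, S.Finite ∧ (∀ t ∈ S, X.O t ≤ X.O s ∧ G ∈ Q.van m t) ∧
      ∀ x, (X.A i).toSubring ≤ X.O x → X.O x ≤ X.O s → G ∈ Q.van m x → ∃ t ∈ S, X.O x ≤ X.O t := by
    intro i
    by_cases hi : (X.A i).toSubring ≤ X.O s
    swap
    · exact ⟨∅, finite_empty, by simp, fun x h1 h2 => absurd (h1.trans h2) hi⟩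
    let g : (X.A i).toSubring := ⟨_, Q.div_mem hG i⟩
    let I := mx (X.isLoc s) hi ⊔ Ideal.span {g}
    haveI := (Ideal.finite_minimalPrimes_of_isNoetherianRing _ I).to_subtype
    choose t h1 h2 using fun q : I.minimalPrimes => @exists_pt_prime _ _ _ _ i q.1 q.2.1.1
    refine ⟨range t, finite_range _, ?_, fun x h3 h4 h5 => ?_⟩
    · rintro _ ⟨q, rfl⟩
      refine ⟨(h1 q).le hi fun b hb hu => of_not_not fun h3 => (h2 q ⟨b, hb⟩).1 hu
        (q.2.1.2 (Ideal.mem_sup_left h3)), of_not_not fun h3 => ?_⟩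
      exact (h2 q g).1 ((Q.notMem_van hG (h1 q).1).1 h3)
        (q.2.1.2 (Ideal.mem_sup_right (Ideal.mem_span_singleton_self g)))
    · obtain ⟨q, hq, hq'⟩ := Ideal.exists_minimalPrimes_le (I := I) (J := mx (X.isLoc x) h3)
        (sup_le (fun b hb hu => hb (Un.mono hu h4)) ((Ideal.span_singleton_le_iff_mem _).2
          fun hu => (Q.notMem_van hG h3).2 hu h5))
      exact ⟨_, ⟨⟨q, hq⟩, rfl⟩, (locOf_of_le h3).le (h1 _).1 fun b hb hu =>
        (h2 _ ⟨b, hb⟩).2 fun h6 => hq' h6 hu⟩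
  choose S h1 h2 h3 using h1
  refine ⟨⋃ i, S i, finite_iUnion h1, fun t ht => ?_, fun x h4 h5 => ?_⟩
  · obtain ⟨i, hi⟩ := mem_iUnion.1 ht
    exact h2 i t hi
  · obtain ⟨t, h6, h7⟩ := h3 _ x (ch_spec x).1 h4 h5
    exact ⟨t, mem_iUnion.2 ⟨_, h6⟩, h7⟩

end Prj

end Var

end Pool.Agent.Lib.MP_e39d36_ag
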