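import Pool.Agent.Lib.MP_e39d36_ag.CG3

open Set Submodule Module Filter Topology
open scoped NNReal Pointwise

set_option linter.unusedSectionVars false
set_option linter.style.haveILetI false

noncomputable section

namespace Pool.Agent.Lib.MP_e39d36_ag.CG

lemma exists_reps {α β : Type*} {f : α → β} {s : Set α} (h : (f '' s).Finite) :
    ∃ R : Set α, R ⊆ s ∧ R.Finite ∧ ∀ x ∈ s, ∃ r ∈ R, f r = f x := by
  obtain ⟨R, h1, h2, h3⟩ := (Set.exists_subset_image_finite_and (p := fun t => f '' s ⊆ t)).1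
    ⟨_, subset_rfl, h, subset_rfl⟩
  exact ⟨R, h1, h2, fun x hx => h3 ⟨x, hx, rfl⟩⟩

section grp

variable {B G : Type*} [Group B] [Group G] [Fintype G]

/-- `A` is an abelian divisible subgroup of finite index in `K` with finite torsion. -/
structure Tame (K A : Subgroup B) : Prop where
  le : A ≤ K
  fin : ∃ T : Set B, T.Finite ∧ ∀ k ∈ K, ∃ t ∈ T, t⁻¹ * k ∈ A
  comm : ∀ a ∈ A, ∀ b ∈ A, a * b = b * a
  div : ∀ n : ℕ, 0 < n → ∀ a ∈ A, ∃ b ∈ A, b ^ n = a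
  tors : ∀ n : ℕ, 0 < n → {a ∈ A | a ^ n = 1}.Finite

variable {K A : Subgroup B}

lemma Tame.normal (h : Tame K A) [hK : K.Normal] : A.Normal := by
  obtain ⟨T, hT, hT'⟩ := h.fin
  have h1 : ∀ k ∈ K, k ^ (hT.toFinset.card).factorial ∈ A := by
    intro k hk
    choose t ht ht' using fun i : ℕ => hT' (k ^ i) (pow_mem hk i)
    obtain ⟨i, hi, j, hj, hij, he⟩ := Finset.exists_ne_map_eq_of_card_lt_of_maps_to
      (s := Finset.range (hT.toFinset.card + 1)) (t := hT.toFinset) (by simp) (f := t)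
      fun i _ => hT.mem_toFinset.2 (ht i)
    have key : ∀ i j, i < j → j < hT.toFinset.card + 1 → t i = t j →
        k ^ (hT.toFinset.card).factorial ∈ A := by
      intro i j hij hj he
      have h2 := mul_mem (inv_mem (ht' i)) (ht' j)
      obtain ⟨d, rfl⟩ := Nat.exists_eq_add_of_lt hij
      have h3 : k ^ (d + 1) ∈ A := by
        convert h2 using 1
        rw [he]; group
      obtain ⟨m, hm⟩ := Nat.dvd_factorial (Nat.succ_pos d) (by omega : d + 1 ≤ hT.toFinset.card)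
      rw [hm, pow_mul]
      exact pow_mem h3 m
    rcases lt_or_gt_of_ne hij with h2 | h2
    · exact key i j h2 (Finset.mem_range.1 hj) he
    · exact key j i h2 (Finset.mem_range.1 hi) he.symm
  refine ⟨fun a ha b => ?_⟩
  obtain ⟨c, hc, rfl⟩ := h.div _ (Nat.factorial_pos hT.toFinset.card) a ha
  rw [← conj_pow]
  exact h1 _ (hK.conj_mem c (h.le hc) b)

lemma Tame.cocycle (h : Tame K A) [K.Normal] (φ ψ : G →* B) (hφ : ∀ g, φ g * (ψ g)⁻¹ ∈ A) :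
    ∃ b ∈ A, ∀ g, ∃ a ∈ A, a ^ Fintype.card G = 1 ∧ b⁻¹ * φ g * b = a * ψ g := by
  haveI := h.normal
  letI : CommGroup A := { (inferInstance : Group A) with
    mul_comm := fun a b => Subtype.ext (h.comm a a.2 b b.2) }
  let c : G → A := fun g => ⟨_, hφ g⟩
  let α : G → A ≃* A := fun g => MulAut.conjNormal (ψ g)
  have hc : ∀ g k, c (g * k) = c g * α g (c k) := fun g k => Subtype.ext (by
    simp only [c, α, map_mul, Subgroup.coe_mul, MulAut.conjNormal_apply]; group)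
  obtain ⟨b, hb, hb'⟩ := h.div _ (Fintype.card_pos (α := G)) (∏ k, c k : A) (∏ k, c k).2
  have hb2 : (⟨b, hb⟩ : A) ^ Fintype.card G = ∏ k, c k := Subtype.ext hb'
  refine ⟨b, hb, fun g => ?_⟩
  let a : A := (⟨b, hb⟩ : A)⁻¹ * c g * α g ⟨b, hb⟩
  refine ⟨a, a.2, ?_, ?_⟩
  · have h1 : ∏ k, c k = c g ^ Fintype.card G * α g (∏ k, c k) := by
      conv_lhs => rw [← Equiv.prod_comp (Equiv.mulLeft g)]
      simp only [Equiv.coe_mulLeft, hc, Finset.prod_mul_distrib, Finset.prod_const,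
        Finset.card_univ, map_prod]
    have h2 : a ^ Fintype.card G = 1 := by
      simp only [a]
      rw [mul_pow, mul_pow, inv_pow, ← map_pow, hb2, mul_assoc, ← h1, inv_mul_cancel]
    exact congrArg Subtype.val h2
  · simp only [a, c, α, Subgroup.coe_mul, MulAut.conjNormal_apply, Subgroup.coe_inv]
    group

theorem Tame.finite_classes {H : Type*} [Group H] (ρ : B →* H) (h : Tame ρ.ker A) (ι : G →* B)
    {F : Set H} (hF : F.Finite) : ∃ R : Set B, R.Finite ∧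
      ∀ γ : B, (∀ g, ρ (γ⁻¹ * ι g * γ) ∈ F) →
        ∃ r ∈ R, ∃ z : B, (∀ g, z * ι g = ι g * z) ∧ ρ γ = ρ z * ρ r := by
  classical
  haveI := h.normal
  obtain ⟨T, hT, hT'⟩ := h.fin
  let Z := {γ : B | ∀ g, ρ (γ⁻¹ * ι g * γ) ∈ F}
  let φ : B → G →* B := fun γ => (MulAut.conj γ⁻¹).toMonoidHom.comp ι
  have hφ : ∀ γ g, φ γ g = γ⁻¹ * ι g * γ := fun γ g => by simp [φ]
  have h1 : ((fun γ g => (QuotientGroup.mk (φ γ g) : B ⧸ A)) '' Z).Finite := by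
    let s : H → B := Function.invFun ρ
    refine (Set.Finite.pi' (t := fun _ : G =>
      image2 (fun f t => (QuotientGroup.mk (s f * t) : B ⧸ A)) F T)
      fun _ => hF.image2 _ hT).subset ?_
    rintro _ ⟨γ, hγ, rfl⟩ g
    have h2 : ρ (s (ρ (φ γ g))) = ρ (φ γ g) := Function.invFun_eq ⟨_, rfl⟩
    obtain ⟨t, ht, ht'⟩ := hT' ((s (ρ (φ γ g)))⁻¹ * φ γ g) (by simp [MonoidHom.mem_ker, h2])
    refine ⟨ρ (φ γ g), by rw [hφ]; exact hγ g, t, ht, QuotientGroup.eq.2 ?_⟩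
    convert ht' using 1
    group
  obtain ⟨R₁, -, hR₁, hR₁'⟩ := exists_reps h1
  have hn := h.tors _ (Fintype.card_pos (α := G))
  let Z' := {γ : B | ∃ r ∈ R₁, ∀ g, ∃ a ∈ A, a ^ Fintype.card G = 1 ∧ φ γ g = a * φ r g}
  have h2 : ((fun γ g => φ γ g) '' Z').Finite := by
    refine (hR₁.biUnion fun r _ => Set.Finite.pi' (t := fun g : G =>
      (fun a => a * φ r g) '' {a ∈ A | a ^ Fintype.card G = 1}) fun _ => hn.image _).subset ?_
    rintro _ ⟨γ, ⟨r, hr, hγ⟩, rfl⟩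
    refine mem_biUnion hr fun g => ?_
    obtain ⟨a, ha, ha', he⟩ := hγ g
    exact ⟨a, ⟨ha, ha'⟩, he.symm⟩
  obtain ⟨R, -, hR, hR'⟩ := exists_reps h2
  refine ⟨R, hR, fun γ hγ => ?_⟩
  obtain ⟨r₁, hr₁, he₁⟩ := hR₁' γ hγ
  obtain ⟨b, hb, hb'⟩ := h.cocycle (φ γ) (φ r₁) fun g => by
    have := QuotientGroup.eq.1 (congrFun he₁ g)
    exact (Subgroup.Normal.mem_comm_iff inferInstance).1 this
  obtain ⟨r, hr, he⟩ := hR' (γ * b) ⟨r₁, hr₁, fun g => by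
    obtain ⟨a, ha, ha', h3⟩ := hb' g
    refine ⟨a, ha, ha', ?_⟩
    rw [← h3, hφ, hφ]; group⟩
  refine ⟨r, hr, γ * b * r⁻¹, fun g => ?_, ?_⟩
  · have h3 : φ r g = φ (γ * b) g := congrFun he g
    rw [hφ, hφ] at h3
    calc γ * b * r⁻¹ * ι g = γ * b * (r⁻¹ * ι g * r) * r⁻¹ := by group
      _ = _ := by rw [h3]; group
  · have : ρ b = 1 := h.le hb
    simp [this]

end grp

variable {V : Type*} [AddCommGroup V] [Module ℝ V] [TopologicalSpace V] [IsTopologicalAddGroup V]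
  [ContinuousSMul ℝ V] [T2Space V] [FiniteDimensional ℝ V] [LocallyConvexSpace ℝ V]
  {W : Type*} [AddCommGroup W] [Module ℝ W] [TopologicalSpace W] [IsTopologicalAddGroup W]
  [ContinuousSMul ℝ W] [T2Space W] [FiniteDimensional ℝ W] [LocallyConvexSpace ℝ W]

/-- Descent of polyhedral type to the invariants of a finite group. -/
theorem descent {B G : Type*} [Group B] [Group G] [Fintype G] (S : Setup V) (S' : Setup W)
    (ρ : B →* V ≃ₗ[ℝ] V) (hΓ : S.Γ = ρ.range) {A : Subgroup B} (hA : Tame ρ.ker A) (ι : G →* B)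
    (E : Submodule ℝ≥0 V) (E' : Submodule ℝ≥0 W) (hE : E ≤ S.C) (hE' : E' ≤ S'.C)
    (hEi : interior (S.C : Set V) ⊆ E) (hne : (interior (S.C : Set V)).Nonempty)
    (hE'Γ : ∀ γ ∈ S'.Γ, ∀ x ∈ E', γ x ∈ E')
    {Q : Set V} (hQ : Q.Finite) (hΛ : Q ⊆ S.Λ)
    (hcov : ∀ x, x ∈ E ↔ ∃ b, ∃ y ∈ span ℝ≥0 Q, ρ b y = x)
    (p : W →ₗ[ℝ] V) (r : V →ₗ[ℝ] W) (hpr : ∀ x, p (r x) = ∑ g, ρ (ι g) x)
    (hrp : ∀ y, r (p y) = (Fintype.card G : ℝ) • y) (hgp : ∀ g y, ρ (ι g) (p y) = p y)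
    (hrΛ : ∀ x ∈ S.Λ, r x ∈ S'.Λ) (hrE : ∀ x ∈ E, r x ∈ E') (hpE : ∀ y ∈ E', p y ∈ E)
    (hrC : ∀ x ∈ S.C, r x ∈ S'.C) (hpC : ∀ y ∈ S'.C, p y ∈ S.C)
    (hz : ∀ z : B, (∀ g, z * ι g = ι g * z) → ∃ L ∈ S'.Γ, ∀ y, p (L y) = ρ z (p y)) :
    ∃ P : Set W, P.Finite ∧ P ⊆ S'.Λ ∧ (∀ x, x ∈ E' ↔ ∃ γ ∈ S'.Γ, ∃ y ∈ span ℝ≥0 P, γ y = x) ∧
      ∀ γ ∈ S'.Γ, γ ≠ 1 →
        interior (span ℝ≥0 P : Set W) ∩ γ '' interior (span ℝ≥0 P : Set W) = ∅ := by
  classical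
  have hn : (0 : ℝ) < Fintype.card G := by exact_mod_cast Fintype.card_pos (α := G)
  have hρ : ∀ b, ρ b ∈ S.Γ := fun b => hΓ ▸ ⟨b, rfl⟩
  have hQE : ∀ b, ∀ v ∈ Q, ρ b v ∈ E := fun b v hv => (hcov _).2 ⟨b, v, subset_span hv, rfl⟩
  have hQC : Q ⊆ S.C := fun v hv => hE (by simpa using hQE 1 v hv)
  have hinj : Function.Injective p := fun x y h => by
    have := congrArg r h
    rw [hrp, hrp] at this
    exact smul_right_injective _ hn.ne' this
  have hav : ∀ y b, ∀ x ∈ span ℝ≥0 Q, ρ b x = p y → y ∈ span ℝ≥0 ((fun v => r (ρ b v)) '' Q) := by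
    intro y b x hx h
    have h1 := map_mem_span (r ∘ₗ (ρ b).toLinearMap) (E := span ℝ≥0 ((fun v => r (ρ b v)) '' Q))
      (fun v hv => subset_span ⟨v, hv, rfl⟩) hx
    have h2 := smul_mem' (inv_pos.2 hn).le h1
    simpa [h, hrp, smul_smul, hn.ne'] using h2
  obtain ⟨x₀, hx₀⟩ := hne
  have hint : ∀ y ∈ interior (S'.C : Set W), p y ∈ interior (S.C : Set V) := by
    intro y hy
    obtain ⟨ε, hε, h⟩ := int_sub hy (r x₀)
    have h1 : p (r x₀) ∈ interior (S.C : Set V) := by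
      rw [hpr, ← Finset.sum_erase_add _ _ (Finset.mem_univ 1)]
      exact add_mem_int (sum_mem fun g _ => S.ΓC _ (hρ _) _ (interior_subset hx₀))
        (Setup.map_int (hρ _) hx₀)
    have := add_mem_int (hpC _ h) (smul_mem_int hε h1)
    simpa using this
  obtain ⟨R, hR, hR'⟩ := hA.finite_classes ρ ι (Setup.siegel hQ hΛ hQC)
  refine Setup.fund E' hE' hE'Γ (Q := ⋃ b ∈ R, (fun v => r (ρ b v)) '' Q)
    (hR.biUnion fun _ _ => hQ.image _) ?_ ?_ ?_ ?_ ?_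
  · refine iUnion₂_subset fun b _ => ?_
    rintro _ ⟨v, hv, rfl⟩
    exact hrΛ _ (S.ΓΛ _ (hρ b) v (hΛ hv))
  · refine iUnion₂_subset fun b _ => ?_
    rintro _ ⟨v, hv, rfl⟩
    exact hrE _ (hQE b v hv)
  · have hsurj : Function.Surjective r := fun y =>
      ⟨(Fintype.card G : ℝ)⁻¹ • p y, by simp [hrp, smul_smul, hn.ne']⟩
    have h1 : IsOpenMap r := LinearMap.isOpenMap_of_finiteDimensional r hsurj
    refine ⟨r x₀, interior_maximal ?_ (h1 _ isOpen_interior) ⟨x₀, hx₀, rfl⟩⟩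
    rintro _ ⟨x, hx, rfl⟩
    exact hrC x (interior_subset hx)
  · intro y hy
    obtain ⟨b, x, hx, hbx⟩ := (hcov _).1 (hEi (hint y hy))
    have hx' : x ∈ interior (S.C : Set V) := by
      have := Setup.map_int (hρ b⁻¹) (hint y hy)
      rw [← hbx] at this
      simpa using this
    obtain ⟨b₀, hb₀, z, hz1, hz2⟩ := hR' b fun g => ⟨hρ _, x, hx, hx', by
      have : ρ (b⁻¹ * ι g * b) x = x := by
        simp only [map_mul, LinearEquiv.mul_apply, hbx, hgp]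
        rw [← hbx]; simp
      rwa [this]⟩
    obtain ⟨L, hL, hL'⟩ := hz z hz1
    refine ⟨L, hL, L⁻¹ y, span_mono (subset_biUnion_of_mem (u := fun b =>
      (fun v => r (ρ b v)) '' Q) hb₀) (hav _ b₀ x hx ?_), by simp⟩
    apply (ρ z).injective
    rw [← hL', ← LinearEquiv.mul_apply, ← hz2, hbx]
    simp
  · intro y hy
    obtain ⟨b, x, hx, hbx⟩ := (hcov _).1 (hpE y hy)
    refine ⟨_, hQ.image _, ?_, ?_, hav y b x hx hbx⟩
    · rintro _ ⟨v, hv, rfl⟩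
      exact hrΛ _ (S.ΓΛ _ (hρ b) v (hΛ hv))
    · rintro _ ⟨v, hv, rfl⟩
      exact hE' (hrE _ (hQE b v hv))

end Pool.Agent.Lib.MP_e39d36_ag.CG
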