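import Pool.Agent.Lib.MP_e39d36_ag.Sal1
import Pool.Agent.Lib.MP_e39d36_ag.CG4

open Set WithZero Filter Pool.Agent.Lib.MP_cc3443_ag
open scoped NNReal

set_option linter.unusedSectionVars false
set_option linter.style.haveILetI false
set_option linter.unusedVariables false

noncomputable section

namespace Pool.Agent.Lib.MP_e39d36_ag

section top

variable {V : Type*} [AddCommGroup V] [Module ℝ V] [TopologicalSpace V] [IsTopologicalAddGroup V]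
  [ContinuousSMul ℝ V] [T2Space V] [FiniteDimensional ℝ V]

lemma interior_nonempty {C : Submodule ℝ≥0 V} (h : Submodule.span ℝ (C : Set V) = ⊤) :
    (interior (C : Set V)).Nonempty := by
  obtain ⟨s, h1, h2, h3⟩ := exists_linearIndependent ℝ (C : Set V)
  let b := Module.Basis.mk h3 (by rw [Subtype.range_coe, h2, h])
  letI := FiniteDimensional.fintypeBasisIndex b
  refine ⟨b.equivFunL.symm 1, mem_interior.2 ⟨b.equivFunL ⁻¹' (univ.pi fun _ => Ioi 0),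
    fun x hx => ?_, (isOpen_set_pi finite_univ fun _ _ => isOpen_Ioi).preimage
      b.equivFunL.continuous, by simp⟩⟩
  rw [← b.sum_repr x]
  exact sum_mem fun i _ => CG.smul_mem' (le_of_lt (hx i trivial)) (h1 (by simp [b]))

lemma exists_countable_sub (s : Set V) : ∃ t, t ⊆ s ∧ t.Countable ∧ s ⊆ closure t := by
  haveI := (toEuclidean (E := V)).toHomeomorph.secondCountableTopology
  haveI := (toEuclidean (E := V)).toHomeomorph.isInducing.pseudoMetrizableSpace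
  exact (TopologicalSpace.IsSeparable.of_separableSpace s).exists_countable_dense_subset

lemma nonneg_of_closure (φ : V →ₗ[ℝ] ℝ) {s : Set V} (h : ∀ v ∈ s, 0 ≤ φ v) {x : V}
    (hx : x ∈ closure s) : 0 ≤ φ x :=
  closure_minimal h (isClosed_le continuous_const φ.continuous_of_finiteDimensional) hx

end top

variable {K L F : Type} [Field K] [Algebra ℂ K] [Field L] [Algebra ℂ L] [Field F] [Algebra ℂ F]

namespace Var

/-- Curves and intersection numbers. -/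
structure Curves (X : Var K) where
  cv : X.Pt → Prop
  int : (X.PD →₀ ℤ) → X.Pt → ℤ
  cv_iff : ∀ c, cv c ↔ IsCurve c
  int_eq : ∀ c, cv c → ∃ (F : Type) (_ : Field F) (_ : Algebra ℂ F) (_ : IsFF F) (γ : CMap X F),
    γ.c = c ∧ γ.Surj ∧ ∀ D, Cart D → int D c = γ.deg D

/-- Cartier divisors. -/
abbrev CD (X : Var K) : Type := {D : X.PD →₀ ℤ // Cart D}

variable {X : Var K} {Y : Var L}

lemma Mov.exists_eff {D : X.PD →₀ ℤ} (h : Mov D) : ∃ f, f ≠ 0 ∧ 0 ≤ D + X.div f := by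
  cases isEmpty_or_nonempty X.PD with
  | inl _ => exact ⟨1, one_ne_zero, fun E => isEmptyElim E⟩
  | inr h' => exact (h h'.some).imp fun f hf => ⟨hf.1, hf.2.1⟩

namespace Curves

variable (Γ : Curves X) (Γ' : Curves Y)

/-- Numerical classes. -/
def N1 : Submodule ℝ ({c // Γ.cv c} → ℝ) :=
  Submodule.span ℝ (Set.range fun (D : X.CD) c => (Γ.int D.1 c.1 : ℝ))

/-- The class of a divisor. -/
def cls (D : X.CD) : Γ.N1 := ⟨_, Submodule.subset_span ⟨D, rfl⟩⟩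

/-- The cone spanned by classes. -/
def cone (S : Set X.CD) : Submodule ℝ≥0 Γ.N1 := Submodule.span ℝ≥0 (Γ.cls '' S)

/-- Pull-back maps. -/
def IsPull (φ : RingAut K) (T : Γ.N1 ≃ₗ[ℝ] Γ.N1) : Prop :=
  (∀ a : ℂ, φ (algebraMap ℂ K a) = algebraMap ℂ K a) ∧
  ∃ (e : X.PD ≃ X.PD) (ε : X.CD ≃ X.CD), (∀ f E, X.ord (φ f) (e E).1 = X.ord f E.1) ∧
    (∀ D E, (ε D).1 (e E) = D.1 E) ∧ ∀ D, T (Γ.cls D) = Γ.cls (ε D)

instance : LocallyConvexSpace ℝ Γ.N1 :=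
  Topology.IsInducing.locallyConvexSpace (f := Γ.N1.subtype) Topology.IsInducing.subtypeVal

lemma span_cls : Submodule.span ℝ (range Γ.cls) = ⊤ := by
  apply Submodule.map_injective_of_injective Γ.N1.injective_subtype
  rw [Submodule.map_span, Submodule.map_top, Submodule.range_subtype, ← range_comp]
  rfl

variable {Γ} in
lemma lin_ext {W : Type*} [AddCommGroup W] [Module ℝ W] {f g : Γ.N1 →ₗ[ℝ] W}
    (h : ∀ D, f (Γ.cls D) = g (Γ.cls D)) : f = g :=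
  LinearMap.ext_on_range Γ.span_cls h

lemma cls_add (D D' : X.CD) : Γ.cls ⟨D.1 + D'.1, D.2.add D'.2⟩ = Γ.cls D + Γ.cls D' := by
  ext c
  obtain ⟨F, _, _, _, γ, -, -, h⟩ := Γ.int_eq c.1 c.2
  simp only [cls, Submodule.coe_add, Pi.add_apply]
  rw [h _ (D.2.add D'.2), h _ D.2, h _ D'.2, CMap.deg_add D.2 D'.2, Int.cast_add]

lemma cls_div {f : K} (hf : f ≠ 0) : Γ.cls ⟨X.div f, cart_div hf⟩ = 0 := by
  ext c
  obtain ⟨F, _, _, _, γ, -, -, h⟩ := Γ.int_eq c.1 c.2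
  simp only [cls, Submodule.coe_zero, Pi.zero_apply]
  rw [h _ (cart_div hf), CMap.deg_div hf, Int.cast_zero]

lemma cls_zero : Γ.cls ⟨0, cart_zero⟩ = 0 := by
  have := Γ.cls_add ⟨0, cart_zero⟩ ⟨0, cart_zero⟩
  simp only [add_zero] at this
  exact left_eq_add.1 this

lemma cls_sum {ι : Type*} (s : Finset ι) (D : ι → X.CD) :
    Γ.cls ⟨∑ i ∈ s, (D i).1, Cart.sum fun i _ => (D i).2⟩ = ∑ i ∈ s, Γ.cls (D i) := by
  classical
  induction s using Finset.induction_on with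
  | empty => simpa using Γ.cls_zero
  | insert i s hi ih => simp only [Finset.sum_insert hi, ← ih, ← cls_add]

lemma cls_nsmul (D : X.CD) (n : ℕ) : Γ.cls ⟨n • D.1, D.2.nsmul n⟩ = (n : ℝ) • Γ.cls D := by
  simpa [Nat.cast_smul_eq_nsmul] using Γ.cls_sum (Finset.range n) fun _ => D

/-- The lattice of classes. -/
def Λ : AddSubgroup Γ.N1 where
  carrier := range Γ.cls
  zero_mem' := ⟨_, Γ.cls_zero⟩
  add_mem' := by rintro _ _ ⟨D, rfl⟩ ⟨D', rfl⟩; exact ⟨_, Γ.cls_add D D'⟩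
  neg_mem' := by
    rintro _ ⟨D, rfl⟩
    refine ⟨⟨-D.1, D.2.neg⟩, eq_neg_of_add_eq_zero_right ?_⟩
    rw [← cls_add, ← cls_zero]
    simp

/-- Evaluation at a curve. -/
def evc (c : {c // Γ.cv c}) : Γ.N1 →ₗ[ℝ] ℝ := LinearMap.proj c ∘ₗ Γ.N1.subtype

lemma exists_fun [IsFF F] (γ : CMap X F) : ∃ φ : Γ.N1 →ₗ[ℝ] ℝ, (∀ D, φ (Γ.cls D) = γ.deg D.1) ∧
    ∀ c : {c // Γ.cv c}, γ.c = c → ∃ n : ℝ, 0 < n ∧ φ = n • Γ.evc c := by
  by_cases hc : Γ.cv γ.c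
  · obtain ⟨F', _, _, _, γ₀, h1, h2, h3⟩ := Γ.int_eq _ hc
    obtain ⟨n, hn, h4⟩ := CMap.exists_deg_factor γ γ₀ h1.symm h2
    refine ⟨(n : ℝ) • Γ.evc ⟨_, hc⟩, fun D => ?_, ?_⟩
    · rw [h4 _ D.2, ← h3 _ D.2]
      simp [evc, cls]
    · rintro ⟨c, hc'⟩ rfl
      exact ⟨n, by exact_mod_cast hn, rfl⟩
  · exact ⟨0, fun D => by simp [CMap.deg_eq_zero (mt (Γ.cv_iff _).2 hc) D.2],
      fun c h => absurd (h ▸ c.2) hc⟩

lemma exists_lin (f : X.CD → Y.CD)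
    (h : ∀ c : {c // Γ'.cv c}, ∃ φ : Γ.N1 →ₗ[ℝ] ℝ, ∀ D, φ (Γ.cls D) = Γ'.int (f D).1 c) :
    ∃ p : Γ.N1 →ₗ[ℝ] Γ'.N1, ∀ D, p (Γ.cls D) = Γ'.cls (f D) := by
  choose φ hφ using h
  have h1 : ∀ D, LinearMap.pi φ (Γ.cls D) = Γ'.cls (f D) := fun D => funext fun c => hφ c D
  refine ⟨(LinearMap.pi φ).codRestrict _ fun x => ?_, fun D => Subtype.ext (h1 D)⟩
  refine (Submodule.span_le (p := Γ'.N1.comap (LinearMap.pi φ))).2 ?_
    (Γ.span_cls ▸ Submodule.mem_top (x := x))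
  rintro _ ⟨D, rfl⟩
  exact Submodule.mem_comap.2 (h1 D ▸ (Γ'.cls (f D)).2)

lemma exists_lin_mor (m : Mor Y X) (f : Y.CD → X.CD)
    (h : ∀ D x g, LocEq D.1 (m.p x) g → LocEq (f D).1 x (m.θ g)) :
    ∃ p : Γ'.N1 →ₗ[ℝ] Γ.N1, ∀ D, p (Γ'.cls D) = Γ.cls (f D) :=
  Γ'.exists_lin Γ f fun c => by
    obtain ⟨F, _, _, _, γ, -, -, h1⟩ := Γ.int_eq c.1 c.2
    obtain ⟨φ, h2, -⟩ := Γ'.exists_fun (γ.push m)
    exact ⟨φ, fun D => by rw [h2, h1 _ (f D).2, CMap.deg_push m D.2 (h D)]⟩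

lemma exists_equiv (ε : X.CD ≃ X.CD) {f g : Γ.N1 →ₗ[ℝ] Γ.N1} (hf : ∀ D, f (Γ.cls D) = Γ.cls (ε D))
    (hg : ∀ D, g (Γ.cls D) = Γ.cls (ε.symm D)) :
    ∃ T : Γ.N1 ≃ₗ[ℝ] Γ.N1, ∀ D, T (Γ.cls D) = Γ.cls (ε D) :=
  ⟨LinearEquiv.ofLinearMap f g (lin_ext fun D => by simp [hf, hg]) (lin_ext fun D => by simp [hf, hg]),
    hf⟩

variable {Γ} {φ φ' : RingAut K} {T T' : Γ.N1 ≃ₗ[ℝ] Γ.N1}

lemma IsPull.unique (h : Γ.IsPull φ T) (h' : Γ.IsPull φ T') : T = T' := by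
  obtain ⟨-, e, ε, h1, h2, h3⟩ := h
  obtain ⟨-, e', ε', h4, h5, h6⟩ := h'
  obtain rfl : e = e' := Equiv.ext fun E => pd_ext fun f => by
    obtain ⟨f, rfl⟩ := φ.surjective f
    rw [h1, h4]
  refine LinearEquiv.toLinearMap_injective (lin_ext fun D => (h3 D).trans
    ((congrArg _ (Subtype.ext (Finsupp.ext fun E => ?_))).trans (h6 D).symm))
  obtain ⟨E, rfl⟩ := e.surjective E
  rw [h2, h5]

lemma isPull_one : Γ.IsPull 1 1 :=
  ⟨fun _ => rfl, .refl _, .refl _, fun _ _ => rfl, fun _ _ => rfl, fun _ => rfl⟩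

lemma IsPull.mul (h : Γ.IsPull φ T) (h' : Γ.IsPull φ' T') : Γ.IsPull (φ * φ') (T * T') := by
  obtain ⟨h0, e, ε, h1, h2, h3⟩ := h
  obtain ⟨h0', e', ε', h4, h5, h6⟩ := h'
  exact ⟨fun a => (congrArg φ (h0' a)).trans (h0 a), e'.trans e, ε'.trans ε,
    fun f E => (h1 _ _).trans (h4 f E), fun D E => (h2 _ _).trans (h5 D E),
    fun D => (congrArg T (h6 D)).trans (h3 _)⟩

lemma IsPull.inv (h : Γ.IsPull φ T) : Γ.IsPull φ⁻¹ T⁻¹ := by
  obtain ⟨h0, e, ε, h1, h2, h3⟩ := h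
  refine ⟨fun a => φ.symm_apply_eq.2 (h0 a).symm, e.symm, ε.symm, fun f E => ?_, fun D E => ?_,
    fun D => T.symm_apply_eq.2 (by rw [h3, ε.apply_symm_apply])⟩
  · rw [← h1, e.apply_symm_apply]
    exact congrArg (X.ord · E.1) (φ.apply_symm_apply f)
  · rw [← h2, e.apply_symm_apply, ε.apply_symm_apply]

lemma IsPull.exists_map (h : Γ.IsPull φ T) (D : X.CD) :
    ∃ D', T (Γ.cls D) = Γ.cls D' ∧ (Mov D.1 → Mov D'.1) ∧ (0 ≤ D.1 → 0 ≤ D'.1) := by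
  obtain ⟨-, e, ε, h1, h2, h3⟩ := h
  refine ⟨ε D, h3 D, fun h => e.surjective.forall.2 fun E => ?_,
    fun h => e.surjective.forall.2 fun E => (h E).trans_eq (h2 D E).symm⟩
  obtain ⟨f, h4, h5, h6⟩ := h E
  exact ⟨φ f, (map_ne_zero φ).2 h4, e.surjective.forall.2 fun E => by rw [h1, h2]; exact h5 E,
    by rw [h1, h2, h6]⟩

variable (Γ)

/-- The group of pseudo-automorphisms. -/
def Bir : Subgroup (RingAut K) where
  carrier := {φ | ∃ T, Γ.IsPull φ T}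
  one_mem' := ⟨1, isPull_one⟩
  mul_mem' := fun ⟨_, h⟩ ⟨_, h'⟩ => ⟨_, h.mul h'⟩
  inv_mem' := fun ⟨_, h⟩ => ⟨_, h.inv⟩

/-- The representation on numerical classes. -/
def rho : Γ.Bir →* (Γ.N1 ≃ₗ[ℝ] Γ.N1) :=
  MonoidHom.mk' (fun b => b.2.choose) fun a b =>
    (a * b).2.choose_spec.unique (a.2.choose_spec.mul b.2.choose_spec)

lemma isPull_rho (b : Γ.Bir) : Γ.IsPull b (Γ.rho b) := b.2.choose_spec

lemma mem_range_rho : T ∈ Γ.rho.range ↔ ∃ φ, Γ.IsPull φ T :=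
  ⟨fun ⟨b, hb⟩ => ⟨b, hb ▸ Γ.isPull_rho b⟩,
    fun ⟨φ, h⟩ => ⟨⟨φ, T, h⟩, (Γ.isPull_rho _).unique h⟩⟩

/-- The closed movable cone. -/
def movC : Submodule ℝ≥0 Γ.N1 := (Γ.cone {D | Mov D.1}).topologicalClosure

/-- The effective movable cone. -/
def movE : Submodule ℝ≥0 Γ.N1 := Γ.movC ⊓ Γ.cone {D | 0 ≤ D.1}

lemma cone_mov_le : Γ.cone {D | Mov D.1} ≤ Γ.cone {D | 0 ≤ D.1} := Submodule.span_le.2 (by
  rintro _ ⟨D, hD, rfl⟩
  obtain ⟨f, h1, h2⟩ := Mov.exists_eff hD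
  refine Submodule.subset_span ⟨⟨_, D.2.add (cart_div h1)⟩, h2, ?_⟩
  rw [Γ.cls_add D ⟨_, cart_div h1⟩, Γ.cls_div h1, add_zero])

variable [FiniteDimensional ℝ Γ.N1]

lemma map_mem (p : Γ.N1 →ₗ[ℝ] Γ'.N1)
    (h : ∀ D, ∃ D', p (Γ.cls D) = Γ'.cls D' ∧ (Mov D.1 → Mov D'.1) ∧ (0 ≤ D.1 → 0 ≤ D'.1)) :
    (∀ x ∈ Γ.Λ, p x ∈ Γ'.Λ) ∧ (∀ x ∈ Γ.movC, p x ∈ Γ'.movC) ∧ ∀ x ∈ Γ.movE, p x ∈ Γ'.movE := by
  choose f h1 h2 h3 using h
  have h4 : ∀ x ∈ Γ.movC, p x ∈ Γ'.movC := fun x hx =>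
    map_mem_closure p.continuous_of_finiteDimensional hx fun y hy => CG.map_mem_span p (by
      rintro _ ⟨D, hD, rfl⟩
      exact Submodule.subset_span ⟨_, h2 D hD, (h1 D).symm⟩) hy
  refine ⟨?_, h4, fun x hx => ⟨h4 x hx.1, CG.map_mem_span p ?_ hx.2⟩⟩
  · rintro _ ⟨D, rfl⟩
    exact ⟨_, (h1 D).symm⟩
  · rintro _ ⟨D, hD, rfl⟩
    exact Submodule.subset_span ⟨_, h3 D hD, (h1 D).symm⟩

variable (Q : Prj X)

include Q

theorem salient {x : Γ.N1} (h : x ∈ closure (Γ.cone {D | 0 ≤ D.1} : Set Γ.N1))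
    (h' : -x ∈ closure (Γ.cone {D | 0 ≤ D.1} : Set Γ.N1)) : x = 0 := by
  classical
  have key : ∀ φ : Γ.N1 →ₗ[ℝ] ℝ, (∀ v ∈ Γ.cls '' {D | 0 ≤ D.1}, 0 ≤ φ v) → φ x = 0 := fun φ hφ => by
    have h1 := nonneg_of_closure φ (fun v => CG.nonneg_of_mem_span φ hφ) h
    have h2 := nonneg_of_closure φ (fun v => CG.nonneg_of_mem_span φ hφ) h'
    rw [map_neg] at h2
    linarith
  obtain ⟨t, h1, h2, h3⟩ := exists_countable_sub (Γ.cls '' {D | 0 ≤ D.1})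
  obtain ⟨s, h4, h5, rfl⟩ := SurjOn.exists_subset_injOn_image_eq h1
  replace h5 := countable_of_injective_of_countable_image h5 h2
  ext c
  obtain ⟨F, _, _, _, G, _, γ, h6, ⟨g, h7⟩, h8⟩ := Q.exists_curves ((Γ.cv_iff _).1 c.2)
    (h5.biUnion fun D _ => D.1.support.countable_toSet)
  choose φ h9 h10 using fun g => Γ.exists_fun (γ g)
  have h11 : ∀ g, ∃ n : ℝ, 0 ≤ n ∧ ((γ g).c = c → 0 < n) ∧ φ g x = n * x.1 c := fun g => by
    by_cases hg : (γ g).c = c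
    · obtain ⟨n, hn, h⟩ := h10 g c hg
      exact ⟨n, hn.le, fun _ => hn, by rw [h]; rfl⟩
    · refine ⟨0, le_rfl, fun h => absurd h hg, (key _ fun v hv =>
        nonneg_of_closure _ ?_ (h3 hv)).trans (zero_mul _).symm⟩
      rintro _ ⟨D, hD, rfl⟩
      rw [h9]
      exact_mod_cast CMap.deg_nonneg D.2 (h4 hD) fun E hE => of_not_not fun h =>
        (h8 g).resolve_left hg E (mem_biUnion hD (Finsupp.mem_support_iff.2 h)) hE
  choose n h12 h13 h14 using h11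
  have h15 := key (∑ g, φ g) (by
    rintro _ ⟨D, hD, rfl⟩
    simp only [LinearMap.sum_apply, h9]
    exact_mod_cast h6 _ D.2 hD)
  simp only [LinearMap.sum_apply, h14, ← Finset.sum_mul] at h15
  exact (mul_eq_zero.1 h15).resolve_left
    (Finset.sum_pos' (fun g _ => h12 g) ⟨g, Finset.mem_univ _, h13 g h7⟩).ne'

lemma span_mov : Submodule.span ℝ (Γ.cls '' {D | Mov D.1}) = ⊤ := by
  rw [eq_top_iff, ← Γ.span_cls, Submodule.span_le]
  rintro _ ⟨D, rfl⟩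
  obtain ⟨j⟩ := X.nei
  obtain ⟨m, hm⟩ := Q.exists_mov D.2 j
  have h1 := Γ.cls_add D ⟨_, (Q.cart_hyp j).nsmul m⟩
  rw [Γ.cls_nsmul ⟨_, Q.cart_hyp j⟩] at h1
  rw [eq_sub_of_add_eq h1.symm]
  exact sub_mem (Submodule.subset_span ⟨_, hm, rfl⟩)
    (Submodule.smul_mem _ _ (Submodule.subset_span ⟨_, Q.mov_hyp j, rfl⟩))

lemma interior_cone : (interior (Γ.cone {D | Mov D.1} : Set Γ.N1)).Nonempty :=
  interior_nonempty (top_le_iff.1 ((Γ.span_mov Q).ge.trans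
    (Submodule.span_mono Submodule.subset_span)))

lemma interior_movC : interior (Γ.movC : Set Γ.N1) ⊆ Γ.movE := fun x hx =>
  ⟨interior_subset hx, Γ.cone_mov_le (interior_subset
    ((CG.convex' _).interior_closure_eq_interior_of_nonempty_interior (Γ.interior_cone Q) ▸ hx))⟩

/-- The lattice, cone and group of a projective model. -/
def setup : CG.Setup Γ.N1 where
  Λ := Γ.Λ
  C := Γ.movC
  Γ := Γ.rho.range
  sepa v hv := by
    obtain ⟨c, hc⟩ := Function.ne_iff.1 (mt Subtype.ext hv)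
    exact ⟨Γ.evc c, by rintro _ ⟨D, rfl⟩; exact ⟨_, rfl⟩, hc⟩
  closed := isClosed_closure
  salient x h h' := Γ.salient Q (closure_mono Γ.cone_mov_le h) (closure_mono Γ.cone_mov_le h')
  span_eq := top_le_iff.1 ((Γ.span_mov Q).ge.trans (Submodule.span_mono fun x hx =>
    ⟨image_subset_range _ _ hx, subset_closure (Submodule.subset_span hx)⟩))
  ΓΛ := by
    rintro _ ⟨b, rfl⟩
    exact (Γ.map_mem Γ (Γ.rho b).toLinearMap (Γ.isPull_rho b).exists_map).1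
  ΓC := by
    rintro _ ⟨b, rfl⟩
    exact (Γ.map_mem Γ (Γ.rho b).toLinearMap (Γ.isPull_rho b).exists_map).2.1

end Curves

end Var

end Pool.Agent.Lib.MP_e39d36_ag
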