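import Mathlib

open Set Submodule Module
open scoped NNReal

noncomputable section

namespace Pool.Agent.Lib.MP_e39d36_ag.CG

section lin
variable {W : Type*} [AddCommGroup W] [Module ℝ W]

lemma exists_nat_avoid {ι : Type*} (T : Set ι) (hT : T.Finite) (a b : ι → W)
    (h : ∀ i ∈ T, a i ≠ 0 ∨ b i ≠ 0) (k₀ : ℕ) :
    ∃ k : ℕ, k₀ ≤ k ∧ ∀ i ∈ T, (k : ℝ) • a i + b i ≠ 0 := by
  have h1 : ∀ i ∈ T, {k : ℕ | (k : ℝ) • a i + b i = 0}.Finite := by
    intro i hi
    refine Set.Subsingleton.finite fun k hk l hl => ?_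
    simp only [mem_ofPred_eq] at hk hl
    have h2 : ((k : ℝ) - l) • a i = 0 := by
      rw [sub_smul, sub_eq_zero, eq_neg_of_add_eq_zero_left hk, eq_neg_of_add_eq_zero_left hl]
    rcases smul_eq_zero.1 h2 with h3 | h3
    · exact_mod_cast sub_eq_zero.1 h3
    · rw [h3, smul_zero, zero_add] at hk
      rcases h i hi with h4 | h4
      · exact absurd h3 h4
      · exact absurd hk h4
  have h2 := (hT.biUnion h1).union (Set.finite_lt_nat k₀)
  obtain ⟨k, hk⟩ := h2.exists_notMem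
  simp only [mem_union, mem_iUnion, mem_ofPred_eq, not_or, not_exists, not_lt] at hk
  exact ⟨k, hk.2, fun i hi => hk.1 i hi⟩

lemma exists_avoid {W' ι : Type*} [AddCommGroup W'] [Module ℝ W'] (L : AddSubgroup W)
    (T : Set ι) (hT : T.Finite) (F : ι → W →ₗ[ℝ] W') (h : ∀ i ∈ T, ∃ w ∈ L, F i w ≠ 0) :
    ∃ w ∈ L, ∀ i ∈ T, F i w ≠ 0 := by
  induction T, hT using Set.Finite.induction_on with
  | empty => exact ⟨0, L.zero_mem, by simp⟩
  | @insert j T _ hT ih =>
    obtain ⟨w, hw, hw'⟩ := ih fun i hi => h i (mem_insert_of_mem _ hi)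
    obtain ⟨u, hu, hu'⟩ := h j (mem_insert _ _)
    obtain ⟨k, -, hk⟩ := exists_nat_avoid (insert j T) (hT.insert j) (fun i => F i w)
      (fun i => F i u) (by
        rintro i (rfl | hi)
        · exact Or.inr hu'
        · exact Or.inl (hw' i hi)) 0
    refine ⟨k • w + u, L.add_mem (L.nsmul_mem hw k) hu, fun i hi => ?_⟩
    have := hk i hi
    rwa [map_add, map_nsmul, ← Nat.cast_smul_eq_nsmul ℝ]

lemma exists_finset_span [FiniteDimensional ℝ W] {s : Set W} (h : span ℝ s = ⊤) :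
    ∃ t : Finset W, ↑t ⊆ s ∧ span ℝ (t : Set W) = ⊤ := by
  obtain ⟨t, ht, ht'⟩ := (fg_span_iff_fg_span_finset_subset (R := ℝ) s).1
    (IsNoetherian.noetherian _)
  exact ⟨t, ht, ht' ▸ h⟩

lemma span_dual_eq_top [FiniteDimensional ℝ W] {s : Set (Dual ℝ W)}
    (h : ∀ v : W, v ≠ 0 → ∃ φ ∈ s, φ v ≠ 0) : span ℝ s = ⊤ := by
  rw [eq_top_iff]
  intro K _
  have := FiniteDimensional.mem_span_of_iInf_ker_le_ker (L := fun φ : s => φ.1) (K := K) (by
    intro v hv
    by_cases h0 : v = 0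
    · simp [h0]
    obtain ⟨φ, hφ, hφ'⟩ := h v h0
    exact absurd ((mem_iInf _).1 hv ⟨φ, hφ⟩) hφ')
  simpa using this

lemma smul_mem' {C : Submodule ℝ≥0 W} {t : ℝ} (ht : 0 ≤ t) {x : W} (hx : x ∈ C) : t • x ∈ C :=
  C.smul_mem (⟨t, ht⟩ : ℝ≥0) hx

lemma convex' (C : Submodule ℝ≥0 W) : Convex ℝ (C : Set W) :=
  fun _ hx _ hy _ _ ha hb _ => C.add_mem (smul_mem' ha hx) (smul_mem' hb hy)

lemma map_mem_span {W' : Type*} [AddCommGroup W'] [Module ℝ W'] (f : W →ₗ[ℝ] W') {s : Set W}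
    {E : Submodule ℝ≥0 W'} (h : ∀ v ∈ s, f v ∈ E) {x : W} (hx : x ∈ span ℝ≥0 s) : f x ∈ E := by
  induction hx using span_induction with
  | mem x hx => exact h x hx
  | zero => simp
  | add x y _ _ hx hy => rw [map_add]; exact E.add_mem hx hy
  | smul a x _ hx => rw [NNReal.smul_def, map_smul]; exact smul_mem' a.2 hx

lemma nonneg_of_mem_span (f : Dual ℝ W) {s : Set W} (h : ∀ v ∈ s, 0 ≤ f v) {x : W}
    (hx : x ∈ span ℝ≥0 s) : 0 ≤ f x := by
  induction hx using span_induction with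
  | mem x hx => exact h x hx
  | zero => simp
  | add x y _ _ hx hy => rw [map_add]; exact add_nonneg hx hy
  | smul a x _ hx => rw [NNReal.smul_def, map_smul]; exact mul_nonneg a.2 hx

/-- Cutting a finitely generated cone by a half space. -/
lemma cut (Λ : AddSubgroup W) (f : Dual ℝ W) (hf : ∀ x ∈ Λ, ∃ n : ℤ, f x = n) (S : Set W)
    (hS : S.Finite) (hΛ : S ⊆ Λ) :
    ∃ S' : Set W, S'.Finite ∧ S' ⊆ Λ ∧ ∀ x, x ∈ span ℝ≥0 S' ↔ x ∈ span ℝ≥0 S ∧ 0 ≤ f x := by
  let P := {v ∈ S | 0 ≤ f v}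
  let N := {v ∈ S | f v < 0}
  have hP : P ⊆ S := sep_subset _ _
  have hN : N ⊆ S := sep_subset _ _
  let B := image2 (fun v w => f v • w - f w • v) P N
  refine ⟨P ∪ B, (hS.subset hP).union ((hS.subset hP).image2 _ (hS.subset hN)), ?_, fun x => ⟨?_, ?_⟩⟩
  · rintro x (hx | ⟨v, hv, w, hw, rfl⟩)
    · exact hΛ hx.1
    · obtain ⟨m, hm⟩ := hf v (hΛ hv.1)
      obtain ⟨n, hn⟩ := hf w (hΛ hw.1)
      simp only [hm, hn, Int.cast_smul_eq_zsmul]
      exact Λ.sub_mem (Λ.zsmul_mem (hΛ hw.1) _) (Λ.zsmul_mem (hΛ hv.1) _)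
  · intro hx
    constructor
    · refine span_le.2 ?_ hx
      rintro x (hx | ⟨v, hv, w, hw, rfl⟩)
      · exact subset_span hx.1
      · simp only [sub_eq_add_neg, ← neg_smul]
        exact add_mem (smul_mem' hv.2 (subset_span hw.1))
          (smul_mem' (neg_nonneg.2 hw.2.le) (subset_span hv.1))
    · refine nonneg_of_mem_span f ?_ hx
      rintro x (hx | ⟨v, hv, w, hw, rfl⟩)
      · exact hx.2
      · simp [mul_comm]
  · rintro ⟨hx, hfx⟩
    have hPN : S = P ∪ N := by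
      ext v
      simp only [P, N, mem_union, mem_ofPred_eq, ← and_or_left, le_or_gt, and_true]
    rw [hPN, span_union, Submodule.mem_sup] at hx
    obtain ⟨a, ha, b, hb, rfl⟩ := hx
    have h1 : f a • b - f b • a ∈ span ℝ≥0 (P ∪ B) := by
      have h2 : ∀ v ∈ P, f v • b - f b • v ∈ span ℝ≥0 (P ∪ B) := fun v hv =>
        map_mem_span (f v • LinearMap.id - f.smulRight v : W →ₗ[ℝ] W) (s := N)
          (E := span ℝ≥0 (P ∪ B))
          (fun w hw => subset_span (Or.inr (mem_image2_of_mem hv hw))) hb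
      exact map_mem_span (f.smulRight b - f b • LinearMap.id : W →ₗ[ℝ] W)
        (E := span ℝ≥0 (P ∪ B)) h2 ha
    have ha' : a ∈ span ℝ≥0 (P ∪ B) := span_mono subset_union_left ha
    have ha0 : 0 ≤ f a := nonneg_of_mem_span f (fun v hv => hv.2) ha
    have hb0 : f b < 0 ∨ b = 0 := by
      clear h1 hfx
      induction hb using span_induction with
      | mem x hx => exact Or.inl hx.2
      | zero => simp
      | add x y _ _ hx hy =>
        rcases hx with hx | rfl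
        · rcases hy with hy | rfl
          · left; rw [map_add]; linarith
          · left; simpa using hx
        · simpa using hy
      | smul c x _ hx =>
        rcases hx with hx | rfl
        · rcases eq_or_lt_of_le c.2 with hc | hc
          · right; rw [NNReal.smul_def]; exact smul_eq_zero.2 (Or.inl hc.symm)
          · left; rw [NNReal.smul_def, map_smul]; exact mul_neg_of_pos_of_neg hc hx
        · simp
    rcases hb0 with hb0 | rfl
    · rw [map_add] at hfx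
      have hpos : 0 < f a := by linarith
      have : a + b = (f a)⁻¹ • (f a • b - f b • a) + ((f a + f b) / f a) • a := by
        rw [smul_sub, smul_smul, smul_smul, inv_mul_cancel₀ hpos.ne', one_smul, sub_add,
          ← sub_smul, show (f a)⁻¹ * f b - (f a + f b) / f a = -1 by field_simp; ring]
        simp [add_comm]
      rw [this]
      exact add_mem (smul_mem' (by positivity) h1) (smul_mem' (by positivity) ha')
    · simpa using ha'

lemma cuts (Λ : AddSubgroup W) {ι : Type*} (T : Set ι) (hT : T.Finite) (f : ι → Dual ℝ W)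
    (hf : ∀ i ∈ T, ∀ x ∈ Λ, ∃ n : ℤ, f i x = n) (S : Set W) (hS : S.Finite) (hΛ : S ⊆ Λ) :
    ∃ S' : Set W, S'.Finite ∧ S' ⊆ Λ ∧
      ∀ x, x ∈ span ℝ≥0 S' ↔ x ∈ span ℝ≥0 S ∧ ∀ i ∈ T, 0 ≤ f i x := by
  induction T, hT using Set.Finite.induction_on with
  | empty => exact ⟨S, hS, hΛ, by simp⟩
  | @insert j T _ hT ih =>
    obtain ⟨S₁, h1, h2, h3⟩ := ih fun i hi => hf i (mem_insert_of_mem _ hi)
    obtain ⟨S₂, h4, h5, h6⟩ := cut Λ (f j) (hf j (mem_insert _ _)) S₁ h1 h2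
    refine ⟨S₂, h4, h5, fun x => ?_⟩
    rw [h6, h3, forall_mem_insert]
    tauto

lemma exists_coeff {S : Set W} (hS : S.Finite) {x : W} (hx : x ∈ span ℝ≥0 S) :
    ∃ t : W → ℝ, (∀ v, 0 ≤ t v) ∧ x = ∑ v ∈ hS.toFinset, t v • v := by
  rw [← hS.coe_toFinset, Submodule.mem_span_finset] at hx
  obtain ⟨t, -, rfl⟩ := hx
  exact ⟨fun v => t v, fun v => (t v).2, rfl⟩

end lin

end Pool.Agent.Lib.MP_e39d36_ag.CG
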