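import Pool.Agent.Lib.MP_e39d36_ag.CG1

open Set Submodule Module Filter Topology
open scoped NNReal

set_option linter.unusedSectionVars false

noncomputable section

namespace Pool.Agent.Lib.MP_e39d36_ag.CG

variable {V : Type*} [AddCommGroup V] [Module ℝ V] [TopologicalSpace V] [IsTopologicalAddGroup V]
  [ContinuousSMul ℝ V] [T2Space V] [FiniteDimensional ℝ V]

/-- A lattice, a closed salient cone and a group preserving both. -/
structure Setup (V : Type*) [AddCommGroup V] [Module ℝ V] [TopologicalSpace V] where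
  Λ : AddSubgroup V
  C : Submodule ℝ≥0 V
  Γ : Subgroup (V ≃ₗ[ℝ] V)
  sepa : ∀ v : V, v ≠ 0 → ∃ φ : Dual ℝ V, (∀ x ∈ Λ, ∃ n : ℤ, φ x = n) ∧ φ v ≠ 0
  closed : IsClosed (C : Set V)
  salient : ∀ x ∈ C, -x ∈ C → x = 0
  span_eq : span ℝ ((Λ : Set V) ∩ C) = ⊤
  ΓΛ : ∀ γ ∈ Γ, ∀ x ∈ Λ, γ x ∈ Λ
  ΓC : ∀ γ ∈ Γ, ∀ x ∈ C, γ x ∈ C

lemma int_sub {C : Set V} {x : V} (hx : x ∈ interior C) (b : V) :
    ∃ ε : ℝ, 0 < ε ∧ x - ε • b ∈ C := by
  have h1 : Tendsto (fun t : ℝ => x - t • b) (𝓝[>] 0) (𝓝 x) := by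
    have : Continuous fun t : ℝ => x - t • b := by fun_prop
    have h := this.tendsto 0
    simp only [zero_smul, sub_zero] at h
    exact h.mono_left nhdsWithin_le_nhds
  obtain ⟨ε, h2, h3⟩ := ((h1.eventually (mem_interior_iff_mem_nhds.1 hx)).and
    self_mem_nhdsWithin).exists
  exact ⟨ε, h3, h2⟩

lemma add_mem_int {C : Submodule ℝ≥0 V} {x y : V} (hx : x ∈ C) (hy : y ∈ interior (C : Set V)) :
    x + y ∈ interior (C : Set V) := by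
  have h1 : IsOpen ((fun z => x + z) '' interior (C : Set V)) :=
    (Homeomorph.addLeft x).isOpenMap _ isOpen_interior
  refine interior_maximal ?_ h1 ⟨y, hy, rfl⟩
  rintro _ ⟨z, hz, rfl⟩
  exact C.add_mem hx (interior_subset hz)

lemma map_mem_int (γ : V ≃ₗ[ℝ] V) {C D : Set V} (h : ∀ x ∈ C, γ x ∈ D) {y : V}
    (hy : y ∈ interior C) : γ y ∈ interior D := by
  have h1 : IsOpen (γ '' interior C) :=
    γ.toContinuousLinearEquiv.toHomeomorph.isOpenMap _ isOpen_interior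
  refine interior_maximal ?_ h1 ⟨y, hy, rfl⟩
  rintro _ ⟨z, hz, rfl⟩
  exact h z (interior_subset hz)

lemma smul_mem_int {C : Submodule ℝ≥0 V} {t : ℝ} (ht : 0 < t) {y : V}
    (hy : y ∈ interior (C : Set V)) : t • y ∈ interior (C : Set V) :=
  map_mem_int (LinearEquiv.smulOfNeZero ℝ V t ht.ne') (fun _ hx => smul_mem' ht.le hx) hy

namespace Setup

variable (S : Setup V)

/-- Integral functionals. -/
def dualΛ : AddSubgroup (Dual ℝ V) where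
  carrier := {φ | ∀ x ∈ S.Λ, ∃ n : ℤ, φ x = n}
  zero_mem' := fun _ _ => ⟨0, by simp⟩
  add_mem' := fun {a b} ha hb x hx => by
    obtain ⟨m, hm⟩ := ha x hx
    obtain ⟨n, hn⟩ := hb x hx
    exact ⟨m + n, by simp [hm, hn]⟩
  neg_mem' := fun {a} ha x hx => by
    obtain ⟨m, hm⟩ := ha x hx
    exact ⟨-m, by simp [hm]⟩

/-- Interior points of the dual cone. -/
def Pos (ξ : Dual ℝ V) : Prop :=
  (∀ x ∈ S.C, 0 ≤ ξ x) ∧ ∀ φ : Dual ℝ V, ∃ M : ℝ, 0 ≤ M ∧ ∀ x ∈ S.C, |φ x| ≤ M * ξ x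

variable {S} in
lemma Pos.mono {ξ η : Dual ℝ V} (h : S.Pos ξ) (h' : ∀ x ∈ S.C, ξ x ≤ η x) : S.Pos η :=
  ⟨fun x hx => (h.1 x hx).trans (h' x hx), fun φ => by
    obtain ⟨M, hM, hM'⟩ := h.2 φ
    exact ⟨M, hM, fun x hx => (hM' x hx).trans (mul_le_mul_of_nonneg_left (h' x hx) hM)⟩⟩

lemma exists_pos [LocallyConvexSpace ℝ V] : ∃ ξ, S.Pos ξ := by
  have key : ∀ v, v ∉ S.C → ∃ φ : Dual ℝ V, (∀ x ∈ S.C, 0 ≤ φ x) ∧ φ v ≠ 0 := by
    intro v hv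
    obtain ⟨f, u, h1, h2⟩ := geometric_hahn_banach_point_closed (convex' S.C) S.closed hv
    have hu : u < 0 := by simpa using h2 0 S.C.zero_mem
    refine ⟨f.toLinearMap, fun x hx => ?_, (h1.trans hu).ne⟩
    by_contra hneg
    have hneg : f x < 0 := not_le.1 hneg
    have := h2 _ (smul_mem' (t := u / f x) (div_nonneg_of_nonpos hu.le hneg.le) hx)
    rw [map_smul, smul_eq_mul, div_mul_cancel₀ _ hneg.ne] at this
    exact lt_irrefl _ this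
  obtain ⟨t, ht, ht'⟩ := exists_finset_span (span_dual_eq_top
    (s := {φ : Dual ℝ V | ∀ x ∈ S.C, 0 ≤ φ x}) fun v hv => by
      by_cases h : v ∈ S.C
      · obtain ⟨φ, h1, h2⟩ := key (-v) fun h' => hv (S.salient v h h')
        exact ⟨φ, h1, by simpa using h2⟩
      · exact key v h)
  have h0 : ∀ x ∈ S.C, 0 ≤ (∑ φ ∈ t, φ) x := fun x hx => by
    rw [LinearMap.sum_apply]; exact Finset.sum_nonneg fun φ hφ => ht hφ x hx
  refine ⟨∑ φ ∈ t, φ, h0, fun φ => ?_⟩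
  have hφ : φ ∈ span ℝ (t : Set (Dual ℝ V)) := ht' ▸ mem_top
  induction hφ using span_induction with
  | mem φ hφ =>
    refine ⟨1, zero_le_one, fun x hx => ?_⟩
    rw [abs_of_nonneg (ht hφ x hx), one_mul, LinearMap.sum_apply]
    exact Finset.single_le_sum (f := fun φ : Dual ℝ V => φ x) (fun ψ hψ => ht hψ x hx) hφ
  | zero => exact ⟨0, le_rfl, by simp⟩
  | add a b _ _ ha hb =>
    obtain ⟨M, hM, h1⟩ := ha
    obtain ⟨N, hN, h2⟩ := hb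
    refine ⟨M + N, add_nonneg hM hN, fun x hx => ?_⟩
    rw [LinearMap.add_apply, add_mul]
    exact (abs_add_le _ _).trans (add_le_add (h1 x hx) (h2 x hx))
  | smul c a _ ha =>
    obtain ⟨M, hM, h1⟩ := ha
    refine ⟨|c| * M, by positivity, fun x hx => ?_⟩
    rw [LinearMap.smul_apply, smul_eq_mul, abs_mul, mul_assoc]
    exact mul_le_mul_of_nonneg_left (h1 x hx) (abs_nonneg c)

lemma exists_dual_span : ∃ t : Finset (Dual ℝ V), ↑t ⊆ (S.dualΛ : Set (Dual ℝ V)) ∧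
    span ℝ (t : Set (Dual ℝ V)) = ⊤ :=
  exists_finset_span (span_dual_eq_top fun v hv => S.sepa v hv)

lemma exists_pos_int [LocallyConvexSpace ℝ V] : ∃ ξ ∈ S.dualΛ, S.Pos ξ := by
  obtain ⟨ξ, hξ⟩ := S.exists_pos
  obtain ⟨t, ht, ht'⟩ := S.exists_dual_span
  have h1 : ξ ∈ span ℝ (t : Set (Dual ℝ V)) := ht' ▸ mem_top
  rw [Submodule.mem_span_finset] at h1
  obtain ⟨a, -, ha⟩ := h1
  choose M hM hM' using hξ.2
  let N : ℝ := 1 + ∑ φ ∈ t, M φ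
  refine ⟨∑ φ ∈ t, ⌊N * a φ⌋ • φ, sum_mem fun φ hφ => zsmul_mem (ht hφ) _,
    hξ.mono fun x hx => ?_⟩
  have h2 : N * ξ x = ∑ φ ∈ t, N * a φ * φ x := by
    rw [← ha]; simp [Finset.mul_sum, mul_assoc]
  have h3 : ∀ φ ∈ t, N * a φ * φ x - M φ * ξ x ≤ (⌊N * a φ⌋ • φ) x := by
    intro φ _
    have h4 := hM' φ x hx
    have h5 := Int.fract_nonneg (N * a φ)
    have h6 := (Int.fract_lt_one (N * a φ)).le
    have h7 : Int.fract (N * a φ) * φ x ≤ |φ x| :=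
      (mul_le_mul_of_nonneg_left (le_abs_self _) h5).trans
        (mul_le_of_le_one_left (abs_nonneg _) h6)
    rw [Int.fract] at h7
    simp only [LinearMap.smul_apply, zsmul_eq_mul]
    linarith
  have h8 := Finset.sum_le_sum h3
  rw [Finset.sum_sub_distrib, ← h2, ← Finset.sum_mul] at h8
  rw [LinearMap.sum_apply]
  refine le_trans (le_of_eq ?_) h8
  simp only [N]; ring

variable {S}

lemma Pos.finite_le {ξ : Dual ℝ V} (h : S.Pos ξ) (c : ℝ) :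
    {z | z ∈ S.Λ ∧ z ∈ S.C ∧ ξ z ≤ c}.Finite := by
  obtain ⟨t, ht, ht'⟩ := S.exists_dual_span
  choose M hM hM' using h.2
  refine Set.Finite.of_finite_image (f := fun z (φ : t) => φ.1 z) ?_ ?_
  · refine (Set.Finite.pi' (t := fun φ : t => (Int.cast : ℤ → ℝ) ''
      Icc (-⌈M φ * c⌉) ⌈M φ * c⌉) fun φ => (finite_Icc _ _).image _).subset ?_
    rintro _ ⟨z, ⟨h1, h2, h3⟩, rfl⟩ φ
    obtain ⟨n, hn⟩ := ht φ.2 z h1
    refine ⟨n, ?_, hn.symm⟩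
    have h4 := (hM' φ z h2).trans (mul_le_mul_of_nonneg_left h3 (hM φ))
    rw [hn] at h4
    have h5 := h4.trans (Int.le_ceil _)
    exact abs_le.1 (by exact_mod_cast h5)
  · intro z _ w _ hzw
    rw [← sub_eq_zero, ← Module.forall_dual_apply_eq_zero_iff ℝ]
    intro φ
    have hφ : φ ∈ span ℝ (t : Set (Dual ℝ V)) := ht' ▸ mem_top
    induction hφ using span_induction with
    | mem φ hφ => rw [map_sub, sub_eq_zero]; exact congrFun hzw ⟨φ, hφ⟩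
    | zero => simp
    | add a b _ _ ha hb => simp [ha, hb]
    | smul c a _ ha => simp [ha]

lemma finite_of_span {B : Finset V} (hB : span ℝ (B : Set V) = ⊤) {F : V → Set V}
    (hF : ∀ b ∈ B, (F b).Finite) : {γ : V ≃ₗ[ℝ] V | ∀ b ∈ B, γ b ∈ F b}.Finite := by
  refine Set.Finite.of_finite_image (f := fun γ (b : B) => γ b.1) ?_ ?_
  · refine (Set.Finite.pi' (t := fun b : B => F b) fun b => hF b b.2).subset ?_
    rintro _ ⟨γ, hγ, rfl⟩ b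
    exact hγ b b.2
  · intro γ _ δ _ h
    exact LinearEquiv.toLinearMap_injective
      (LinearMap.ext_on hB fun b hb => congrFun h ⟨b, hb⟩)

lemma Pos.finite_orbit {ξ : Dual ℝ V} (h : S.Pos ξ) {x : V} (hx : x ∈ interior (S.C : Set V))
    (c : ℝ) : {γ | γ ∈ S.Γ ∧ ξ (γ x) ≤ c}.Finite := by
  obtain ⟨B, hB, hB'⟩ := exists_finset_span S.span_eq
  choose ε hε hε' using int_sub hx
  refine (finite_of_span hB' (F := fun b => {z | z ∈ S.Λ ∧ z ∈ S.C ∧ ξ z ≤ c / ε b})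
    fun b _ => h.finite_le _).subset ?_
  rintro γ ⟨h1, h2⟩ b hb
  refine ⟨S.ΓΛ γ h1 b (hB hb).1, S.ΓC γ h1 b (hB hb).2, ?_⟩
  have := h.1 _ (S.ΓC γ h1 _ (hε' b))
  rw [map_sub, map_smul, map_sub, map_smul, smul_eq_mul] at this
  rw [le_div_iff₀ (hε b)]
  linarith

lemma Pos.exists_min {ξ : Dual ℝ V} (h : S.Pos ξ) {x : V} (hx : x ∈ interior (S.C : Set V)) :
    ∃ δ ∈ S.Γ, ∀ δ' ∈ S.Γ, ξ (δ x) ≤ ξ (δ' x) := by
  obtain ⟨δ, hδ, hδ'⟩ := Set.exists_min_image _ (fun γ : V ≃ₗ[ℝ] V => ξ (γ x))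
    (h.finite_orbit hx (ξ x)) ⟨1, S.Γ.one_mem, le_rfl⟩
  refine ⟨δ, hδ.1, fun δ' h' => ?_⟩
  by_cases h1 : ξ (δ' x) ≤ ξ x
  · exact hδ' δ' ⟨h', h1⟩
  · exact hδ.2.trans (not_le.1 h1).le

variable (S) in
lemma exists_free [LocallyConvexSpace ℝ V] :
    ∃ ξ ∈ S.dualΛ, S.Pos ξ ∧ ∀ γ ∈ S.Γ, (∀ x, ξ (γ x) = ξ x) → γ = 1 := by
  obtain ⟨ξ, hξ, hp⟩ := S.exists_pos_int
  obtain ⟨B, hB, hB'⟩ := exists_finset_span S.span_eq
  have hT := finite_of_span hB' (F := fun b => {z | z ∈ S.Λ ∧ z ∈ S.C ∧ ξ z ≤ 3 * ξ b})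
    fun b _ => hp.finite_le _
  let T := {γ : V ≃ₗ[ℝ] V | ∀ b ∈ B, γ b ∈ {z | z ∈ S.Λ ∧ z ∈ S.C ∧ ξ z ≤ 3 * ξ b}} \ {1}
  have hT' : T.Finite := hT.subset sdiff_subset
  let F : (V ≃ₗ[ℝ] V) → Dual ℝ V →ₗ[ℝ] Dual ℝ V := fun γ => γ.toLinearMap.dualMap - LinearMap.id
  have hF : ∀ γ φ x, F γ φ x = φ (γ x) - φ x := fun _ _ _ => rfl
  obtain ⟨η, hη, hη'⟩ := exists_avoid S.dualΛ T hT' F fun γ hγ => by
    obtain ⟨v, hv⟩ : ∃ v, γ v ≠ v := by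
      by_contra! h
      exact hγ.2 (LinearEquiv.ext h)
    obtain ⟨φ, h1, h2⟩ := S.sepa _ (sub_ne_zero.2 hv)
    refine ⟨φ, h1, fun h => h2 ?_⟩
    rw [map_sub, ← hF, h, LinearMap.zero_apply]
  obtain ⟨M, hM, hM'⟩ := hp.2 η
  obtain ⟨k, hk, hk'⟩ := exists_nat_avoid T hT' (fun γ => F γ ξ) (fun γ => F γ η)
    (fun γ hγ => Or.inr (hη' γ hγ)) (⌈2 * M⌉₊ + 2)
  have hk2 : 2 * M + 2 ≤ k := by
    have h1 := Nat.le_ceil (2 * M)
    have h2 : ((⌈2 * M⌉₊ + 2 : ℕ) : ℝ) ≤ k := by exact_mod_cast hk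
    push_cast at h2
    linarith
  have hb : ∀ x ∈ S.C, (k - M) * ξ x ≤ (k • ξ + η) x ∧ (k • ξ + η) x ≤ (k + M) * ξ x := by
    intro x hx
    have := abs_le.1 (hM' x hx)
    simp only [LinearMap.add_apply, LinearMap.smul_apply, nsmul_eq_mul]
    constructor <;> linarith [this.1, this.2]
  refine ⟨k • ξ + η, add_mem (nsmul_mem hξ k) hη, hp.mono fun x hx => le_trans ?_ (hb x hx).1,
    fun γ hγ h => ?_⟩
  · exact le_mul_of_one_le_left (hp.1 x hx) (by linarith)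
  by_contra h1
  refine hk' γ ⟨fun b hb' => ⟨S.ΓΛ γ hγ b (hB hb').1, S.ΓC γ hγ b (hB hb').2, ?_⟩, h1⟩ ?_
  · have h2 := (hb _ (S.ΓC γ hγ b (hB hb').2)).1
    rw [h] at h2
    have h3 := h2.trans (hb b (hB hb').2).2
    have h4 := hp.1 b (hB hb').2
    have h5 : (0 : ℝ) < k - M := by linarith
    refine le_of_mul_le_mul_left (h3.trans ?_) h5
    nlinarith
  · ext x
    have := h x
    simp only [LinearMap.add_apply, LinearMap.smul_apply, nsmul_eq_mul, hF, smul_eq_mul,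
      LinearMap.zero_apply] at this ⊢
    linarith

/-- The group elements minimising `ξ` at some interior point of the cone on `Q`. -/
def Mins (ξ : Dual ℝ V) (Q : Set V) : Set (V ≃ₗ[ℝ] V) :=
  {δ | δ ∈ S.Γ ∧ ∃ x ∈ span ℝ≥0 Q, x ∈ interior (S.C : Set V) ∧ ∀ δ' ∈ S.Γ, ξ (δ x) ≤ ξ (δ' x)}

lemma Pos.finite_mins {ξ : Dual ℝ V} (h : S.Pos ξ) (hξ : ξ ∈ S.dualΛ) {Q : Set V}
    (hQ : Q.Finite) (hΛ : Q ⊆ S.Λ) (hC : Q ⊆ S.C) : (S.Mins ξ Q).Finite := by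
  classical
  have hn : ∀ δ : S.Γ, ∀ v : V, ∃ n : ℕ, v ∈ Q → ξ (δ.1 v) = n := by
    intro δ v
    by_cases hv : v ∈ Q
    · obtain ⟨m, hm⟩ := hξ _ (S.ΓΛ δ δ.2 v (hΛ hv))
      have h0 := h.1 _ (S.ΓC δ δ.2 v (hC hv))
      rw [hm] at h0
      obtain ⟨n, rfl⟩ := Int.eq_ofNat_of_zero_le (by exact_mod_cast h0 : 0 ≤ m)
      exact ⟨n, fun _ => by simpa using hm⟩
    · exact ⟨0, fun h => absurd h hv⟩
  choose n hn using hn
  let f : (I : Finset V) → S.Γ → I → ℕ := fun I δ v => n δ v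
  have key : ∀ I : Finset V, ↑I ⊆ Q → ∑ v ∈ I, v ∈ interior (S.C : Set V) →
      {δ : V ≃ₗ[ℝ] V | ∃ hδ : δ ∈ S.Γ, Minimal (· ∈ range (f I)) (f I ⟨δ, hδ⟩)}.Finite := by
    intro I hI hI'
    have h1 : {u | Minimal (· ∈ range (f I)) u}.Finite :=
      WellQuasiOrderedLE.finite_of_isAntichain (setOfPred_minimal_antichain _)
    refine (h1.biUnion fun u _ => h.finite_orbit hI' (∑ v, (u v : ℝ))).subset ?_
    rintro δ ⟨hδ, hδ'⟩
    refine mem_biUnion hδ' ⟨hδ, le_of_eq ?_⟩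
    rw [map_sum, map_sum, ← Finset.sum_coe_sort]
    exact Finset.sum_congr rfl fun v _ => hn ⟨δ, hδ⟩ v (hI v.2)
  have hfin : {I : Finset V | ↑I ⊆ Q ∧ ∑ v ∈ I, v ∈ interior (S.C : Set V)}.Finite :=
    (Set.Finite.finite_subsets hQ).preimage Finset.coe_injective.injOn |>.subset fun I hI => hI.1
  refine (hfin.biUnion fun I hI => key I hI.1 hI.2).subset ?_
  rintro δ ⟨hδ, x, hx, hx', hmin⟩
  obtain ⟨t, ht, rfl⟩ := exists_coeff hQ hx
  let I := hQ.toFinset.filter fun v => t v ≠ 0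
  have hIQ : ↑I ⊆ Q := fun v hv => hQ.mem_toFinset.1 (Finset.mem_filter.1 hv).1
  have hIt : ∀ v ∈ I, 0 < t v := fun v hv => (ht v).lt_of_ne' (Finset.mem_filter.1 hv).2
  have hsum : ∑ v ∈ hQ.toFinset, t v • v = ∑ v ∈ I, t v • v :=
    (Finset.sum_filter_of_ne (p := fun v => t v ≠ 0)
      fun v _ hv h0 => hv (by rw [h0, zero_smul])).symm
  rw [hsum] at hx' hmin
  refine mem_biUnion (x := I) ⟨hIQ, ?_⟩ ⟨hδ, ⟨_, rfl⟩, ?_⟩
  · have hpos : 0 < 1 + ∑ v ∈ I, t v := by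
      have := Finset.sum_nonneg fun v (_ : v ∈ I) => ht v
      linarith
    have h1 : ∑ v ∈ I, v = ∑ v ∈ I, (1 - (1 + ∑ v ∈ I, t v)⁻¹ * t v) • v +
        (1 + ∑ v ∈ I, t v)⁻¹ • ∑ v ∈ I, t v • v := by
      rw [Finset.smul_sum, ← Finset.sum_add_distrib]
      exact Finset.sum_congr rfl fun v _ => by rw [smul_smul, ← add_smul]; simp
    rw [h1]
    refine add_mem_int (sum_mem fun v hv => smul_mem' ?_ (hC (hIQ hv)))
      (smul_mem_int (inv_pos.2 hpos) hx')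
    rw [sub_nonneg, inv_mul_le_iff₀ hpos]
    have := Finset.single_le_sum (fun v (_ : v ∈ I) => ht v) hv
    linarith
  · rintro _ ⟨δ', rfl⟩ hle ⟨v, hv⟩
    have h1 := hmin δ' δ'.2
    simp only [map_sum, map_smul, smul_eq_mul] at h1
    have h2 : ∀ v ∈ I, t v * ξ (δ'.1 v) ≤ t v * ξ (δ v) := fun v hv => by
      refine mul_le_mul_of_nonneg_left ?_ (ht v)
      rw [hn δ' v (hIQ hv), hn ⟨δ, hδ⟩ v (hIQ hv)]
      exact_mod_cast hle ⟨v, hv⟩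
    have h3 := (Finset.sum_eq_sum_iff_of_le h2).1 (le_antisymm (Finset.sum_le_sum h2) h1) v hv
    have h4 := mul_left_cancel₀ (hIt v hv).ne' h3
    rw [hn δ' v (hIQ hv), hn ⟨δ, hδ⟩ v (hIQ hv)] at h4
    exact le_of_eq (by exact_mod_cast h4.symm)

end Setup

end Pool.Agent.Lib.MP_e39d36_ag.CG
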