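import Pool.Agent.Lib.MP_e39d36_ag.Cover2

open Set WithZero

set_option linter.unusedSectionVars false
set_option linter.style.haveILetI false
set_option linter.unusedVariables false

noncomputable section

namespace Pool.Agent.Lib.MP_e39d36_ag

variable {K L M : Type} [Field K] [Field L] [Field M]

lemma mem_of_forall_loc {B : Subring K} {w : K} (h : ∀ T, IsLoc T → LocOf B T → w ∈ T) :
    w ∈ B := by
  let J : Ideal B :=
    { carrier := {a | a * w ∈ B}
      zero_mem' := by simp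
      add_mem' := fun {a b} ha hb => by simpa [add_mul] using add_mem ha hb
      smul_mem' := fun c a ha => by simpa [mul_assoc] using mul_mem c.2 ha }
  by_contra h1
  obtain ⟨q, hq, hq'⟩ := Ideal.exists_le_maximal J
    ((Ideal.ne_top_iff_one _).2 fun h2 => h1 (by simpa [J] using h2))
  obtain ⟨T, h2, h3, h4⟩ := exists_locP q
  obtain ⟨b, h5, h6, h7⟩ := h3.2 w (h T h2 h3)
  exact (h4 ⟨b, h5⟩).1 h6 (hq' h7)

lemma eq_of_dom {B B' R R' T : Subring K} (h1 : LocOf B R) (h2 : LocOf B' R') (h3 : Dom R T)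
    (h4 : Dom R' T) (h5 : B ≤ R') (h6 : B' ≤ R) : R = R' :=
  le_antisymm (h1.le h5 fun b hb hu => h4.2 b (h5 hb) (hu.mono h3.1))
    (h2.le h6 fun b hb hu => h3.2 b (h6 hb) (hu.mono h4.1))

lemma mem_of_inv_mem {T : Subring K} {z : K} (h : IsIntegral T z) (h' : z⁻¹ ∈ T) : z ∈ T := by
  by_cases h0 : z = 0
  · simp [h0]
  haveI : FaithfulSMul T (integralClosure T K) := (faithfulSMul_iff_algebraMap_injective _ _).2
    fun a b hab => Subtype.ext (congrArg (fun x : integralClosure T K => (x : K)) hab)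
  have h1 : IsUnit (algebraMap T (integralClosure T K) ⟨_, h'⟩) :=
    isUnit_iff_exists_inv.2 ⟨⟨z, h⟩, Subtype.ext (inv_mul_cancel₀ h0)⟩
  simpa using (isUnit_iff_un.1 (isUnit_of_map_unit _ _ h1)).2.2

lemma icl_icl [Algebra L K] [Algebra K M] [Algebra L M] [IsScalarTower L K M] (R : Subring L) :
    icl M (icl K R) = icl M R := by
  refine le_antisymm (icl_le (nml_icl R) fun z hz => ?_) (icl_le (nml_icl _) fun z hz => ?_)
  · exact IsIntegral.map (IsScalarTower.toAlgHom R K M) hz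
  · rw [Subring.mem_comap, IsScalarTower.algebraMap_apply L K M]
    exact alg_mem_icl (alg_mem_icl hz)

lemma Dom.comap {R T : Subring K} (h : Dom R T) (θ : L →+* K) : Dom (R.comap θ) (T.comap θ) :=
  ⟨fun z hz => h.1 hz, fun z hz hu => un_comap.2 (h.2 _ hz (un_comap.1 hu))⟩

variable [Algebra ℂ K] [Algebra ℂ L] [Algebra ℂ M]

/-- Projective charts. -/
def chA {ι : Type} (y : ι → K) (i : ι) : Subalgebra ℂ K :=
  Algebra.adjoin ℂ (range fun j => y j / y i)

section

variable {ι : Type} {y : ι → K} {i j : ι} {R R' T : Subring K}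

lemma div_mem_chA (y : ι → K) (i j : ι) : y j / y i ∈ chA y i := Algebra.subset_adjoin ⟨j, rfl⟩

lemma chA_le (hc : ∀ a : ℂ, algebraMap ℂ K a ∈ T) (h : ∀ j, y j / y i ∈ T) :
    (chA y i).toSubring ≤ T := fun z hz => by
  have hz' : z ∈ Algebra.adjoin ℂ (range fun j => y j / y i) := hz
  clear hz
  induction hz' using Algebra.adjoin_induction with
  | mem x hx => obtain ⟨j, rfl⟩ := hx; exact h j
  | algebraMap c => exact hc c
  | add a b _ _ ha hb => exact add_mem ha hb
  | mul a b _ _ ha hb => exact mul_mem ha hb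

lemma chA_le_of_un (h : (chA y i).toSubring ≤ T) (hu : Un T (y j / y i)) :
    (chA y j).toSubring ≤ T :=
  chA_le (fun a => h ((chA y i).algebraMap_mem a)) fun k => by
    have h1 := (div_ne_zero_iff.1 hu.1).2
    have := hu.div_mem (h (div_mem_chA y i k))
    rwa [div_div_div_cancel_right₀ h1] at this

lemma un_of_chA (hi : y i ≠ 0) (hj : y j ≠ 0) (h : (chA y i).toSubring ≤ T)
    (h' : (chA y j).toSubring ≤ T) : Un T (y j / y i) :=
  ⟨div_ne_zero hj hi, h (div_mem_chA y i j), by rw [inv_div]; exact h' (div_mem_chA y j i)⟩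

lemma fg_chA [Finite ι] : (chA y i).FG := Subalgebra.fg_def.2 ⟨_, finite_range _, rfl⟩

lemma sep_chA (hi : y i ≠ 0) (hj : y j ≠ 0) (h1 : LocOf (chA y i).toSubring R)
    (h2 : LocOf (chA y j).toSubring R') (h3 : Dom R T) (h4 : Dom R' T) : R = R' := by
  have h5 := h1.1.trans h3.1
  have h6 := h2.1.trans h4.1
  exact eq_of_dom h1 h2 h3 h4
    (chA_le_of_un h2.1 (h4.2 _ (h2.1 (div_mem_chA y j i)) (un_of_chA hj hi h6 h5)))
    (chA_le_of_un h1.1 (h3.2 _ (h1.1 (div_mem_chA y i j)) (un_of_chA hi hj h5 h6)))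

lemma compl_chA [Finite ι] (hi : y i ≠ 0) (h : (chA y i).toSubring ≤ R)
    (hc : ∀ a : ℂ, algebraMap ℂ K a ∈ T) (hT : ∀ z ∈ R, z ∉ T → Un R z ∧ z⁻¹ ∈ T) :
    ∃ k, y k ≠ 0 ∧ (chA y k).toSubring ≤ T := by
  classical
  haveI := Fintype.ofFinite ι
  have key : ∀ s : Finset ι, ∃ k, Un R (y k / y i) ∧ ∀ j ∈ s, y j / y k ∈ T := by
    intro s
    induction s using Finset.induction_on with
    | empty => exact ⟨i, by rw [div_self hi]; exact Un.one, by simp⟩
    | insert j s _ ih =>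
      obtain ⟨k, h1, h2⟩ := ih
      by_cases h3 : y j / y k ∈ T
      · exact ⟨k, h1, fun l hl => (Finset.mem_insert.1 hl).elim (fun h => h ▸ h3) (h2 l)⟩
      obtain ⟨h4, h5⟩ := hT _ (chA_le_of_un h h1 (div_mem_chA y k j)) h3
      have h6 := div_ne_zero_iff.1 h4.1
      refine ⟨j, by simpa [div_mul_div_cancel₀ h6.2] using h4.mul h1, fun l hl => ?_⟩
      rcases Finset.mem_insert.1 hl with rfl | hl
      · rw [div_self h6.1]; exact one_mem _
      · simpa [div_mul_div_cancel₀ h6.2] using mul_mem (h2 l hl) h5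
  obtain ⟨k, h1, h2⟩ := key Finset.univ
  exact ⟨k, (div_ne_zero_iff.1 h1.1).1, chA_le hc fun j => h2 j (Finset.mem_univ j)⟩

end

namespace Var

open Classical in
/-- A model from its affine charts. -/
def ofCharts {ι : Type} [Finite ι] [Nonempty ι] (A : ι → Subalgebra ℂ K) (fg : ∀ i, (A i).FG)
    (frac : ∀ i z, ∃ b ∈ A i, b ≠ 0 ∧ b * z ∈ A i) (nml : ∀ i, Nml (A i).toSubring)
    (sep : ∀ i j R R' T, IsLoc T → LocOf (A i).toSubring R → LocOf (A j).toSubring R' → Dom R T →
      Dom R' T → R = R')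
    (compl : ∀ i (R T : Subring K), IsLoc R → LocOf (A i).toSubring R → T ≤ R →
      (∀ a : ℂ, algebraMap ℂ K a ∈ T) →
      (∀ z ∈ R, z ∉ T → Un R z ∧ z⁻¹ ∈ T) → ∃ j, (A j).toSubring ≤ T) : Var K where
  Pt := {R : Subring K // IsLoc R ∧ ∃ i, LocOf (A i).toSubring R}
  O := Subtype.val
  sp x y := y.1 ≤ x.1
  pd x := ∃ v, IsV v x.1
  ord f x := if h : ∃ v, IsV v x.1 then od h.choose f else 0
  ι := ι
  fin := inferInstance
  nei := inferInstance
  A := A
  fg := fg
  frac := frac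
  isLoc x := x.2.1
  chart x := x.2.2
  pt i T h1 h2 := ⟨⟨T, h1, i, h2⟩, rfl⟩
  nml x := x.2.2.elim fun i hi => hi.nml (nml i)
  sep x y T h1 h2 h3 := x.2.2.elim fun i hi => y.2.2.elim fun j hj =>
    Subtype.ext (sep i j _ _ T h1 hi hj h2 h3)
  compl x T h1 h2 h3 := x.2.2.elim fun i hi => compl i _ T x.2.1 hi h1 h2 h3
  sp_iff _ _ := Iff.rfl
  pd_iff _ := Iff.rfl
  ord_eq x v hv f := by
    have h : ∃ v, IsV v x.1 := ⟨v, hv⟩
    rw [dif_pos h, h.choose_spec.unique hv]

variable {X : Var K}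

lemma mem_A {i : X.ι} {w : K} (h : ∀ x, (X.A i).toSubring ≤ X.O x → w ∈ X.O x) : w ∈ X.A i :=
  mem_of_forall_loc (B := (X.A i).toSubring) fun T h1 h2 => by
    obtain ⟨x, rfl⟩ := X.pt i T h1 h2
    exact h x h2.1

variable (X) in
lemma nml_A (i : X.ι) : Nml (X.A i).toSubring := fun z hz =>
  mem_A fun x hx => X.nml x z (isIntegral_mono hx hz)

variable (X) in
lemma exists_ctr_val (V : ValuationSubring K) (hV : ∀ a : ℂ, algebraMap ℂ K a ∈ V) :
    ∃ x, Dom (X.O x) V.toSubring := by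
  obtain ⟨i, hi⟩ := X.exists_chart_val V hV
  exact (exists_centre (isLoc_of_val V.mem_or_inv_mem) hi).imp fun _ h => h.1

variable [Algebra L K] [IsScalarTower ℂ L K] {Y : Var L}

/-- Criterion for being the normalisation. -/
def IC.mk' (p : X.Pt → Y.Pt) (dom : ∀ x, Dom (Y.O (p x)) ((X.O x).comap (algebraMap L K)))
    (locOf : ∀ x, LocOf (icl K (Y.O (p x))) (X.O x)) : IC Y X where
  p := p
  dom := dom
  locOf := locOf
  pt y T h1 h2 := by
    obtain ⟨V, hV⟩ := h1.exists_val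
    have h3 : Y.O y ≤ T.comap (algebraMap L K) := fun a ha => h2.1 (alg_mem_icl ha)
    obtain ⟨x, hx⟩ := X.exists_ctr_val V fun a => by
      rw [IsScalarTower.algebraMap_apply ℂ L K]
      exact hV.1 (h3 (Y.const_mem y a))
    obtain ⟨y', h4, h5⟩ := exists_gen (h1.comap _) h3
    have h6 : y' = p x := Y.sep _ _ _ ((isLoc_of_val V.mem_or_inv_mem).comap (algebraMap L K))
      (h4.trans (hV.comap _)) ((dom x).trans (hx.comap _))
    subst h6
    exact ⟨x, eq_of_dom (locOf x) h2 hx hV (icl_le (h2.nml (nml_icl _)) h4.1)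
      ((icl_mono h5).trans (locOf x).1)⟩

/-- Composition. -/
def IC.comp [Algebra K M] [Algebra L M] [IsScalarTower L K M] [IsScalarTower ℂ K M]
    [IsScalarTower ℂ L M] {Z : Var M} (π : IC Y X) (π' : IC X Z) : IC Y Z :=
  IC.mk' (fun z => π.p (π'.p z))
    (fun z => by
      have := (π.dom _).trans ((π'.dom z).comap (algebraMap L K))
      rwa [Subring.comap_comap, ← IsScalarTower.algebraMap_eq] at this)
    fun z => by
      have := (π.locOf (π'.p z)).icl (K := M)
      rw [icl_icl] at this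
      exact this.trans (π'.locOf z)

theorem exists_normalisation [FiniteDimensional L K] (Y : Var L) :
    ∃ X : Var K, Nonempty (IC Y X) := by
  haveI : CharZero L := charZero_of_injective_algebraMap (algebraMap ℂ L).injective
  have hc : ∀ (R : Subring L), (∀ a : ℂ, algebraMap ℂ L a ∈ R) → ∀ a : ℂ,
      algebraMap ℂ K a ∈ icl K R := fun R h a => by
    rw [IsScalarTower.algebraMap_apply ℂ L K]
    exact alg_mem_icl (h a)
  let A : Y.ι → Subalgebra ℂ K := fun i =>
    { icl K (Y.A i).toSubring with algebraMap_mem' := hc _ (Y.A i).algebraMap_mem }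
  have hA : ∀ i, (A i).toSubring = icl K (Y.A i).toSubring := fun _ => rfl
  have h1 : ∀ i (R : Subring K), IsLoc R → (A i).toSubring ≤ R →
      ∃ y, Dom (Y.O y) (R.comap (algebraMap L K)) ∧ LocOf (Y.A i).toSubring (Y.O y) :=
    fun i R h1 h2 => exists_centre (h1.comap _) fun a ha => h2 (alg_mem_icl ha)
  have h2 : ∀ i j (R T : Subring K), IsLoc T → LocOf (A i).toSubring R → Dom R T →
      (A j).toSubring ≤ T → (A j).toSubring ≤ R := by
    intro i j R T h3 h4 h5 h6
    obtain ⟨y, h7, -⟩ := h1 i R (h5.isLoc h3) h4.1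
    obtain ⟨y', h8, h9⟩ := h1 j T h3 h6
    have := Y.sep _ _ _ (h3.comap _) (h7.trans (h5.comap _)) h8
    subst this
    exact icl_le (h4.nml (nml_icl _)) (h9.1.trans h7.1)
  haveI := Y.nei
  refine ⟨ofCharts A (fun i => ?_) (fun i z => ?_) (fun i => nml_icl _)
    (fun i j R R' T h3 h4 h5 h6 h7 => eq_of_dom h4 h5 h6 h7 (h2 j i _ _ h3 h5 h7 (h4.1.trans h6.1))
      (h2 i j _ _ h3 h4 h6 (h5.1.trans h7.1))) fun i R T h3 h4 h5 h6 h7 => ?_, ?_⟩
  · let B := (Y.A i).toSubring
    haveI : IsFractionRing B L := isFrac (Y.frac i)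
    haveI := (Y.nml_A i).isIntegrallyClosed
    haveI : Module.Finite B (integralClosure B K) := IsIntegralClosure.finite B L K _
    letI : Algebra (Y.A i) (A i) := (inferInstance : Algebra B (integralClosure B K))
    haveI : Module.Finite (Y.A i) (A i) := (inferInstance : Module.Finite B (integralClosure B K))
    haveI : IsScalarTower ℂ (Y.A i) (A i) := IsScalarTower.of_algebraMap_eq fun a =>
      Subtype.ext (IsScalarTower.algebraMap_apply ℂ L K a)
    haveI : Algebra.FiniteType ℂ (Y.A i) := ⟨(Subalgebra.fg_top _).2 (Y.fg i)⟩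
    exact (Subalgebra.fg_top _).1 (Algebra.FiniteType.trans (R := ℂ) (S := Y.A i) (A := A i)
      inferInstance inferInstance).1
  · have h3 : LocOf (Y.A i).toSubring ⊤ := ⟨le_top, fun z _ => by
      obtain ⟨b, h1, h2, h3⟩ := Y.frac i z
      exact ⟨b, h1, un_top.2 h2, h3⟩⟩
    obtain ⟨b, h4, h5, h6⟩ := h3.exists_mul (L := K) (z := z) (by
      letI : Algebra L (⊤ : Subring L) := (Subring.topEquiv.symm : L ≃+* _).toRingHom.toAlgebra
      haveI : IsScalarTower L (⊤ : Subring L) K := IsScalarTower.of_algebraMap_eq fun _ => rfl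
      exact (Algebra.IsIntegral.isIntegral (R := L) z).tower_top)
    exact ⟨_, alg_mem_icl h4, (map_ne_zero _).2 h5.1, h6⟩
  · obtain ⟨y, h8, -⟩ := h1 i R h3 h4.1
    obtain ⟨j, hj⟩ := Y.compl y (Y.O y ⊓ T.comap (algebraMap L K)) inf_le_left
      (fun a => ⟨Y.const_mem y a, by
        change algebraMap L K _ ∈ T
        rw [← IsScalarTower.algebraMap_apply]; exact h6 a⟩) fun z hz hz' => by
        obtain ⟨h9, h10⟩ := h7 _ (h8.1 hz) fun h => hz' ⟨hz, h⟩
        have h11 := h8.2 z hz (un_comap.2 h9)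
        exact ⟨h11, h11.2.2, by
          change algebraMap L K _ ∈ T
          rwa [map_inv₀]⟩
    refine ⟨j, fun z hz => of_not_not fun hz' => hz' (mem_of_inv_mem ?_ (h7 z ?_ hz').2)⟩
    · letI : Algebra (Y.A j).toSubring T := (((algebraMap L K).comp (Y.A j).toSubring.subtype).codRestrict
        T fun a => (hj a.2).2).toAlgebra
      haveI : IsScalarTower (Y.A j).toSubring T K := IsScalarTower.of_algebraMap_eq fun _ => rfl
      exact (mem_icl.1 hz).tower_top
    · exact icl_le (h4.nml (nml_icl _)) (fun a ha => h8.1 (hj ha).1) hz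
  · have h3 : ∀ x : {R : Subring K // IsLoc R ∧ ∃ i, LocOf (A i).toSubring R}, ∃ y,
        Dom (Y.O y) (x.1.comap (algebraMap L K)) ∧ LocOf (icl K (Y.O y)) x.1 := by
      rintro ⟨R, h3, i, h4⟩
      obtain ⟨y, h5, h6⟩ := h1 i R h3 h4.1
      exact ⟨y, h5, h4.of_le (icl_mono h6.1) (icl_le (h4.nml (nml_icl _)) h5.1)⟩
    choose p hp hp' using h3
    exact ⟨IC.mk' p hp hp'⟩

end Var

end Pool.Agent.Lib.MP_e39d36_ag
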