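import Pool.Agent.Lib.MP_e39d36_ag.Deg

open Set WithZero

set_option linter.unusedSectionVars false
set_option linter.style.haveILetI false
set_option linter.unusedVariables false

noncomputable section

namespace Pool.Agent.Lib.MP_e39d36_ag

variable {K L : Type} [Field K] [Field L] [Algebra L K]

variable (K) in
/-- Integral closure of a subring in an extension field. -/
def icl (R : Subring L) : Subring K := (integralClosure R K).toSubring

lemma mem_icl {R : Subring L} {z : K} : z ∈ icl K R ↔ IsIntegral R z := Iff.rfl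

instance (R : Subring L) : Algebra R (icl K R) := inferInstanceAs (Algebra R (integralClosure R K))

instance (R : Subring L) : Algebra.IsIntegral R (icl K R) :=
  inferInstanceAs (Algebra.IsIntegral R (integralClosure R K))

lemma alg_mem_icl {R : Subring L} {z : L} (h : z ∈ R) : algebraMap L K z ∈ icl K R :=
  isIntegral_algebraMap (R := R) (x := ⟨z, h⟩)

lemma icl_mono {R R' : Subring L} (h : R ≤ R') : icl K R ≤ icl K R' :=
  fun _ hz => isIntegral_mono h hz

lemma icl_le {R : Subring L} {T : Subring K} (hT : Nml T) (h : R ≤ T.comap (algebraMap L K)) :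
    icl K R ≤ T := fun z hz => hT z (by
  letI : Algebra R T := (((algebraMap L K).comp R.subtype).codRestrict T fun a => h a.2).toAlgebra
  haveI : IsScalarTower R T K := IsScalarTower.of_algebraMap_eq fun _ => rfl
  exact (mem_icl.1 hz).tower_top)

lemma nml_icl (R : Subring L) : Nml (icl K R) := fun z hz =>
  haveI : IsScalarTower R (icl K R) K := IsScalarTower.of_algebraMap_eq fun _ => rfl
  isIntegral_trans z hz

lemma LocOf.icl {R R' : Subring L} (h : LocOf R R') : LocOf (icl K R) (icl K R') :=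
  ⟨icl_mono h.1, fun z hz => by
    obtain ⟨b, h1, h2, h3⟩ := h.exists_mul (mem_icl.1 hz)
    exact ⟨_, alg_mem_icl h1, ⟨(map_ne_zero _).2 h2.1, alg_mem_icl h2.2.1,
      by rw [← map_inv₀]; exact alg_mem_icl h2.2.2⟩, h3⟩⟩

lemma aut_mem_icl {R : Subring L} (σ : K ≃ₐ[L] K) {z : K} (h : z ∈ icl K R) : σ z ∈ icl K R :=
  IsIntegral.map (σ.restrictScalars R).toAlgHom h

lemma Nml.of_icl {R : Subring L} (hR : Nml R) {z : L} (h : algebraMap L K z ∈ icl K R) : z ∈ R :=
  hR z ((isIntegral_algebraMap_iff (algebraMap L K).injective).1 h)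

lemma dom_of_max {R : Subring L} (hR : IsLoc R) {T : Subring K} (q : Ideal (icl K R))
    [q.IsMaximal] (h1 : icl K R ≤ T) (h2 : ∀ b : icl K R, Un T b ↔ b ∉ q) :
    Dom R (T.comap (algebraMap L K)) := by
  refine ⟨fun z hz => h1 (alg_mem_icl hz), fun z hz hu => ?_⟩
  haveI := hR.isLocalRing
  have h3 := IsLocalRing.eq_maximalIdeal (Ideal.isMaximal_comap_of_isIntegral_of_isMaximal (R := R) q)
  refine (isUnit_iff_un (a := ⟨z, hz⟩)).1 (of_not_not fun h4 => ?_)
  have h5 : (⟨z, hz⟩ : R) ∈ IsLocalRing.maximalIdeal R := h4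
  rw [← h3] at h5
  exact (h2 _).1 (un_comap.1 hu) h5

lemma max_of_dom {R : Subring L} (hR : IsLoc R) {T : Subring K} (hT : IsLoc T)
    (h1 : icl K R ≤ T) (h : Dom R (T.comap (algebraMap L K))) : (mx hT h1).IsMaximal := by
  haveI := hR.isLocalRing
  refine Ideal.isMaximal_of_isIntegral_of_isMaximal_comap (R := R) _ ?_
  convert IsLocalRing.maximalIdeal.isMaximal R
  ext a
  rw [IsLocalRing.mem_maximalIdeal, mem_nonunits_iff, isUnit_iff_un, Ideal.mem_comap, mem_mx]
  exact not_congr ⟨fun hu => h.2 a a.2 (un_comap.2 hu), fun hu => un_comap.1 (hu.mono h.1)⟩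

lemma exists_avoid_sub [Algebra ℂ K] {ι : Type*} [Finite ι] (W : Submodule ℂ K)
    (U : ι → Submodule ℂ K) (h : ∀ i, ¬W ≤ U i) : ∃ w ∈ W, ∀ i, w ∉ U i := by
  obtain ⟨w, hw⟩ := Submodule.exists_forall_notMem_of_forall_ne_top
    (fun i => (U i).comap W.subtype) fun i hi => h i (Submodule.comap_subtype_eq_top.1 hi)
  exact ⟨w, w.2, hw⟩

variable [Algebra ℂ K] [Algebra ℂ L] [IsScalarTower ℂ L K]

namespace Var

/-- `X` is the normalisation of `Y`. -/
structure IC (Y : Var L) (X : Var K) where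
  p : X.Pt → Y.Pt
  dom : ∀ x, Dom (Y.O (p x)) ((X.O x).comap (algebraMap L K))
  locOf : ∀ x, LocOf (icl K (Y.O (p x))) (X.O x)
  pt : ∀ y T, IsLoc T → LocOf (icl K (Y.O y)) T → ∃ x, X.O x = T

namespace IC

variable {X : Var K} {Y : Var L} (π : IC Y X)

/-- The underlying morphism. -/
def mor : Mor Y X := ⟨IsScalarTower.toAlgHom ℂ L K, π.p, π.dom⟩

variable {x x' : X.Pt} {y : Y.Pt}

lemma mem {z : L} (h : z ∈ Y.O (π.p x)) : algebraMap L K z ∈ X.O x := π.mor.mem h

lemma un {z : L} (h : Un (Y.O (π.p x)) z) : Un (X.O x) (algebraMap L K z) := π.mor.un h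

lemma of_un {z : L} (h : z ∈ Y.O (π.p x)) (h' : Un (X.O x) (algebraMap L K z)) :
    Un (Y.O (π.p x)) z := π.mor.of_un h h'

lemma mono (h : X.O x ≤ X.O x') : Y.O (π.p x) ≤ Y.O (π.p x') := π.mor.mono h

lemma le_p_iff : Y.O y ≤ Y.O (π.p x) ↔ icl K (Y.O y) ≤ X.O x := by
  refine ⟨fun h => (icl_mono h).trans (π.locOf x).1, fun h => ?_⟩
  obtain ⟨z, h1, h2⟩ := exists_gen ((X.isLoc x).comap (algebraMap L K)) (x := y)
    fun a ha => h (alg_mem_icl ha)
  rwa [← π.mor.p_eq h1] at h2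

lemma locOf' (h : Y.O y ≤ Y.O (π.p x)) : LocOf (icl K (Y.O y)) (X.O x) :=
  (locOf_of_sp h).icl.trans (π.locOf x)

lemma exists_of_max (q : Ideal (icl K (Y.O y))) [q.IsMaximal] :
    ∃ x, π.p x = y ∧ ∀ b : icl K (Y.O y), Un (X.O x) b ↔ b ∉ q := by
  obtain ⟨T, h1, h2, h3⟩ := exists_locP q
  obtain ⟨x, rfl⟩ := π.pt y T h1 h2
  exact ⟨x, π.mor.p_eq (dom_of_max (Y.isLoc y) q h2.1 h3), h3⟩

lemma going_up (h : Y.O y ≤ Y.O (π.p x')) : ∃ x, π.p x = y ∧ X.O x ≤ X.O x' := by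
  have h1 := π.le_p_iff.1 h
  obtain ⟨q, hq, hq'⟩ := Ideal.exists_le_maximal (mx (X.isLoc x') h1) Ideal.IsPrime.ne_top'
  obtain ⟨x, rfl, h2⟩ := π.exists_of_max q
  exact ⟨x, rfl, (π.locOf x).le h1 fun b hb hu =>
    of_not_not fun h3 => (h2 ⟨b, hb⟩).1 hu (hq' h3)⟩

lemma surj (y : Y.Pt) : ∃ x, π.p x = y := by
  obtain ⟨η, hη⟩ := X.exists_top
  exact (π.going_up (x' := η) (π.le_p_iff.2 (hη ▸ le_top))).imp fun _ h => h.1

lemma incomp (h : π.p x = π.p x') (h' : X.O x ≤ X.O x') : x = x' := by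
  have h1 := (π.locOf x).1
  have h2 := max_of_dom (Y.isLoc _) (X.isLoc x') (h1.trans h') (h ▸ π.dom x')
  have h3 := h2.eq_of_le (J := mx (X.isLoc x) h1) Ideal.IsPrime.ne_top'
    fun b hb hu => hb (Un.mono hu h')
  refine X.O_inj (le_antisymm h' ((π.locOf x').le (h ▸ h1) fun b hb hu => of_not_not fun h4 => ?_))
  have h5 : (⟨b, h ▸ hb⟩ : icl K (Y.O (π.p x))) ∈ mx (X.isLoc x) h1 := h4
  rw [← h3] at h5
  exact h5 hu

lemma mem_icl_of_fibre {w : K} (h : ∀ x, π.p x = y → w ∈ X.O x) : w ∈ icl K (Y.O y) := by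
  let J : Ideal (icl K (Y.O y)) :=
    { carrier := {a | a * w ∈ icl K (Y.O y)}
      zero_mem' := by simp
      add_mem' := fun {a b} ha hb => by simpa [add_mul] using add_mem ha hb
      smul_mem' := fun c a ha => by simpa [mul_assoc] using mul_mem c.2 ha }
  by_contra h1
  obtain ⟨q, hq, hq'⟩ := Ideal.exists_le_maximal J
    ((Ideal.ne_top_iff_one _).2 fun h2 => h1 (by simpa [J] using h2))
  obtain ⟨x, rfl, h2⟩ := π.exists_of_max q
  obtain ⟨b, h3, h4, h5⟩ := (π.locOf x).2 w (h x rfl)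
  exact (h2 ⟨b, h3⟩).1 h4 (hq' h5)

include π in
lemma exists_act (σ : K ≃ₐ[L] K) (x : X.Pt) :
    ∃ x', X.O x' = (X.O x).comap σ.symm.toRingEquiv.toRingHom := by
  refine π.pt (π.p x) _ ((X.isLoc x).comap _)
    ⟨fun z hz => (π.locOf x).1 (aut_mem_icl σ.symm hz), fun z hz => ?_⟩
  obtain ⟨b, h1, h2, h3⟩ := (π.locOf x).2 _ hz
  exact ⟨σ b, aut_mem_icl σ h1, un_comap.2 (by simpa using h2), by simpa using aut_mem_icl σ h3⟩

/-- The action of the Galois group on points. -/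
def act (σ : K ≃ₐ[L] K) (x : X.Pt) : X.Pt := (π.exists_act σ x).choose

variable {σ τ : K ≃ₐ[L] K} {z : K}

lemma O_act : X.O (π.act σ x) = (X.O x).comap σ.symm.toRingEquiv.toRingHom :=
  (π.exists_act σ x).choose_spec

lemma mem_act : z ∈ X.O (π.act σ x) ↔ σ.symm z ∈ X.O x := by rw [O_act]; rfl

lemma un_act : Un (X.O (π.act σ x)) z ↔ Un (X.O x) (σ.symm z) := by rw [O_act, un_comap]; rfl

lemma act_one : π.act 1 x = x := X.O_inj (by ext z; rw [mem_act]; rfl)

lemma act_mul : π.act (σ * τ) x = π.act σ (π.act τ x) :=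
  X.O_inj (by ext z; simp only [mem_act]; rfl)

lemma act_inv_act : π.act σ⁻¹ (π.act σ x) = x := by rw [← act_mul, inv_mul_cancel, act_one]

lemma act_act_inv : π.act σ (π.act σ⁻¹ x) = x := by rw [← act_mul, mul_inv_cancel, act_one]

lemma p_act : π.p (π.act σ x) = π.p x :=
  π.mor.p_eq (by
    have : (X.O (π.act σ x)).comap π.mor.θ.toRingHom = (X.O x).comap (algebraMap L K) := by
      ext z
      change algebraMap L K z ∈ X.O (π.act σ x) ↔ algebraMap L K z ∈ X.O x
      rw [mem_act, AlgEquiv.commutes]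
    rw [this]; exact π.dom x)

lemma act_le (h : X.O x ≤ X.O x') : X.O (π.act σ x) ≤ X.O (π.act σ x') :=
  fun _ hz => π.mem_act.2 (h (π.mem_act.1 hz))

/-- Galois automorphisms as morphisms. -/
def actMor (σ : K ≃ₐ[L] K) : Mor X X :=
  ⟨(σ.restrictScalars ℂ).toAlgHom, π.act σ⁻¹, fun x => by rw [O_act]; exact Dom.refl⟩

variable [FiniteDimensional L K] [IsGalois L K]

lemma trans (h : π.p x = π.p x') : ∃ σ, π.act σ x = x' := by
  classical
  have h1 := fun σ => π.le_p_iff.1 (le_of_eq (congrArg Y.O (π.p_act (σ := σ) (x := x)).symm))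
  have h2 := π.le_p_iff.1 (le_of_eq (congrArg Y.O h))
  obtain ⟨σ, -, hσ⟩ := (Ideal.subset_union_prime (s := Finset.univ) (I := mx (X.isLoc x') h2)
    (f := fun σ => mx (X.isLoc _) (h1 σ)) 1 1 fun _ _ _ _ => inferInstance).1 (by
      intro b hb
      by_contra h3
      simp only [Finset.coe_univ, mem_univ, iUnion_true, mem_iUnion, SetLike.mem_coe, mem_mx,
        not_exists, not_not, un_act] at h3
      have h4 : Un (X.O x) (algebraMap L K (Algebra.norm L (b : K))) := by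
        rw [Algebra.norm_eq_prod_automorphisms]
        exact Un.prod fun σ _ => h3 σ.symm
      have h5 : algebraMap L K (Algebra.norm L (b : K)) ∈ icl K (Y.O (π.p x)) := by
        rw [Algebra.norm_eq_prod_automorphisms]
        exact prod_mem fun σ _ => aut_mem_icl σ b.2
      have h6 := π.un (x := x') (by rw [← h]; exact π.of_un ((Y.nml _).of_icl h5) h4)
      rw [Algebra.norm_eq_prod_automorphisms, ← Finset.mul_prod_erase _ _ (Finset.mem_univ 1)] at h6
      exact hb (h6.of_mul (h2 b.2) (prod_mem fun σ _ => h2 (aut_mem_icl σ b.2))))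
  refine ⟨σ, π.incomp (π.p_act.trans h) ((π.locOf' (le_of_eq (congrArg Y.O π.p_act.symm))).le h2
    fun b hb hu => of_not_not fun h3 => hσ (x := ⟨b, hb⟩) h3 hu)⟩

lemma finite_fibre (y : Y.Pt) : {x | π.p x = y}.Finite := by
  obtain ⟨x, rfl⟩ := π.surj y
  exact (Set.finite_range fun σ => π.act σ x).subset fun x' hx' => π.trans hx'.symm

lemma exists_semiloc {D : X.PD →₀ ℤ} (hD : Cart D) (y : Y.Pt) :
    ∃ f, ∀ x, π.p x = y → LocEq D x f :=
  hD.exists_semiloc (π.finite_fibre y) (π.surj y) (R := icl K (Y.O y))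
    (fun x hx => hx ▸ π.locOf x) fun x hx x' hx' h => π.incomp (hx.trans hx'.symm) h

lemma O_p (E : X.PD) : Y.O (π.p E.1) = (X.O E.1).comap (algebraMap L K) := by
  refine le_antisymm (π.dom _).1 fun z hz => (Y.nml _).of_icl (π.mem_icl_of_fibre fun x hx => ?_)
  obtain ⟨σ, rfl⟩ := π.trans hx.symm
  rwa [mem_act, AlgEquiv.commutes]

lemma pd_p (E : X.PD) : Y.pd (π.p E.1) := by
  refine (Y.pd_iff _).2 (exists_isV_of_val (fun z => ?_) fun h => (isV E).ne_top ?_)
  · rw [O_p]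
    simpa using (isV E).val (algebraMap L K z)
  · refine eq_top_iff.2 fun z _ => (π.locOf _).1 ?_
    rw [h]
    letI : Algebra L (⊤ : Subring L) := (Subring.topEquiv.symm : L ≃+* _).toRingHom.toAlgebra
    haveI : IsScalarTower L (⊤ : Subring L) K := IsScalarTower.of_algebraMap_eq fun _ => rfl
    exact (Algebra.IsIntegral.isIntegral (R := L) z).tower_top

/-- The map on prime divisors. -/
def pP (E : X.PD) : Y.PD := ⟨π.p E.1, π.pd_p E⟩

lemma exists_e (E : X.PD) :
    ∃ e : ℕ, 0 < e ∧ ∀ f, X.ord (algebraMap L K f) E.1 = e * Y.ord f (π.pP E).1 := by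
  simp only [ord_val]
  refine exists_ram _ (isV _).1 fun z => ?_
  rw [← (isV _).2, ← (isV _).2]
  exact SetLike.ext_iff.1 (π.O_p E) z

/-- Ramification index. -/
def e (E : X.PD) : ℕ := (π.exists_e E).choose

lemma e_pos (E : X.PD) : (0 : ℤ) < π.e E := by exact_mod_cast (π.exists_e E).choose_spec.1

lemma ord_alg (f : L) (E : X.PD) : X.ord (algebraMap L K f) E.1 = π.e E * Y.ord f (π.pP E).1 :=
  (π.exists_e E).choose_spec.2 f

lemma pP_surj (E : Y.PD) : ∃ F, π.pP F = E := by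
  obtain ⟨x, hx⟩ := π.surj E.1
  obtain ⟨t, h0, ht⟩ := exists_unif (isV E).1
  have h1 : t ∈ Y.O (π.p x) := hx ▸ ((isV E).mem_iff h0).2 (by omega)
  have h2 : algebraMap L K t⁻¹ ∉ X.O x := fun h => by
    have h3 := π.of_un h1 ⟨(map_ne_zero _).2 h0, π.mem h1, by rwa [← map_inv₀]⟩
    rw [hx, (isV E).un_iff] at h3
    omega
  by_contra! h3
  refine h2 (hartogs fun F hF => absurd (pd_eq ?_).symm (h3 F))
  exact hx ▸ π.mono hF

lemma isV_act (σ : K ≃ₐ[L] K) (E : X.PD) :
    IsV ((val E).comap σ.symm.toRingEquiv.toRingHom) (X.O (π.act σ E.1)) :=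
  ⟨(isV E).1.comp σ.symm.surjective, fun z => by rw [mem_act, (isV E).2]; rfl⟩

/-- The action on prime divisors. -/
def actP (σ : K ≃ₐ[L] K) : X.PD ≃ X.PD where
  toFun E := ⟨π.act σ E.1, (X.pd_iff _).2 ⟨_, π.isV_act σ E⟩⟩
  invFun E := ⟨π.act σ⁻¹ E.1, (X.pd_iff _).2 ⟨_, π.isV_act σ⁻¹ E⟩⟩
  left_inv _ := Subtype.ext π.act_inv_act
  right_inv _ := Subtype.ext π.act_act_inv

lemma ord_act (σ : K ≃ₐ[L] K) (f : K) (E : X.PD) : X.ord (σ f) (π.actP σ E).1 = X.ord f E.1 := by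
  rw [ord_val f]
  refine (X.ord_eq _ _ (π.isV_act σ E) _).trans ?_
  simp [od]

lemma pP_act (σ : K ≃ₐ[L] K) (E : X.PD) : π.pP (π.actP σ E) = π.pP E := Subtype.ext π.p_act

lemma finite_fibreP (E : Y.PD) : {F | π.pP F = E}.Finite :=
  ((π.finite_fibre E.1).preimage Subtype.val_injective.injOn).subset
    fun F hF => congrArg Subtype.val hF

end IC

end Var

end Pool.Agent.Lib.MP_e39d36_ag
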