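import Pool.Agent.Lib.MP_e39d36_ag.Cover1

open Set WithZero Finsupp

set_option linter.unusedSectionVars false
set_option linter.style.haveILetI false
set_option linter.unusedVariables false

noncomputable section

namespace Pool.Agent.Lib.MP_e39d36_ag

variable {K L : Type} [Field K] [Field L] [Algebra L K] [Algebra ℂ K] [Algebra ℂ L]
  [IsScalarTower ℂ L K]

namespace Var

variable {X : Var K} {Y : Var L}

/-- Movable divisors. -/
def Mov (D : X.PD →₀ ℤ) : Prop :=
  ∀ E : X.PD, ∃ f : K, f ≠ 0 ∧ (∀ F : X.PD, 0 ≤ D F + X.ord f F.1) ∧ D E + X.ord f E.1 = 0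

/-- Functions of order at least `n`. -/
def ordGe (E : X.PD) (n : ℤ) : Submodule ℂ K where
  carrier := {f | f = 0 ∨ n ≤ X.ord f E.1}
  zero_mem' := Or.inl rfl
  add_mem' := by
    rintro a b ha hb
    by_cases h1 : a = 0
    · simpa [h1] using hb
    by_cases h2 : b = 0
    · simpa [h2] using ha
    by_cases h3 : a + b = 0
    · exact Or.inl h3
    right
    simp only [ord_val] at ha hb ⊢
    exact (le_min (ha.resolve_left h1) (hb.resolve_left h2)).trans (od_add h1 h2 h3)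
  smul_mem' := by
    rintro c a ha
    by_cases h1 : c • a = 0
    · exact Or.inl h1
    right
    rw [smul_eq_zero, not_or] at h1
    rw [Algebra.smul_def, ord_mul (X.un_const E.1 h1.1).1 h1.2, ord_un (X.un_const _ h1.1),
      zero_add]
    exact ha.resolve_left h1.2

lemma Mov.exists_finite {D : X.PD →₀ ℤ} (h : Mov D) {S : Set X.PD} (hS : S.Finite)
    (hne : S.Nonempty) :
    ∃ f : K, f ≠ 0 ∧ (∀ F : X.PD, 0 ≤ D F + X.ord f F.1) ∧ ∀ E ∈ S, D E + X.ord f E.1 = 0 := by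
  haveI := hS.to_subtype
  obtain ⟨f, h1, h2⟩ := exists_avoid_sub (⨅ F, ordGe F (-D F))
    (fun E : S => ordGe E.1 (1 - D E)) fun E hE => by
      obtain ⟨f, h1, h2, h3⟩ := h E
      rcases hE ((Submodule.mem_iInf _).2 fun F => Or.inr (by linarith [h2 F])) with h4 | h4
      · exact h1 h4
      · omega
  obtain ⟨E₀, hE₀⟩ := hne
  have h0 : f ≠ 0 := fun h => h2 ⟨E₀, hE₀⟩ (Or.inl h)
  have h3 : ∀ F, 0 ≤ D F + X.ord f F.1 := fun F => by
    linarith [((Submodule.mem_iInf _).1 h1 F).resolve_left h0]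
  refine ⟨f, h0, h3, fun E hE => ?_⟩
  have h4 := h3 E
  have h5 : ¬1 - D E ≤ X.ord f E.1 := fun h => h2 ⟨E, hE⟩ (Or.inr h)
  omega

variable (X) in
/-- The maximal ideal as a subspace. -/
def nu (x : X.Pt) : Submodule ℂ K where
  carrier := {a | a ∈ X.O x ∧ ¬Un (X.O x) a}
  zero_mem' := ⟨zero_mem _, fun h => h.1 rfl⟩
  add_mem' := fun ha hb => ⟨add_mem ha.1 hb.1, fun h =>
    ((X.isLoc x).of_add ha.1 hb.1 h).elim ha.2 hb.2⟩
  smul_mem' := fun c a ha => ⟨X.smul_mem x c ha.1, fun h => ha.2 (by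
    rw [Algebra.smul_def] at h
    exact h.of_mul' (X.const_mem x c) ha.1)⟩

lemma pd_ext {E F : X.PD} (h : ∀ f, X.ord f E.1 = X.ord f F.1) : E = F :=
  pd_eq fun z hz => by
    by_cases h0 : z = 0
    · simp [h0]
    rw [(isV F).mem_iff h0, ← ord_val, ← h]
    exact ord_nonneg hz

namespace IC

variable (π : IC Y X) [FiniteDimensional L K] [IsGalois L K]

/-- Pull-back of Weil divisors. -/
def pull : (Y.PD →₀ ℤ) →+ (X.PD →₀ ℤ) where
  toFun D := Finsupp.ofSupportFinite (fun E => π.e E * D (π.pP E))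
    ((D.support.finite_toSet.biUnion fun E _ => π.finite_fibreP E).subset fun E hE =>
      mem_biUnion (x := π.pP E) (Finsupp.mem_support_iff.2 (right_ne_zero_of_mul hE)) rfl)
  map_zero' := by ext E; simp [Finsupp.ofSupportFinite_coe]
  map_add' D D' := by ext E; simp [Finsupp.ofSupportFinite_coe, mul_add]

lemma pull_apply (D : Y.PD →₀ ℤ) (E : X.PD) : π.pull D E = π.e E * D (π.pP E) := rfl

variable {D D' : Y.PD →₀ ℤ} {W : X.PD →₀ ℤ} {x : X.Pt} {σ : K ≃ₐ[L] K}

lemma pull_nonneg : 0 ≤ π.pull D ↔ 0 ≤ D := by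
  refine ⟨fun h E => ?_, fun h E => mul_nonneg (π.e_pos E).le (h _)⟩
  obtain ⟨F, rfl⟩ := π.pP_surj E
  exact nonneg_of_mul_nonneg_right' (h F) (π.e_pos F)
where nonneg_of_mul_nonneg_right' {a b : ℤ} (h : 0 ≤ a * b) (ha : 0 < a) : 0 ≤ b :=
  nonneg_of_mul_nonneg_right h ha

lemma pull_inj (h : π.pull D = π.pull D') : D = D' := by
  ext E
  obtain ⟨F, rfl⟩ := π.pP_surj E
  exact mul_left_cancel₀ (π.e_pos F).ne' (DFunLike.congr_fun h F)

lemma locEq_pull {f : L} (h : LocEq D (π.p x) f) : LocEq (π.pull D) x (algebraMap L K f) :=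
  .mk' ((map_ne_zero _).2 h.1) fun E hE => by
    rw [pull_apply, ord_alg, h.eq (E := π.pP E) (π.mono hE)]

lemma cart_pull (h : Cart D) : Cart (π.pull D) := fun x => ⟨_, π.locEq_pull (h.lf _)⟩

lemma mov_pull (h : Mov D) : Mov (π.pull D) := fun E => by
  obtain ⟨f, h1, h2, h3⟩ := h (π.pP E)
  refine ⟨algebraMap L K f, (map_ne_zero _).2 h1, fun F => ?_, ?_⟩
  · rw [pull_apply, ord_alg, ← mul_add]
    exact mul_nonneg (π.e_pos F).le (h2 _)
  · rw [pull_apply, ord_alg, ← mul_add, h3, mul_zero]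

/-- The action on Weil divisors. -/
def actD (σ : K ≃ₐ[L] K) (W : X.PD →₀ ℤ) : X.PD →₀ ℤ := equivMapDomain (π.actP σ) W

lemma actD_apply (E : X.PD) : π.actD σ W (π.actP σ E) = W E := by simp [actD]

lemma actD_apply' (E : X.PD) : π.actD σ W E = W (π.actP σ⁻¹ E) := rfl

lemma ord_act' (f : K) (E : X.PD) : X.ord (σ f) E.1 = X.ord f (π.actP σ⁻¹ E).1 := by
  rw [← π.ord_act σ f]
  exact congrArg (X.ord (σ f)) π.act_act_inv.symm

lemma locEq_act {f : K} (h : LocEq W (π.act σ⁻¹ x) f) : LocEq (π.actD σ W) x (σ f) :=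
  .mk' ((map_ne_zero _).2 h.1) fun E hE => by
    rw [actD_apply', π.ord_act', h.eq (π.act_le hE)]

lemma cart_act (h : Cart W) : Cart (π.actD σ W) := fun x => ⟨_, π.locEq_act (h.lf _)⟩

lemma e_act (E : X.PD) : π.e (π.actP σ E) = π.e E := by
  obtain ⟨t, -, ht⟩ := exists_unif (isV (π.pP E)).1
  have h1 := π.ord_act σ (algebraMap L K t) E
  rw [AlgEquiv.commutes, ord_alg, ord_alg, pP_act, ord_val, ht] at h1
  simpa using h1

lemma actD_pull : π.actD σ (π.pull D) = π.pull D := by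
  ext E
  rw [actD_apply', pull_apply, pull_apply, e_act, pP_act]

lemma exists_desc (h : ∀ y, ∃ f : L, ∀ x, π.p x = y → LocEq W x (algebraMap L K f)) :
    ∃ D, Cart D ∧ π.pull D = W := by
  choose f hf using h
  have h1 : ∀ y, ∀ E : X.PD, Y.O y ≤ Y.O (π.pP E).1 → W E = π.e E * Y.ord (f y) (π.pP E).1 := by
    intro y E hE
    obtain ⟨x, h2, h3⟩ := π.going_up hE
    rw [(hf y x h2).eq h3, ord_alg]
  have h2 : (Function.support fun E : Y.PD => Y.ord (f E.1) E.1).Finite := by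
    refine (W.support.finite_toSet.image π.pP).subset fun E hE => ?_
    obtain ⟨F, rfl⟩ := π.pP_surj E
    refine ⟨F, Finsupp.mem_support_iff.2 ?_, rfl⟩
    rw [h1 _ F le_rfl]
    exact mul_ne_zero (π.e_pos F).ne' hE
  refine ⟨Finsupp.ofSupportFinite _ h2, fun y => ⟨f y, .mk' ?_ fun E hE => ?_⟩, ?_⟩
  · obtain ⟨x, hx⟩ := π.surj y
    exact (map_ne_zero _).1 (hf y x hx).1
  · obtain ⟨F, rfl⟩ := π.pP_surj E
    exact mul_left_cancel₀ (π.e_pos F).ne' ((h1 _ F le_rfl).symm.trans (h1 y F hE))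
  · ext E
    exact (h1 _ E le_rfl).symm

lemma locEq_prod {ι : Type*} {s : Finset ι} {W : ι → X.PD →₀ ℤ} {f : ι → K}
    (h : ∀ i ∈ s, LocEq (W i) x (f i)) : LocEq (∑ i ∈ s, W i) x (∏ i ∈ s, f i) := by
  classical
  induction s using Finset.induction_on with
  | empty => simpa using locEq_zero
  | insert i s hi ih =>
    rw [Finset.sum_insert hi, Finset.prod_insert hi]
    exact (h i (Finset.mem_insert_self _ _)).add
      (ih fun j hj => h j (Finset.mem_insert_of_mem hj))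

/-- The norm of a Cartier divisor. -/
lemma exists_norm (h : Cart W) : ∃ D, Cart D ∧ π.pull D = ∑ σ, π.actD σ W :=
  π.exists_desc fun y => by
    obtain ⟨f, hf⟩ := π.exists_semiloc h y
    refine ⟨Algebra.norm L f, fun x hx => ?_⟩
    rw [Algebra.norm_eq_prod_automorphisms]
    exact locEq_prod fun σ _ => π.locEq_act (hf _ (π.p_act.trans hx))

lemma norm_nonneg (h : π.pull D = ∑ σ, π.actD σ W) (hW : 0 ≤ W) : 0 ≤ D :=
  π.pull_nonneg.1 (h ▸ Finset.sum_nonneg fun σ _ E => hW _)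

lemma norm_mov (h : π.pull D = ∑ σ, π.actD σ W) (hW : Mov W) : Mov D := fun E => by
  obtain ⟨f, h1, h2, h3⟩ := hW.exists_finite (π.finite_fibreP E) (π.pP_surj E)
  have key : ∀ F : X.PD, π.e F * (D (π.pP F) + Y.ord (Algebra.norm L f) (π.pP F).1) =
      ∑ σ : K ≃ₐ[L] K, (W (π.actP σ⁻¹ F) + X.ord f (π.actP σ⁻¹ F).1) := fun F => by
    rw [mul_add, ← pull_apply, ← ord_alg, h, Algebra.norm_eq_prod_automorphisms, ord_val,
      od_prod fun σ _ => (map_ne_zero σ).2 h1, Finset.sum_add_distrib, Finsupp.finsetSum_apply]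
    simp only [← ord_val, π.ord_act', actD_apply']
  refine ⟨Algebra.norm L f, Algebra.norm_ne_zero_iff.2 h1, fun F => ?_, ?_⟩
  · obtain ⟨F, rfl⟩ := π.pP_surj F
    exact nonneg_of_mul_nonneg_right (key F ▸ Finset.sum_nonneg fun σ _ => h2 _) (π.e_pos F)
  · obtain ⟨F, rfl⟩ := π.pP_surj E
    refine (mul_eq_zero.1 ((key F).trans ?_)).resolve_left (π.e_pos F).ne'
    exact Finset.sum_eq_zero fun σ _ => h3 _ (π.pP_act _ _)

/-- Trivial inertia groups. -/
def Free : Prop :=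
  ∀ x (σ : K ≃ₐ[L] K), (∀ a ∈ icl K (Y.O (π.p x)), ¬Un (X.O x) (σ a - a)) → σ = 1

lemma cart_of_pull (hπ : π.Free) (h : Cart (π.pull D)) : Cart D := by
  suffices ∃ D', Cart D' ∧ π.pull D' = π.pull D by
    obtain ⟨D', h1, h2⟩ := this
    exact π.pull_inj h2 ▸ h1
  refine π.exists_desc fun y => ?_
  obtain ⟨f, hf⟩ := π.exists_semiloc h y
  have hc : ∀ σ : K ≃ₐ[L] K, ∀ x, π.p x = y → Un (X.O x) (σ f / f) := fun σ x hx =>
    (π.actD_pull ▸ π.locEq_act (hf _ (π.p_act.trans hx))).un (hf x hx)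
  let B : Submodule ℂ K :=
    { carrier := icl K (Y.O y)
      zero_mem' := zero_mem _
      add_mem' := add_mem
      smul_mem' := fun c a ha => by
        rw [Algebra.smul_def, IsScalarTower.algebraMap_apply ℂ L K]
        exact mul_mem (alg_mem_icl (Y.const_mem y c)) ha }
  let u : K →ₗ[ℂ] K := ∑ σ : K ≃ₐ[L] K, (σ f / f) • (σ.restrictScalars ℂ).toLinearMap
  have hu : ∀ b, u b = ∑ σ : K ≃ₐ[L] K, σ f / f * σ b := fun b => by simp [u]
  haveI := (π.finite_fibre y).to_subtype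
  obtain ⟨b, hb, hb'⟩ := exists_avoid_sub B
    (fun x : {x | π.p x = y} => (X.nu x.1).comap u) (by
      rintro ⟨x, rfl⟩ hx
      haveI := (X.isLoc x).isLocalRing
      have h1 := (π.locOf x).1
      let χ : (K ≃ₐ[L] K) → icl K (Y.O (π.p x)) →* IsLocalRing.ResidueField (X.O x) := fun σ =>
        { toFun := fun a => IsLocalRing.residue _ ⟨σ a, h1 (aut_mem_icl σ a.2)⟩
          map_one' := by rw [← map_one (IsLocalRing.residue (X.O x))]; congr 1; ext; simp
          map_mul' := fun a b => by rw [← map_mul]; congr 1; ext; simp }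
      have hχ : Function.Injective χ := fun σ τ hστ => by
        refine mul_inv_eq_one.1 (hπ x _ fun a ha hu => ?_)
        have h2 := DFunLike.congr_fun hστ ⟨τ.symm a, aut_mem_icl _ ha⟩
        have h3 := (Ideal.Quotient.eq.1 h2 : _ ∈ IsLocalRing.maximalIdeal (X.O x))
        refine h3 (isUnit_iff_un.2 ?_)
        simpa using hu
      have h2 := Fintype.linearIndependent_iff.1
        ((linearIndependent_monoidHom _ _).comp χ hχ)
        (fun σ => IsLocalRing.residue _ ⟨_, (hc σ x rfl).2.1⟩) (by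
          ext a
          have h3 := hx a.2
          have h4 := (IsLocalRing.residue_eq_zero_iff (⟨_, h3.1⟩ : X.O x)).2
            fun h => h3.2 (isUnit_iff_un.1 h)
          rw [Pi.zero_apply, ← h4, Finset.sum_apply]
          simp only [χ, Function.comp_apply, Pi.smul_apply, smul_eq_mul, MonoidHom.coe_mk,
            OneHom.coe_mk, ← map_mul, ← map_sum]
          congr 1
          ext
          simp [hu]) 1
      exact (IsLocalRing.residue_eq_zero_iff _).1 h2 (isUnit_iff_un.2 (hc 1 x rfl)))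
  refine ⟨Algebra.trace L K (f * b), fun x hx => (hf x hx).of_un ?_⟩
  have h1 : algebraMap L K (Algebra.trace L K (f * b)) / f = u b := by
    rw [trace_eq_sum_automorphisms, hu, Finset.sum_div]
    exact Finset.sum_congr rfl fun σ _ => by rw [map_mul]; ring
  rw [h1]
  refine of_not_not fun h2 => hb' ⟨x, hx⟩ ⟨?_, h2⟩
  rw [hu]
  subst hx
  exact sum_mem fun σ _ => mul_mem (hc σ x rfl).2.1 ((π.locOf x).1 (aut_mem_icl σ hb))

lemma exists_desc_aut (z : K ≃+* K) (ψ : L ≃+* L)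
    (hψ : ∀ f, algebraMap L K (ψ f) = z (algebraMap L K f)) (e : X.PD ≃ X.PD)
    (he : ∀ f E, X.ord (z f) (e E).1 = X.ord f E.1) :
    ∃ e' : Y.PD ≃ Y.PD, (∀ f E, Y.ord (ψ f) (e' E).1 = Y.ord f E.1) ∧
      ∀ D, π.pull (equivMapDomain e' D) = equivMapDomain e (π.pull D) := by
  have h1 : ∀ f E, Y.ord (ψ f) (π.pP (e E)).1 = Y.ord f (π.pP E).1 := fun f E => by
    simp only [ord_val]
    refine od_eq_of_equiv ψ (isV _).1 (isV _).1 (fun a => ?_) f
    by_cases h0 : a = 0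
    · simp [h0]
    rw [← od_nonneg_iff h0, ← od_nonneg_iff ((map_ne_zero ψ).2 h0), ← ord_val, ← ord_val,
      ← mul_nonneg_iff_of_pos_left (π.e_pos E), ← ord_alg, ← he, ← hψ, ord_alg,
      mul_nonneg_iff_of_pos_left (π.e_pos _)]
  choose s hs using π.pP_surj
  have h2 : ∀ f E, Y.ord (ψ f) (π.pP (e (s E))).1 = Y.ord f E.1 := fun f E => by rw [h1, hs]
  have h3 : ∀ E, π.pP (e (s (π.pP E))) = π.pP (e E) := fun E => pd_ext fun f => by
    obtain ⟨f, rfl⟩ := ψ.surjective f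
    rw [h2, h1]
  let e' : Y.PD ≃ Y.PD := Equiv.ofBijective (fun E => π.pP (e (s E))) ⟨fun E F h => pd_ext
    fun f => by rw [← h2, ← h2 f F]; exact congrArg (fun E : Y.PD => Y.ord (ψ f) E.1) h,
    fun F => ⟨π.pP (e.symm (s F)), by simp only [h3, Equiv.apply_symm_apply, hs]⟩⟩
  refine ⟨e', h2, fun D => ?_⟩
  ext E
  obtain ⟨E, rfl⟩ := e.surjective E
  have h4 : π.pP (e E) = e' (π.pP E) := (h3 E).symm
  have h5 : π.e (e E) = π.e E := by
    obtain ⟨t, -, ht⟩ := exists_unif (isV (π.pP E)).1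
    have h6 := he (algebraMap L K t) E
    rw [← hψ, ord_alg, ord_alg, h1, ord_val, ht] at h6
    simpa using h6
  simp [pull_apply, h4, h5]

end IC

end Var

end Pool.Agent.Lib.MP_e39d36_ag
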