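import Mathlib

open AlgebraicGeometry CategoryTheory Order WithZero
open scoped NNReal

noncomputable section

namespace Pool.Agent.Lib.MP_e39d36_ag

attribute [local instance] MvPolynomial.gradedAlgebra

/-- `X` is a closed subscheme of a complex projective space. -/
def IsProjective {X : Scheme.{0}} (s : X ⟶ Spec (.of ℂ)) : Prop :=
  ∃ (n : ℕ) (ι : X ⟶ Proj (MvPolynomial.homogeneousSubmodule (Fin (n + 1)) ℂ)),
    IsClosedImmersion ι ∧
      ι ≫ Proj.toSpecZero _ ≫ Spec.map (CommRingCat.ofHom (algebraMap ℂ _)) = s

/-- The function field extension of a dominant morphism is Galois. -/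
def IsGaloisCover {X Y : Scheme.{0}} [IsIntegral X] [IsIntegral Y] (π : X ⟶ Y)
    [IsDominant π] : Prop :=
  @IsGalois Y.functionField _ X.functionField _
    (Y.presheaf.stalkSpecializes
      ((((genericPoint_spec X).image π.continuous).specializes
        (by simpa using π.denseRange (genericPoint Y)))) ≫
    π.stalkMap (genericPoint X)).hom.toAlgebra

variable (X : Scheme.{0}) [IsIntegral X] [IsLocallyNoetherian X]

/-- Prime divisors: points of codimension one. -/
abbrev PD : Type := {E : X // coheight E = 1}

variable {X}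

/-- `f` is a local equation at `x` of the Weil divisor `D`. -/
def LocEq (D : PD X →₀ ℤ) (x : X) (f : X.functionField) : Prop :=
  f ≠ 0 ∧ ∀ E : PD X, E.1 ⤳ x → D E = X.ord f E.1

variable (X) in
/-- Cartier divisors: locally principal Weil divisors. -/
abbrev CDiv : Type := {D : PD X →₀ ℤ // ∀ x, ∃ f, LocEq D x f}

/-- Value in the residue field at `c` of a rational function regular at `c`. -/
def ev (c : X) : X.functionField → X.residueField c :=
  Function.extend (algebraMap (X.presheaf.stalk c) X.functionField) (X.residue c) 0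

/-- The valuation `v` of the residue field at `c` has centre `x` on the closure of `c`. -/
def IsCentre (c : X) (v : Valuation (X.residueField c) ℤᵐ⁰) (x : X) : Prop :=
  c ⤳ x ∧ ∀ a : X.presheaf.stalk x,
    v (ev c (algebraMap _ _ a)) ≤ 1 ∧ (v (ev c (algebraMap _ _ a)) = 1 → IsUnit a)

/-- Intersection number with the curve with generic point `c`: the degree of the pull-back of
the divisor class to the normalisation of the curve. -/
def inter (D : PD X →₀ ℤ) (c : X) : ℤ :=
  ∑ᶠ p : {p : Valuation (X.residueField c) ℤᵐ⁰ × X //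
      Function.Surjective p.1 ∧ IsCentre c p.1 p.2},
    -log (p.1.1 (ev c (Classical.epsilon (LocEq D p.1.2) / Classical.epsilon (LocEq D c))))

variable (X) in
/-- Curves: points of dimension one. -/
abbrev Cv : Type := {c : X // height c = 1}

variable (X) in
/-- The span of the functions on the set of curves given by intersecting with Cartier divisors. -/
def NS : Submodule ℝ (Cv X → ℝ) :=
  Submodule.span ℝ (Set.range fun (D : CDiv X) c => (inter D.1 c.1 : ℝ))

variable (X) in
/-- Real Cartier divisors modulo numerical equivalence, as functions on the set of curves. -/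
abbrev N1 : Type := NS X

/-- Numerical class. -/
def cls (D : CDiv X) : N1 X := ⟨_, Submodule.subset_span ⟨D, rfl⟩⟩

/-- Convex cone spanned by the classes of a set of Cartier divisors. -/
def cone (S : Set (CDiv X)) : Set (N1 X) := Submodule.span ℝ≥0 (cls '' S)

/-- The complete linear system has no fixed component. -/
def Movable (D : CDiv X) : Prop :=
  ∀ E : PD X, ∃ f : X.functionField, f ≠ 0 ∧ (∀ F : PD X, 0 ≤ D.1 F + X.ord f F.1) ∧
    D.1 E + X.ord f E.1 = 0

variable (X) in
/-- The effective movable cone. -/
def MovE : Set (N1 X) := closure (cone {D | Movable D}) ∩ cone {D | 0 ≤ D.1}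

/-- `φ` is a birational automorphism (an automorphism of the function field over the constants),
an isomorphism in codimension one, and `L` is its pull-back map on `N1 X`. -/
def IsPull (s : X ⟶ Spec (.of ℂ)) (φ : RingAut X.functionField) (L : N1 X ≃ₗ[ℝ] N1 X) : Prop :=
  (∀ a, φ (X.presheaf.germ ⊤ (genericPoint X) trivial (s.appTop a)) =
    X.presheaf.germ ⊤ (genericPoint X) trivial (s.appTop a)) ∧
  ∃ (e : PD X ≃ PD X) (ε : CDiv X ≃ CDiv X), (∀ f E, X.ord (φ f) (e E).1 = X.ord f E.1) ∧
    (∀ D E, (ε D).1 (e E) = D.1 E) ∧ ∀ D, L (cls D) = cls (ε D)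

/-- The translates of `P` under birational automorphisms cover exactly the effective movable
cone. -/
def Covers (s : X ⟶ Spec (.of ℂ)) (P : Set (N1 X)) : Prop :=
  MovE X = ⋃ (φ) (L) (_ : IsPull s φ L), L '' P

/-- The group of birational automorphisms acting trivially on `N1 X` has a subgroup of finite
index that is abelian, divisible and has finite `n`-torsion for every `n`. -/
def TameKernel (s : X ⟶ Spec (.of ℂ)) : Prop :=
  ∃ (A : Subgroup (RingAut X.functionField)) (T : Finset (RingAut X.functionField)),
    (∀ a ∈ A, IsPull s a 1) ∧ (∀ φ, IsPull s φ 1 → ∃ t ∈ T, t⁻¹ * φ ∈ A) ∧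
    (∀ a ∈ A, ∀ b ∈ A, a * b = b * a) ∧
    ∀ n : ℕ, 0 < n → (∀ a ∈ A, ∃ b ∈ A, b ^ n = a) ∧ {a ∈ A | a ^ n = 1}.Finite

end Pool.Agent.Lib.MP_e39d36_ag
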