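import Pool.Agent.Lib.MP_e39d36_ag.Var
import Pool.Agent.Lib.MP_e39d36_ag.Fund

open Set WithZero Pool.Agent.Lib.MP_cc3443_ag

set_option linter.unusedSectionVars false
set_option linter.style.haveILetI false
set_option linter.unusedVariables false

noncomputable section

namespace Pool.Agent.Lib.MP_e39d36_ag

variable {K L F F' : Type} [Field K] [Algebra ℂ K] [Field L] [Algebra ℂ L] [Field F] [Algebra ℂ F]
  [Field F'] [Algebra ℂ F']

namespace Var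

/-- An `F`-valued point. -/
structure CMap (X : Var K) (F : Type) [Field F] [Algebra ℂ F] where
  c : X.Pt
  τ : K → F
  add : ∀ a ∈ X.O c, ∀ b ∈ X.O c, τ (a + b) = τ a + τ b
  mul : ∀ a ∈ X.O c, ∀ b ∈ X.O c, τ (a * b) = τ a * τ b
  const : ∀ a : ℂ, τ (algebraMap ℂ K a) = algebraMap ℂ F a
  zero : ∀ a ∈ X.O c, ¬Un (X.O c) a → τ a = 0

/-- A dominant morphism. -/
structure Mor (Y : Var L) (X : Var K) where
  θ : L →ₐ[ℂ] K
  p : X.Pt → Y.Pt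
  dom : ∀ x, Dom (Y.O (p x)) ((X.O x).comap θ.toRingHom)

variable {X : Var K} {Y : Var L}

lemma Mor.mem (m : Mor Y X) {x : X.Pt} {z : L} (h : z ∈ Y.O (m.p x)) : m.θ z ∈ X.O x :=
  (m.dom x).1 h

lemma Mor.un (m : Mor Y X) {x : X.Pt} {z : L} (h : Un (Y.O (m.p x)) z) : Un (X.O x) (m.θ z) :=
  un_comap.1 (h.mono (m.dom x).1)

lemma Mor.of_un (m : Mor Y X) {x : X.Pt} {z : L} (h : z ∈ Y.O (m.p x))
    (h' : Un (X.O x) (m.θ z)) : Un (Y.O (m.p x)) z :=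
  (m.dom x).2 z h (un_comap.2 h')

lemma Mor.mono (m : Mor Y X) {x y : X.Pt} (h : X.O x ≤ X.O y) : Y.O (m.p x) ≤ Y.O (m.p y) := by
  obtain ⟨z, h1, h2⟩ := exists_gen ((X.isLoc y).comap m.θ.toRingHom) (x := m.p x)
    fun a ha => h (m.mem ha)
  rwa [Y.sep _ _ _ ((X.isLoc y).comap _) h1 (m.dom y)] at h2

lemma Mor.p_eq (m : Mor Y X) {x : X.Pt} {y : Y.Pt}
    (h : Dom (Y.O y) ((X.O x).comap m.θ.toRingHom)) : m.p x = y :=
  Y.sep _ _ _ ((X.isLoc x).comap _) (m.dom x) h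

/-- A chosen local equation. -/
def lf (D : X.PD →₀ ℤ) (x : X.Pt) : K := Classical.epsilon (LocEq D x)

lemma Cart.lf {D : X.PD →₀ ℤ} (h : Cart D) (x : X.Pt) : LocEq D x (lf D x) :=
  Classical.epsilon_spec (h x)

namespace CMap

variable (γ : CMap X F)

/-- The ring homomorphism on the local ring. -/
def hom : X.O γ.c →+* F where
  toFun a := γ.τ a
  map_one' := by simpa using γ.const 1
  map_zero' := by simpa using γ.const 0
  map_mul' a b := γ.mul a a.2 b b.2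
  map_add' a b := γ.add a a.2 b b.2

lemma τ_one : γ.τ 1 = 1 := γ.hom.map_one

variable {γ} {a b : K}

lemma τ_inv (h : Un (X.O γ.c) a) : γ.τ a * γ.τ a⁻¹ = 1 := by
  rw [← γ.mul a h.2.1 _ h.2.2, mul_inv_cancel₀ h.1, τ_one]

lemma τ_ne (h : Un (X.O γ.c) a) : γ.τ a ≠ 0 := left_ne_zero_of_mul_eq_one (τ_inv h)

lemma τ_inv' (h : Un (X.O γ.c) a) : γ.τ a⁻¹ = (γ.τ a)⁻¹ := eq_inv_of_mul_eq_one_right (τ_inv h)

lemma un_of_ne (ha : a ∈ X.O γ.c) (h : γ.τ a ≠ 0) : Un (X.O γ.c) a :=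
  of_not_not fun h1 => h (γ.zero a ha h1)

lemma τ_prod {ι : Type*} {s : Finset ι} {f : ι → K} (h : ∀ i ∈ s, f i ∈ X.O γ.c) :
    γ.τ (∏ i ∈ s, f i) = ∏ i ∈ s, γ.τ (f i) := by
  classical
  induction s using Finset.induction_on with
  | empty => simpa using γ.τ_one
  | insert i s hi ih =>
    rw [Finset.prod_insert hi, Finset.prod_insert hi, γ.mul _ (h i (Finset.mem_insert_self _ _)) _
      (prod_mem fun j hj => h j (Finset.mem_insert_of_mem hj)),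
      ih fun j hj => h j (Finset.mem_insert_of_mem hj)]

variable (γ)

/-- The preimage of the ring of a place. -/
def T (P : Place F) : Subring K := (P.O.toSubring.comap γ.hom).map (X.O γ.c).subtype

variable {γ} {P : Place F}

lemma mem_T : a ∈ γ.T P ↔ a ∈ X.O γ.c ∧ γ.τ a ∈ P.O :=
  ⟨by rintro ⟨b, hb, rfl⟩; exact ⟨b.2, hb⟩, fun h => ⟨⟨a, h.1⟩, h.2, rfl⟩⟩

lemma un_T : Un (γ.T P) a ↔ Un (X.O γ.c) a ∧ Un P.O.toSubring (γ.τ a) := by
  constructor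
  · intro h
    have h1 : Un (X.O γ.c) a := h.mono fun _ h => (mem_T.1 h).1
    exact ⟨h1, τ_ne h1, (mem_T.1 h.2.1).2, τ_inv' h1 ▸ (mem_T.1 h.2.2).2⟩
  · rintro ⟨h1, h2⟩
    exact ⟨h1.1, mem_T.2 ⟨h1.2.1, h2.2.1⟩, mem_T.2 ⟨h1.2.2, τ_inv' h1 ▸ h2.2.2⟩⟩

lemma isLoc_T : IsLoc (γ.T P) := fun a ha => by
  obtain ⟨h1, h2⟩ := mem_T.1 ha
  refine (isLoc_of_val (R := P.O.toSubring) P.O.mem_or_inv_mem _ h2).imp
    (fun h => un_T.2 ⟨un_of_ne h1 h.1, h⟩) fun h => ?_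
  have h3 : γ.τ (1 - a) = 1 - γ.τ a := by
    rw [← γ.τ_one]; exact γ.hom.map_sub 1 ⟨a, h1⟩
  rw [← h3] at h
  exact un_T.2 ⟨un_of_ne (sub_mem (one_mem _) h1) h.1, h⟩

variable (γ P)

lemma exists_ctr : ∃ x, Dom (X.O x) (γ.T P) := by
  obtain ⟨i, hi⟩ := X.compl γ.c (γ.T P) (fun _ h => (mem_T.1 h).1)
    (fun a => mem_T.2 ⟨X.const_mem _ a, γ.const a ▸ P.const a⟩) fun z hz hz' => by
      have h1 : γ.τ z ∉ P.O := fun h => hz' (mem_T.2 ⟨hz, h⟩)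
      have h2 := un_of_ne hz fun h => h1 (h ▸ zero_mem _)
      exact ⟨h2, mem_T.2 ⟨h2.2.2, τ_inv' h2 ▸ (P.O.mem_or_inv_mem _).resolve_left h1⟩⟩
  exact (exists_centre isLoc_T hi).imp fun _ h => h.1

/-- The centre of a place. -/
def ctr : X.Pt := (γ.exists_ctr P).choose

lemma dom_ctr : Dom (X.O (γ.ctr P)) (γ.T P) := (γ.exists_ctr P).choose_spec

lemma ctr_le : X.O (γ.ctr P) ≤ X.O γ.c := fun _ h => (mem_T.1 ((γ.dom_ctr P).1 h)).1

variable {γ P}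

lemma ctr_eq {x : X.Pt} (h : Dom (X.O x) (γ.T P)) : γ.ctr P = x :=
  X.sep _ _ _ isLoc_T (γ.dom_ctr P) h

/-- Composition with a field extension. -/
def map (γ : CMap X F) (j : F →ₐ[ℂ] F') : CMap X F' where
  c := γ.c
  τ z := j (γ.τ z)
  add a ha b hb := by rw [γ.add a ha b hb, map_add]
  mul a ha b hb := by rw [γ.mul a ha b hb, map_mul]
  const a := by rw [γ.const, j.commutes]
  zero a ha h := by rw [γ.zero a ha h, map_zero]

/-- Composition with a morphism. -/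
def push (γ : CMap X F) (m : Mor Y X) : CMap Y F where
  c := m.p γ.c
  τ z := γ.τ (m.θ z)
  add a ha b hb := by rw [map_add, γ.add _ (m.mem ha) _ (m.mem hb)]
  mul a ha b hb := by rw [map_mul, γ.mul _ (m.mem ha) _ (m.mem hb)]
  const a := by rw [m.θ.commutes, γ.const]
  zero a ha h := γ.zero _ (m.mem ha) fun h1 => h (m.of_un ha h1)

lemma ctr_push (m : Mor Y X) : (γ.push m).ctr P = m.p (γ.ctr P) := by
  refine ctr_eq ⟨fun z hz => mem_T.2 ⟨m.mono (γ.ctr_le P) hz,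
    (mem_T.1 ((γ.dom_ctr P).1 (m.mem hz))).2⟩, fun z hz hu => m.of_un hz ?_⟩
  obtain ⟨h1, h2⟩ := un_T.1 hu
  exact (γ.dom_ctr P).2 _ (m.mem hz) (un_T.2 ⟨m.un h1, h2⟩)

lemma exists_factor (γ : CMap X F') (γ₀ : CMap X F) (hc : γ.c = γ₀.c)
    (hs : ∀ w, ∃ a ∈ X.O γ₀.c, γ₀.τ a = w) :
    ∃ j : F →ₐ[ℂ] F', ∀ a ∈ X.O γ₀.c, γ.τ a = j (γ₀.τ a) := by
  obtain ⟨c, τ, h1, h2, h3, h4⟩ := γ
  cases hc
  let γ : CMap X F' := ⟨γ₀.c, τ, h1, h2, h3, h4⟩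
  have hs' : Function.Surjective γ₀.hom := fun w => by
    obtain ⟨a, ha, h⟩ := hs w
    exact ⟨⟨a, ha⟩, h⟩
  let j := γ₀.hom.liftOfSurjective hs' ⟨γ.hom, fun a ha =>
    h4 a a.2 fun hu => τ_ne hu ha⟩
  have hj : ∀ a, j (γ₀.hom a) = γ.hom a := fun a => RingHom.liftOfRightInverse_comp_apply _ _ _ _ a
  refine ⟨⟨j, fun a => ?_⟩, fun a ha => (hj ⟨a, ha⟩).symm⟩
  rw [← γ₀.const a, ← h3 a]
  exact hj ⟨_, X.const_mem _ a⟩

variable [IsFF F] [IsFF F']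

lemma ord_un (h : Un (X.O (γ.ctr P)) a) : P.ord (γ.τ a) = 0 :=
  ((place_isV P).un_iff.1 (un_T.1 (h.mono (γ.dom_ctr P).1)).2).2

lemma ctr_map (j : F →ₐ[ℂ] F') (Q : Place F') : (γ.map j).ctr Q = γ.ctr (resP j Q) :=
  ctr_eq (by
    have : (γ.map j).T Q = γ.T (resP j Q) := by
      ext z; rw [mem_T, mem_T]; rfl
    rw [this]; exact γ.dom_ctr _)

/-- The degree of a Cartier divisor along an `F`-valued point. -/
def deg (γ : CMap X F) (D : X.PD →₀ ℤ) : ℤ :=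
  ∑ᶠ P : Place F, P.ord (γ.τ (lf D (γ.ctr P) / lf D γ.c))

variable {D D' : X.PD →₀ ℤ}

lemma finite_supp {f : Place F → K} {g : K} (hf : ∀ P, LocEq D (γ.ctr P) (f P))
    (hg : LocEq D γ.c g) : {P : Place F | P.ord (γ.τ (f P / g)) ≠ 0}.Finite := by
  have h1 : ∀ i : X.ι, ∃ r, (X.A i).toSubring ≤ X.O γ.c → r ∈ (X.A i).toSubring ∧
      Un (X.O γ.c) r ∧ ∀ E : X.PD, (X.A i).toSubring ≤ X.O E.1 → D E ≠ X.ord g E.1 →
        1 ≤ X.ord r E.1 := by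
    intro i
    by_cases hi : (X.A i).toSubring ≤ X.O γ.c
    · obtain ⟨r, h1, h2, h3⟩ := exists_fix (locOf_of_le hi)
        (S := {E | (X.A i).toSubring ≤ X.O E.1 ∧ D E ≠ X.ord g E.1})
        ((D - X.div g).support.finite_toSet.subset fun E hE => by simpa [sub_eq_zero] using hE.2)
        (fun E hE => hE.1) (fun E hE h => hE.2 (hg.eq h)) fun _ => 1
      exact ⟨r, fun _ => ⟨h1, h2, fun E h4 h5 => h3 E ⟨h4, h5⟩⟩⟩
    · exact ⟨0, fun h => absurd h hi⟩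
  choose r hr using h1
  refine (Set.finite_iUnion fun i => Place.finite_ord (γ.τ (r i))).subset fun P hP => ?_
  by_contra h2
  simp only [mem_iUnion, mem_ofPred_eq, not_exists, not_not] at h2
  obtain ⟨i, hi⟩ := X.chart (γ.ctr P)
  obtain ⟨h3, h4, h5⟩ := hr i (hi.1.trans (γ.ctr_le P))
  have h6 : Un (X.O (γ.ctr P)) (r i) := (γ.dom_ctr P).2 _ (hi.1 h3)
    (un_T.2 ⟨h4, (place_isV P).un_iff.2 ⟨τ_ne h4, h2 i⟩⟩)
  refine hP (ord_un ((hf P).un (.mk' hg.1 fun E hE => ?_)))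
  by_contra h7
  have := h5 E (hi.1.trans hE) h7
  rw [Var.ord_un (h6.mono hE)] at this
  omega

lemma deg_eq (hD : Cart D) {f : Place F → K} {g : K} (hf : ∀ P, LocEq D (γ.ctr P) (f P))
    (hg : LocEq D γ.c g) : γ.deg D = ∑ᶠ P : Place F, P.ord (γ.τ (f P / g)) := by
  have h1 := hg.un (hD.lf γ.c)
  have h2 : ∀ P : Place F, P.ord (γ.τ (lf D (γ.ctr P) / lf D γ.c)) =
      P.ord (γ.τ (f P / g)) + P.ord (γ.τ (g / lf D γ.c)) := fun P => by
    have h3 := (hD.lf (γ.ctr P)).un (hf P)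
    have h4 := ((hf P).mono (γ.ctr_le P)).un hg
    have h5 := h3.mono (γ.ctr_le P)
    have h6 : lf D (γ.ctr P) / lf D γ.c = lf D (γ.ctr P) / f P * (f P / g * (g / lf D γ.c)) := by
      have := (hf P).1
      have := hg.1
      field_simp
    rw [h6, γ.mul _ h5.2.1 _ (h4.mul h1).2.1, γ.mul _ h4.2.1 _ h1.2.1,
      P.ord_mul (τ_ne h5) (mul_ne_zero (τ_ne h4) (τ_ne h1)), P.ord_mul (τ_ne h4) (τ_ne h1),
      ord_un h3, zero_add]
  rw [deg]
  simp only [h2]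
  rw [finsum_add_distrib (finite_supp hf hg) (Place.finite_ord _), prod_formula, add_zero]

lemma deg_add (hD : Cart D) (hD' : Cart D') : γ.deg (D + D') = γ.deg D + γ.deg D' := by
  rw [deg_eq (hD.add hD') (fun P => (hD.lf _).add (hD'.lf _)) ((hD.lf _).add (hD'.lf _)), deg, deg,
    ← finsum_add_distrib (finite_supp (fun _ => hD.lf _) (hD.lf _))
      (finite_supp (fun _ => hD'.lf _) (hD'.lf _))]
  refine finsum_congr fun P => ?_
  have h1 := ((hD.lf _).mono (γ.ctr_le P)).un (hD.lf _)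
  have h2 := ((hD'.lf _).mono (γ.ctr_le P)).un (hD'.lf _)
  rw [mul_div_mul_comm, γ.mul _ h1.2.1 _ h2.2.1, P.ord_mul (τ_ne h1) (τ_ne h2)]

lemma deg_div {f : K} (hf : f ≠ 0) : γ.deg (X.div f) = 0 := by
  rw [deg_eq (cart_div hf) (fun _ => locEq_div hf) (locEq_div hf)]
  simp [hf, τ_one]

lemma deg_zero : γ.deg 0 = 0 := by
  rw [deg_eq cart_zero (fun _ => locEq_zero) locEq_zero]
  simp [τ_one]

lemma deg_neg (hD : Cart D) : γ.deg (-D) = -γ.deg D := by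
  have := deg_add (γ := γ) hD hD.neg
  rw [add_neg_cancel, deg_zero] at this
  omega

lemma deg_nsmul (hD : Cart D) (n : ℕ) : γ.deg (n • D) = n * γ.deg D := by
  induction n with
  | zero => simpa using deg_zero
  | succ n ih => rw [succ_nsmul, deg_add (hD.nsmul n) hD, ih]; push_cast; ring

lemma deg_sum {ι : Type*} {s : Finset ι} {D : ι → X.PD →₀ ℤ} (h : ∀ i ∈ s, Cart (D i)) :
    γ.deg (∑ i ∈ s, D i) = ∑ i ∈ s, γ.deg (D i) := by
  classical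
  induction s using Finset.induction_on with
  | empty => simpa using deg_zero
  | insert i s hi ih =>
    rw [Finset.sum_insert hi, Finset.sum_insert hi, deg_add (h i (Finset.mem_insert_self _ _))
      (Cart.sum fun j hj => h j (Finset.mem_insert_of_mem hj)),
      ih fun j hj => h j (Finset.mem_insert_of_mem hj)]

lemma deg_nonneg (hD : Cart D) (h0 : 0 ≤ D) (hc : ∀ E : X.PD, X.O γ.c ≤ X.O E.1 → D E = 0) :
    0 ≤ γ.deg D := by
  rw [deg_eq hD (fun _ => hD.lf _) (g := 1) (.mk' one_ne_zero fun E hE => by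
    simp [hc E hE, ord_val])]
  refine finsum_nonneg fun P => (place_isV P).od_nonneg ?_
  rw [div_one]
  exact (mem_T.1 ((γ.dom_ctr P).1 ((hD.lf _).mem h0))).2

lemma deg_congr {γ γ' : CMap X F} (hc : γ.c = γ'.c) (h : ∀ a ∈ X.O γ.c, γ.τ a = γ'.τ a)
    (hD : Cart D) : γ.deg D = γ'.deg D := by
  have h1 : ∀ P, γ.ctr P = γ'.ctr P := fun P => ctr_eq (by
    have : γ.T P = γ'.T P := by
      ext z
      rw [mem_T, mem_T, ← hc]
      exact and_congr_right fun hz => by rw [h z hz]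
    rw [this]; exact γ'.dom_ctr P)
  refine finsum_congr fun P => ?_
  rw [← h1, ← hc, h _ (((hD.lf _).mono (γ.ctr_le P)).un (hD.lf _)).2.1]

lemma deg_push (m : Mor Y X) {D : Y.PD →₀ ℤ} {D' : X.PD →₀ ℤ} (hD : Cart D)
    (h : ∀ x f, LocEq D (m.p x) f → LocEq D' x (m.θ f)) : γ.deg D' = (γ.push m).deg D := by
  rw [deg_eq (fun x => ⟨_, h x _ (hD.lf _)⟩) (fun P => h _ _ (hD.lf _)) (h _ _ (hD.lf _)), deg]
  refine finsum_congr fun P => ?_
  rw [ctr_push, ← map_div₀]; rfl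

lemma exists_deg_factor (γ : CMap X F') (γ₀ : CMap X F) (hc : γ.c = γ₀.c)
    (hs : ∀ w, ∃ a ∈ X.O γ₀.c, γ₀.τ a = w) :
    ∃ n : ℕ, 0 < n ∧ ∀ D, Cart D → γ.deg D = n * γ₀.deg D := by
  obtain ⟨j, hj⟩ := exists_factor γ γ₀ hc hs
  obtain ⟨n, hn, h⟩ := exists_deg j
  refine ⟨n, hn, fun D hD => ?_⟩
  rw [deg_congr (γ' := γ₀.map j) hc (fun a ha => hj a (hc ▸ ha)) hD, deg, deg,
    ← h _ (finite_supp (fun _ => hD.lf _) (hD.lf _))]
  refine finsum_congr fun Q => ?_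
  rw [ctr_map]; rfl

end CMap

end Var

end Pool.Agent.Lib.MP_e39d36_ag
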