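import Pool.Agent.Lib.MP_e39d36_ag.Cons

open Set WithZero Pool.Agent.Lib.MP_cc3443_ag IntermediateField

set_option linter.unusedSectionVars false
set_option linter.style.haveILetI false
set_option linter.unusedVariables false

noncomputable section

namespace Pool.Agent.Lib.MP_e39d36_ag

variable {K F : Type} [Field K] [Algebra ℂ K] [Field F] [Algebra ℂ F]

lemma aeval_cons {k : ℕ} (a : Fin k → K) (b : K) (P : MvPolynomial (Fin (k + 1)) ℂ) :
    MvPolynomial.aeval (Fin.cons b a : Fin (k + 1) → K) P =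
      (MvPolynomial.finSuccEquiv ℂ k P).eval₂ (MvPolynomial.aeval a).toRingHom b := by
  induction P using MvPolynomial.induction_on with
  | C c => simp [MvPolynomial.finSuccEquiv_apply]
  | add p q hp hq => simp only [map_add, Polynomial.eval₂_add, hp, hq]
  | mul_X p i hp =>
    rw [map_mul, map_mul, Polynomial.eval₂_mul, hp]
    refine congrArg _ (Fin.cases ?_ (fun j => ?_) i)
    · simp [MvPolynomial.finSuccEquiv_X_zero]
    · simp [MvPolynomial.finSuccEquiv_X_succ]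

lemma essFin_of_frac (B : Subalgebra ℂ F) (hB : B.FG) (h : ∀ z, ∃ b ∈ B, b ≠ 0 ∧ b * z ∈ B) :
    Algebra.EssFiniteType ℂ F := by
  haveI : IsFractionRing B F := isFrac (R := B.toSubring) h
  haveI : Algebra.FiniteType ℂ B := ⟨(Subalgebra.fg_top _).2 hB⟩
  haveI := Algebra.EssFiniteType.of_isLocalization F (nonZeroDivisors B)
  exact Algebra.EssFiniteType.comp ℂ B F

lemma trdeg_of_isFF [IsFF F] : Algebra.trdeg ℂ F ≤ 1 := by
  obtain ⟨u, hu⟩ := IsFF.ex (K := F)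
  haveI := IsFF.fin u hu
  haveI : Algebra.IsAlgebraic (Algebra.adjoin ℂ {u}) F :=
    isAlgebraic_adjoin_iff_top.1 inferInstance
  simpa using Algebra.IsAlgebraic.trdeg_le_cardinalMk ℂ ({u} : Set F)

lemma isFF_of_trdeg [Algebra.EssFiniteType ℂ F] (h : Algebra.trdeg ℂ F ≤ 1)
    (h' : ∃ u : F, Transcendental ℂ u) : IsFF F := by
  refine ⟨h', fun v hv => ?_⟩
  have h1 : AlgebraicIndependent ℂ fun _ : Unit => v := algebraicIndependent_unique_type_iff.2 hv
  have h2 := (h1.isTranscendenceBasis_of_trdeg_le_of_finite (by simpa using h)).isAlgebraic_field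
  rw [range_const] at h2
  haveI := Algebra.EssFiniteType.of_comp ℂ ℂ⟮v⟯ F
  exact Algebra.finite_of_essFiniteType_of_isAlgebraic

namespace Var

variable {X : Var K} {x y c : X.Pt}

lemma aeval_mem {ι : Type} {a : ι → K} (h : ∀ i, a i ∈ X.O x) (P : MvPolynomial ι ℂ) :
    MvPolynomial.aeval a P ∈ X.O x := by
  induction P using MvPolynomial.induction_on with
  | C c => simpa using X.const_mem x c
  | add p q hp hq => rw [map_add]; exact add_mem hp hq
  | mul_X p i hp => rw [map_mul, MvPolynomial.aeval_X]; exact mul_mem hp (h i)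

lemma exists_un_of_lt (h : X.O x < X.O y) : ∃ b ∈ X.O x, Un (X.O y) b ∧ ¬Un (X.O x) b := by
  by_contra! h1
  exact h.not_ge ((locOf_of_sp h.le).le le_rfl h1)

/-- The residue field has transcendence degree at least `k`. -/
def Indep (x : X.Pt) (k : ℕ) : Prop :=
  ∃ a : Fin k → K, (∀ i, a i ∈ X.O x) ∧ ∀ P : MvPolynomial (Fin k) ℂ, P ≠ 0 →
    Un (X.O x) (MvPolynomial.aeval a P)

lemma indep_zero (x : X.Pt) : Indep x 0 := ⟨Fin.elim0, fun i => i.elim0, fun P hP => by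
  obtain ⟨a, rfl⟩ := MvPolynomial.C_surjective (Fin 0) P
  rw [MvPolynomial.aeval_C]
  exact X.un_const x fun h => hP (by simp [h])⟩

lemma Indep.mono {k : ℕ} (h : Indep x k) (hy : X.O x ≤ X.O y) : Indep y k := by
  obtain ⟨a, h1, h2⟩ := h
  exact ⟨a, fun i => hy (h1 i), fun P hP => (h2 P hP).mono hy⟩

lemma Indep.succ {k : ℕ} (h : Indep x k) (hy : X.O x < X.O y) : Indep y (k + 1) := by
  obtain ⟨a, h1, h2⟩ := h
  obtain ⟨b, h3, h4, h5⟩ := exists_un_of_lt hy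
  refine ⟨Fin.cons b a, Fin.cases (hy.le h3) fun i => hy.le (h1 i), fun P hP => ?_⟩
  rw [aeval_cons]
  obtain ⟨Q, h6, h7⟩ := Polynomial.exists_eq_pow_rootMultiplicity_mul_and_not_dvd
    (MvPolynomial.finSuccEquiv ℂ k P) (by simpa using hP) 0
  rw [map_zero, sub_zero] at h6 h7
  rw [h6, Polynomial.eval₂_mul, Polynomial.eval₂_X_pow, ← Q.X_mul_divX_add, add_comm (_ * _),
    Polynomial.eval₂_add, Polynomial.eval₂_C, Polynomial.eval₂_mul, Polynomial.eval₂_X]
  have h8 : Q.divX.eval₂ (MvPolynomial.aeval a).toRingHom b ∈ X.O x := by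
    rw [Polynomial.eval₂_eq_sum]
    exact sum_mem fun n _ => mul_mem (aeval_mem h1 _) (pow_mem h3 _)
  exact (h4.pow _).mul (((X.isLoc x).add_un (h2 _ (mt Polynomial.X_dvd_iff.2 h7))
    (mul_mem h3 h8) fun h => h5 (h.of_mul h3 h8)).mono hy.le)

lemma Indep.le_trdeg {k : ℕ} (γ : CMap X F) (h : Indep γ.c k) : k ≤ Algebra.trdeg ℂ F := by
  obtain ⟨a, h1, h2⟩ := h
  have h3 : ∀ P : MvPolynomial (Fin k) ℂ,
      MvPolynomial.aeval (fun i => γ.τ (a i)) P = γ.τ (MvPolynomial.aeval a P) := fun P => by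
    induction P using MvPolynomial.induction_on with
    | C c => simp [γ.const]
    | add p q hp hq => rw [map_add, map_add, γ.add _ (aeval_mem h1 _) _ (aeval_mem h1 _), hp, hq]
    | mul_X p i hp => simp [γ.mul _ (aeval_mem h1 _) _ (h1 i), hp]
  have h4 : AlgebraicIndependent ℂ fun i => γ.τ (a i) :=
    algebraicIndependent_iff.2 fun P hP => of_not_not fun h => CMap.τ_ne (h2 P h) (h3 P ▸ hP)
  simpa using h4.cardinalMk_le_trdeg

lemma exists_pt_prime (i : X.ι) (q : Ideal (X.A i).toSubring) [q.IsPrime] :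
    ∃ x, LocOf (X.A i).toSubring (X.O x) ∧ ∀ b : (X.A i).toSubring, Un (X.O x) b ↔ b ∉ q := by
  obtain ⟨T, h1, h2, h3⟩ := exists_locP q
  obtain ⟨x, rfl⟩ := X.pt i T h1 h2
  exact ⟨x, h2, h3⟩

/-- Generic points of curves. -/
def IsCurve (c : X.Pt) : Prop :=
  (∃ x, X.O x < X.O c) ∧ ¬∃ y x, X.O x < X.O y ∧ X.O y < X.O c

instance (x : X.Pt) : IsLocalRing (X.O x) := (X.isLoc x).isLocalRing

instance (x : X.Pt) : Algebra ℂ (X.O x) :=
  ((algebraMap ℂ K).codRestrict (X.O x) (X.const_mem x)).toAlgebra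

namespace CMap

/-- Surjectivity onto the field of values. -/
def Surj (γ : CMap X F) : Prop := ∀ w, ∃ a ∈ X.O γ.c, γ.τ a = w

open Classical in
/-- The residue map. -/
def res (x : X.Pt) : CMap X (IsLocalRing.ResidueField (X.O x)) where
  c := x
  τ z := if h : z ∈ X.O x then IsLocalRing.residue _ ⟨z, h⟩ else 0
  add a ha b hb := by
    rw [dif_pos ha, dif_pos hb, dif_pos (add_mem ha hb), ← map_add]; rfl
  mul a ha b hb := by
    rw [dif_pos ha, dif_pos hb, dif_pos (mul_mem ha hb), ← map_mul]; rfl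
  const a := by rw [dif_pos (X.const_mem x a)]; rfl
  zero a ha h := by
    rw [dif_pos ha]
    exact (IsLocalRing.residue_eq_zero_iff _).2 fun h1 => h (isUnit_iff_un.1 h1)

lemma res_surj (x : X.Pt) : (res x).Surj := fun w => by
  obtain ⟨a, rfl⟩ := IsLocalRing.residue_surjective w
  exact ⟨a, a.2, dif_pos a.2⟩

variable {γ : CMap X F}

lemma isCurve_of_isFF [IsFF F] (h : γ.Surj) : IsCurve γ.c := by
  refine ⟨?_, ?_⟩
  · obtain ⟨P⟩ : Nonempty (Place F) := inferInstance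
    refine ⟨γ.ctr P, (γ.ctr_le P).lt_of_ne fun h1 => P.ne_top (eq_top_iff.2 fun w _ => ?_)⟩
    obtain ⟨a, ha, rfl⟩ := h w
    exact (mem_T.1 ((γ.dom_ctr P).1 (h1 ▸ ha))).2
  · rintro ⟨y, x, h1, h2⟩
    have := (Indep.le_trdeg γ (((indep_zero x).succ h1).succ h2)).trans trdeg_of_isFF
    norm_num at this

lemma isFF_of_isCurve (h : γ.Surj) (hc : IsCurve γ.c) : IsFF F := by
  obtain ⟨⟨x, hx⟩, hc⟩ := hc
  obtain ⟨i, hi⟩ := X.chart γ.c
  let ψ : X.A i →ₐ[ℂ] F := ⟨γ.hom.comp (Subring.inclusion hi.1), γ.const⟩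
  have hψ : ∀ b, ψ b = γ.τ b := fun _ => rfl
  have hfr : ∀ z, ∃ b ∈ ψ.range, b ≠ 0 ∧ b * z ∈ ψ.range := fun z => by
    obtain ⟨a, ha, rfl⟩ := h z
    obtain ⟨b, h1, h2, h3⟩ := hi.2 a ha
    exact ⟨_, ⟨⟨b, h1⟩, rfl⟩, τ_ne h2, ⟨_, h3⟩, γ.mul _ h2.2.1 _ ha⟩
  haveI : Algebra.FiniteType ℂ (X.A i) := ⟨(Subalgebra.fg_top _).2 (X.fg i)⟩
  haveI : Algebra.FiniteType ℂ ψ.range :=
    Algebra.FiniteType.of_surjective ψ.rangeRestrict ψ.rangeRestrict_surjective
  haveI := essFin_of_frac ψ.range ((Subalgebra.fg_top _).1 Algebra.FiniteType.out) hfr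
  refine isFF_of_trdeg ?_ ?_
  · obtain ⟨s, g, hg, hg'⟩ := exists_integral_inj_algHom_of_fg ℂ ψ.range
    letI := g.toRingHom.toAlgebra
    haveI : Algebra.IsIntegral (MvPolynomial (Fin s) ℂ) ψ.range := ⟨hg'⟩
    haveI : IsScalarTower ℂ (MvPolynomial (Fin s) ℂ) ψ.range :=
      IsScalarTower.of_algebraMap_eq fun a => (g.commutes a).symm
    haveI : FaithfulSMul (MvPolynomial (Fin s) ℂ) ψ.range :=
      (faithfulSMul_iff_algebraMap_injective _ _).2 hg
    haveI : IsFractionRing ψ.range F := isFrac (R := ψ.range.toSubring) hfr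
    haveI := IsLocalization.isAlgebraic F (nonZeroDivisors ψ.range)
    rw [← trdeg_add_eq ℂ ψ.range, ← trdeg_add_eq ℂ (MvPolynomial (Fin s) ℂ) (A := ψ.range),
      trdeg_eq_zero (A := F), trdeg_eq_zero (A := ψ.range), MvPolynomial.trdeg_of_isDomain]
    by_contra h1
    obtain ⟨s, rfl⟩ : ∃ t, s = t + 2 := ⟨s - 2, by
      have : ¬s ≤ 1 := by simpa using h1
      omega⟩
    let φ : (Fin (s + 2) → MvPolynomial (Fin (s + 2)) ℂ) → Ideal (MvPolynomial (Fin (s + 2)) ℂ) :=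
      fun f => RingHom.ker (MvPolynomial.aeval (R := ℂ) f).toRingHom
    haveI : ∀ f, (φ f).IsPrime := fun f => RingHom.ker_isPrime _
    obtain ⟨q, -, hq, hq'⟩ := Ideal.exists_ideal_over_prime_of_isIntegral
      (φ (Function.update MvPolynomial.X 0 0)) (⊥ : Ideal ψ.range) (by
        exact (Ideal.comap_bot_of_injective g.toRingHom hg).le.trans bot_le)
    obtain ⟨q', hle, hp, hp'⟩ := Ideal.exists_ideal_over_prime_of_isIntegral (φ 0) q (by
      rw [hq']
      intro a ha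
      have h2 : (MvPolynomial.aeval (R := ℂ) (0 : Fin (s + 2) → MvPolynomial (Fin (s + 2)) ℂ)).comp
          (MvPolynomial.aeval (Function.update MvPolynomial.X 0 0)) = MvPolynomial.aeval 0 := by
        ext j : 1
        by_cases hj : j = 0 <;> simp [hj]
      change MvPolynomial.aeval _ a = 0 at ha ⊢
      rw [← h2, AlgHom.comp_apply, ha, map_zero])
    obtain ⟨y, h2, h3⟩ := exists_pt_prime i (q.comap ψ.rangeRestrict.toRingHom)
    obtain ⟨x, h4, h5⟩ := exists_pt_prime i (q'.comap ψ.rangeRestrict.toRingHom)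
    refine hc ⟨y, x, lt_of_le_not_ge (h4.le h2.1 fun b hb hu => (h3 ⟨b, hb⟩).2 fun h6 =>
      (h5 ⟨b, hb⟩).1 hu (hle h6)) fun h6 => ?_, lt_of_le_not_ge (h2.le hi.1 fun b hb hu =>
        un_of_ne (hi.1 hb) fun h6 => (h3 ⟨b, hb⟩).1 hu ?_) fun h6 => ?_⟩
    · obtain ⟨b, hb⟩ := ψ.rangeRestrict_surjective (g (MvPolynomial.X 1))
      refine (h5 b).1 (((h3 b).2 fun h7 => ?_).mono h6) ?_
      · have h8 : MvPolynomial.X 1 ∈ q.comap (algebraMap (MvPolynomial (Fin (s + 2)) ℂ) _) :=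
          (hb ▸ h7 : g _ ∈ q)
        rw [hq'] at h8
        simp [φ] at h8
      · have h8 : MvPolynomial.X 1 ∈ q'.comap (algebraMap (MvPolynomial (Fin (s + 2)) ℂ) _) := by
          rw [hp']; simp [φ]
        exact (hb.symm ▸ h8 : ψ.rangeRestrict b ∈ q')
    · have : ψ.rangeRestrict ⟨b, hb⟩ = 0 := Subtype.ext h6
      exact (this.symm ▸ q.zero_mem : ψ.rangeRestrict ⟨b, hb⟩ ∈ q)
    · obtain ⟨b, hb⟩ := ψ.rangeRestrict_surjective (g (MvPolynomial.X 0))
      refine (h3 b).1 ((un_of_ne (hi.1 b.2) fun h7 => ?_).mono h6) ?_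
      · exact MvPolynomial.X_ne_zero 0 (hg (hb.symm.trans ((Subtype.ext h7).trans (map_zero g).symm)))
      · have h8 : MvPolynomial.X 0 ∈ q.comap (algebraMap (MvPolynomial (Fin (s + 2)) ℂ) _) := by
          rw [hq']; simp [φ]
        exact (hb.symm ▸ h8 : ψ.rangeRestrict b ∈ q)
  · have h1 := Indep.le_trdeg γ ((indep_zero x).succ hx)
    exact (trdeg_ne_zero_iff.1 fun h2 => by simp [h2] at h1).1

lemma deg_eq_zero [IsFF F] (hc : ¬IsCurve γ.c) {D : X.PD →₀ ℤ} (hD : Cart D) : γ.deg D = 0 := by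
  obtain ⟨j, hj⟩ := exists_factor γ (res γ.c) rfl (res_surj _)
  refine finsum_eq_zero_of_forall_eq_zero fun P => ?_
  have h1 := ((hD.lf _).mono (γ.ctr_le P)).un (hD.lf _)
  rw [hj _ h1.2.1]
  generalize (res γ.c).τ _ = w
  have h2 : IsAlgebraic ℂ w := of_not_not fun h => hc
    (@isCurve_of_isFF _ _ _ _ _ _ _ (res γ.c) (finite_of_isFF j h).1 (res_surj _))
  obtain ⟨a, rfl⟩ := minpoly.mem_range_of_degree_eq_one ℂ w
    (IsAlgClosed.degree_eq_one_of_irreducible ℂ (minpoly.irreducible h2.isIntegral))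
  rw [j.commutes]
  by_cases ha : a = 0
  · simp [ha]
  · simp [Place.ord, P.val_const ha]

end CMap

lemma IC.isCurve {L : Type} [Field L] [Algebra ℂ L] [Algebra L K] [IsScalarTower ℂ L K] {Y : Var L}
    (π : IC Y X) : IsCurve (π.p x) ↔ IsCurve x := by
  have h1 : ∀ {x y}, X.O x < X.O y → Y.O (π.p x) < Y.O (π.p y) := fun h =>
    (π.mono h.le).lt_of_ne fun h2 => h.ne (congrArg _ (π.incomp (Y.O_inj h2) h.le))
  have h2 : ∀ {x y}, Y.O y < Y.O (π.p x) → ∃ z, π.p z = y ∧ X.O z < X.O x := fun h => by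
    obtain ⟨z, h3, h4⟩ := π.going_up h.le
    exact ⟨z, h3, h4.lt_of_ne fun h5 => h.ne (by rw [← h3, X.O_inj h5])⟩
  refine and_congr ⟨fun ⟨y, hy⟩ => (h2 hy).imp fun _ h => h.2, fun ⟨y, hy⟩ => ⟨_, h1 hy⟩⟩
    (not_congr ⟨fun ⟨y, z, h3, h4⟩ => ?_, fun ⟨y, z, h3, h4⟩ => ⟨_, _, h1 h3, h1 h4⟩⟩)
  obtain ⟨y, rfl, h5⟩ := h2 h4
  obtain ⟨z, rfl, h6⟩ := h2 h3
  exact ⟨y, z, h6, h5⟩

end Var

end Pool.Agent.Lib.MP_e39d36_ag
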