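import Mathlib

open Set WithZero

set_option linter.unusedSectionVars false
set_option linter.style.haveILetI false
set_option linter.unusedVariables false

noncomputable section

namespace Pool.Agent.Lib.MP_e39d36_ag

variable {K : Type} [Field K]

/-- Units of a subring of a field. -/
def Un (R : Subring K) (z : K) : Prop := z ≠ 0 ∧ z ∈ R ∧ z⁻¹ ∈ R

/-- Local subrings. -/
def IsLoc (R : Subring K) : Prop := ∀ a ∈ R, Un R a ∨ Un R (1 - a)

/-- `R` is a localisation of `B`. -/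
def LocOf (B R : Subring K) : Prop := B ≤ R ∧ ∀ z ∈ R, ∃ b ∈ B, Un R b ∧ b * z ∈ B

/-- `T` dominates `R`. -/
def Dom (R T : Subring K) : Prop := R ≤ T ∧ ∀ z ∈ R, Un T z → Un R z

/-- Integrally closed in the ambient field. -/
def Nml (R : Subring K) : Prop := ∀ z : K, IsIntegral R z → z ∈ R

variable {R T B A : Subring K} {a b z : K}

lemma Un.one : Un R 1 := ⟨one_ne_zero, one_mem _, by simp⟩

lemma Un.mul (ha : Un R a) (hb : Un R b) : Un R (a * b) :=
  ⟨mul_ne_zero ha.1 hb.1, mul_mem ha.2.1 hb.2.1, by rw [mul_inv]; exact mul_mem ha.2.2 hb.2.2⟩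

lemma Un.inv (ha : Un R a) : Un R a⁻¹ := ⟨inv_ne_zero ha.1, ha.2.2, by simpa using ha.2.1⟩

lemma Un.div (ha : Un R a) (hb : Un R b) : Un R (a / b) := by
  rw [div_eq_mul_inv]; exact ha.mul hb.inv

lemma Un.neg (ha : Un R a) : Un R (-a) :=
  ⟨neg_ne_zero.2 ha.1, neg_mem ha.2.1, by rw [inv_neg]; exact neg_mem ha.2.2⟩

lemma Un.pow (ha : Un R a) (n : ℕ) : Un R (a ^ n) := by
  induction n with
  | zero => simpa using Un.one
  | succ n ih => rw [pow_succ]; exact ih.mul ha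

lemma Un.prod {ι : Type*} {s : Finset ι} {f : ι → K} (h : ∀ i ∈ s, Un R (f i)) :
    Un R (∏ i ∈ s, f i) :=
  Finset.prod_induction _ _ (fun _ _ => Un.mul) Un.one h

lemma Un.mono (ha : Un R a) (h : R ≤ T) : Un T a := ⟨ha.1, h ha.2.1, h ha.2.2⟩

lemma Un.of_mul (h : Un R (a * b)) (ha : a ∈ R) (hb : b ∈ R) : Un R a := by
  have h1 : b ≠ 0 := right_ne_zero_of_mul h.1
  refine ⟨left_ne_zero_of_mul h.1, ha, ?_⟩
  have : a⁻¹ = b * (a * b)⁻¹ := by field_simp
  rw [this]; exact mul_mem hb h.2.2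

lemma Un.of_mul' (h : Un R (a * b)) (ha : a ∈ R) (hb : b ∈ R) : Un R b :=
  Un.of_mul (by rwa [mul_comm]) hb ha

lemma Un.of_pow {n : ℕ} (h : Un R (a ^ n)) (ha : a ∈ R) (hn : n ≠ 0) : Un R a := by
  obtain ⟨m, rfl⟩ := Nat.exists_eq_succ_of_ne_zero hn
  rw [pow_succ'] at h
  exact h.of_mul ha (pow_mem ha m)

lemma Un.div_mem (hb : Un R b) (ha : a ∈ R) : a / b ∈ R := by
  rw [div_eq_mul_inv]; exact mul_mem ha hb.2.2

lemma Un.mem_of_mul (hb : Un R b) (h : b * z ∈ R) : z ∈ R := by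
  have := hb.div_mem h
  rwa [mul_div_cancel_left₀ _ hb.1] at this

lemma un_top : Un ⊤ a ↔ a ≠ 0 := by simp [Un]

lemma isUnit_iff_un {a : R} : IsUnit a ↔ Un R a := by
  constructor
  · rintro ⟨u, rfl⟩
    have h : ((u : R) : K) * (u⁻¹ : Rˣ) = 1 := by
      rw [← Subring.coe_mul, Units.mul_inv]; rfl
    refine ⟨left_ne_zero_of_mul_eq_one h, (u : R).2, ?_⟩
    rw [← eq_inv_of_mul_eq_one_right h]
    exact ((u⁻¹ : Rˣ) : R).2
  · intro h
    exact isUnit_iff_exists_inv.2 ⟨⟨_, h.2.2⟩, Subtype.ext (mul_inv_cancel₀ h.1)⟩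

lemma IsLoc.isLocalRing (h : IsLoc R) : IsLocalRing R :=
  IsLocalRing.of_isUnit_or_isUnit_one_sub_self fun a => by
    simpa [isUnit_iff_un] using h a a.2

lemma isLoc_of_isLocalRing [IsLocalRing R] : IsLoc R := fun a ha => by
  simpa [isUnit_iff_un] using IsLocalRing.isUnit_or_isUnit_one_sub_self (⟨a, ha⟩ : R)

lemma IsLoc.of_add (h : IsLoc R) (ha : a ∈ R) (hb : b ∈ R) (hab : Un R (a + b)) :
    Un R a ∨ Un R b := by
  have h1 := hab.1
  refine (h _ (hab.div_mem ha)).imp (fun h2 => ?_) fun h2 => ?_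
  · have := h2.mul hab
    rwa [div_mul_cancel₀ _ h1] at this
  · have := h2.mul hab
    rwa [sub_mul, div_mul_cancel₀ _ h1, one_mul, add_sub_cancel_left] at this

lemma IsLoc.add_un (h : IsLoc R) (ha : Un R a) (hb : b ∈ R) (hb' : ¬Un R b) : Un R (a + b) :=
  (h.of_add (add_mem ha.2.1 hb) (neg_mem hb) (by simpa using ha)).resolve_right
    fun h1 => hb' (by simpa using h1.neg)

lemma IsLoc.of_sum (h : IsLoc R) {ι : Type*} {s : Finset ι} {f : ι → K} (hf : ∀ i ∈ s, f i ∈ R)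
    (hs : Un R (∑ i ∈ s, f i)) : ∃ i ∈ s, Un R (f i) := by
  classical
  induction s using Finset.induction_on with
  | empty => exact absurd rfl hs.1
  | insert i s hi ih =>
    rw [Finset.sum_insert hi] at hs
    rcases h.of_add (hf i (Finset.mem_insert_self _ _))
      (sum_mem fun j hj => hf j (Finset.mem_insert_of_mem hj)) hs with h1 | h1
    · exact ⟨i, Finset.mem_insert_self _ _, h1⟩
    · obtain ⟨j, hj, hj'⟩ := ih (fun j hj => hf j (Finset.mem_insert_of_mem hj)) h1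
      exact ⟨j, Finset.mem_insert_of_mem hj, hj'⟩

lemma isLoc_of_val (h : ∀ z, z ∈ R ∨ z⁻¹ ∈ R) : IsLoc R :=
  @isLoc_of_isLocalRing _ _ _ (inferInstanceAs (IsLocalRing (⟨R, h⟩ : ValuationSubring K)))

lemma isLoc_top : IsLoc (⊤ : Subring K) := isLoc_of_val fun _ => Or.inl trivial

lemma Dom.refl : Dom R R := ⟨le_rfl, fun _ _ h => h⟩

lemma Dom.trans (h : Dom A R) (h' : Dom R T) : Dom A T :=
  ⟨h.1.trans h'.1, fun z hz hu => h.2 z hz (h'.2 z (h.1 hz) hu)⟩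

lemma IsLoc.exists_val (h : IsLoc R) : ∃ V : ValuationSubring K, Dom R V.toSubring := by
  haveI := h.isLocalRing
  obtain ⟨V, hV⟩ := LocalSubring.exists_le_valuationSubring (⟨R⟩ : LocalSubring K)
  obtain ⟨h1, h2⟩ := LocalSubring.le_def.1 hV
  refine ⟨V, h1, fun z hz hu => ?_⟩
  exact (isUnit_iff_un (a := ⟨z, hz⟩)).1 (h2.map_nonunit _ (isUnit_iff_un.2 hu))

/-- Fractions with denominators in `S`. -/
def frac (B : Subring K) (S : Submonoid K) : Subring K where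
  carrier := {z | ∃ b ∈ B, b ∈ S ∧ b * z ∈ B}
  one_mem' := ⟨1, one_mem _, one_mem _, by simp⟩
  zero_mem' := ⟨1, one_mem _, one_mem _, by simp⟩
  mul_mem' := by
    rintro x y ⟨a, h1, h2, h3⟩ ⟨b, h4, h5, h6⟩
    exact ⟨a * b, mul_mem h1 h4, mul_mem h2 h5, by convert mul_mem h3 h6 using 1; ring⟩
  add_mem' := by
    rintro x y ⟨a, h1, h2, h3⟩ ⟨b, h4, h5, h6⟩
    exact ⟨a * b, mul_mem h1 h4, mul_mem h2 h5, by
      convert add_mem (mul_mem h4 h3) (mul_mem h1 h6) using 1; ring⟩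
  neg_mem' := by
    rintro x ⟨a, h1, h2, h3⟩
    exact ⟨a, h1, h2, by simpa using h3⟩

lemma le_frac {S : Submonoid K} : B ≤ frac B S :=
  fun z hz => ⟨1, one_mem _, one_mem _, by simpa using hz⟩

lemma un_frac {S : Submonoid K} (h0 : (0 : K) ∉ S) (hb : b ∈ B) (hb' : b ∈ S) :
    Un (frac B S) b := by
  have h : b ≠ 0 := fun h => h0 (h ▸ hb')
  exact ⟨h, le_frac hb, b, hb, hb', by simp [h]⟩

lemma locOf_frac {S : Submonoid K} (h0 : (0 : K) ∉ S) : LocOf B (frac B S) :=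
  ⟨le_frac, fun _ ⟨b, h1, h2, h3⟩ => ⟨b, h1, un_frac h0 h1 h2, h3⟩⟩

/-- The units as a submonoid. -/
def unS (T : Subring K) : Submonoid K where
  carrier := {z | Un T z}
  one_mem' := Un.one
  mul_mem' := Un.mul

/-- Localisation of `B` at the units of `T`. -/
def loc (B T : Subring K) : Subring K := frac B (unS T)

lemma locOf_loc : LocOf B (loc B T) := locOf_frac fun h => h.1 rfl

lemma loc_le (h : B ≤ T) : loc B T ≤ T := fun _ ⟨_, _, h2, h3⟩ => Un.mem_of_mul h2 (h h3)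

lemma dom_loc (h : B ≤ T) : Dom (loc B T) T := by
  refine ⟨loc_le h, ?_⟩
  rintro z ⟨b, h1, h2, h3⟩ hz
  refine ⟨hz.1, ⟨b, h1, h2, h3⟩, b * z, h3, Un.mul h2 hz, ?_⟩
  rwa [mul_assoc, mul_inv_cancel₀ hz.1, mul_one]

lemma Dom.isLoc (h : Dom R T) (hT : IsLoc T) : IsLoc R := fun a ha =>
  (hT a (h.1 ha)).imp (h.2 a ha) (h.2 _ (sub_mem (one_mem _) ha))

lemma LocOf.le (h : LocOf B R) (hB : B ≤ T) (hu : ∀ b ∈ B, Un R b → Un T b) : R ≤ T := by
  intro z hz
  obtain ⟨b, h1, h2, h3⟩ := h.2 z hz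
  exact (hu b h1 h2).mem_of_mul (hB h3)

lemma LocOf.eq_loc (h : LocOf B R) (h' : Dom R T) : R = loc B T := by
  refine le_antisymm (fun z hz => ?_) ?_
  · obtain ⟨b, h1, h2, h3⟩ := h.2 z hz
    exact ⟨b, h1, h2.mono h'.1, h3⟩
  · rintro z ⟨b, h1, h2, h3⟩
    exact (h'.2 b (h.1 h1) h2).mem_of_mul (h.1 h3)

lemma LocOf.of_le (h : LocOf A R) (h1 : A ≤ B) (h2 : B ≤ R) : LocOf B R :=
  ⟨h2, fun z hz => by
    obtain ⟨b, h3, h4, h5⟩ := h.2 z hz
    exact ⟨b, h1 h3, h4, h1 h5⟩⟩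

lemma LocOf.trans (h : LocOf A B) (h' : LocOf B R) : LocOf A R := by
  refine ⟨h.1.trans h'.1, fun z hz => ?_⟩
  obtain ⟨b, h1, h2, h3⟩ := h'.2 z hz
  obtain ⟨c, h4, h5, h6⟩ := h.2 b h1
  obtain ⟨d, h7, h8, h9⟩ := h.2 _ h3
  refine ⟨d * (c * b), mul_mem h7 h6, (h8.mono h'.1).mul ((h5.mono h'.1).mul h2), ?_⟩
  convert mul_mem h4 h9 using 1; ring

/-- The prime of `B` cut out by the maximal ideal of `T`. -/
def mx (hT : IsLoc T) (h : B ≤ T) : Ideal B where
  carrier := {b | ¬Un T b}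
  zero_mem' := fun h => h.1 rfl
  add_mem' := fun {a b} ha hb hab => (hT.of_add (h a.2) (h b.2) hab).elim ha hb
  smul_mem' := fun c b hb hcb => hb (Un.of_mul' hcb (h c.2) (h b.2))

lemma mem_mx (hT : IsLoc T) (h : B ≤ T) {b : B} : b ∈ mx hT h ↔ ¬Un T b := Iff.rfl

instance (hT : IsLoc T) (h : B ≤ T) : (mx hT h).IsPrime where
  ne_top' := (Ideal.ne_top_iff_one _).2 fun h => h Un.one
  mem_or_mem' := fun {a b} hab => by
    by_contra! h1
    exact hab (Un.mul (not_not.1 h1.1) (not_not.1 h1.2))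

lemma exists_locP (p : Ideal B) [hp : p.IsPrime] :
    ∃ T : Subring K, IsLoc T ∧ LocOf B T ∧ ∀ b : B, Un T b ↔ b ∉ p := by
  let S : Submonoid K := p.primeCompl.map B.subtype
  have hS : ∀ b : B, (b : K) ∈ S ↔ b ∉ p := fun b =>
    ⟨fun ⟨c, hc, h⟩ => by rwa [← Subtype.ext h], fun h => ⟨b, h, rfl⟩⟩
  have h0 : (0 : K) ∉ S := fun h => (hS 0).1 h p.zero_mem
  have hu : ∀ b : B, Un (frac B S) b ↔ b ∉ p := fun b => by
    refine ⟨fun ⟨h1, _, c, h2, h3, h4⟩ hb => (hS ⟨c, h2⟩).1 h3 ?_,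
      fun h => un_frac h0 b.2 ((hS b).2 h)⟩
    have : (⟨c, h2⟩ : B) = ⟨_, h4⟩ * b := Subtype.ext (by simp [h1])
    rw [this]
    exact p.mul_mem_left _ hb
  refine ⟨frac B S, ?_, locOf_frac h0, hu⟩
  rintro z ⟨c, h1, h2, h3⟩
  have hc := un_frac h0 h1 h2
  by_cases h : (⟨_, h3⟩ : B) ∈ p
  · right
    have h4 := (hu (⟨c, h1⟩ - ⟨_, h3⟩)).2 fun h5 => (hS ⟨c, h1⟩).1 h2 (by simpa using add_mem h5 h)
    convert h4.div hc using 1
    have := hc.1
    simp only [AddSubgroupClass.coe_sub]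
    field_simp
  · left
    convert ((hu _).2 h).div hc using 1
    have := hc.1
    field_simp

lemma LocOf.isLocalization (h : LocOf B R) :
    letI := (Subring.inclusion h.1).toAlgebra
    IsLocalization ((unS R).comap B.subtype) R := by
  letI := (Subring.inclusion h.1).toAlgebra
  rw [isLocalization_iff]
  refine ⟨fun y => isUnit_iff_un.2 y.2, fun z => ?_, fun {x y} hxy => ⟨1, ?_⟩⟩
  · obtain ⟨b, h1, h2, h3⟩ := h.2 z z.2
    exact ⟨⟨⟨_, h3⟩, ⟨b, h1⟩, h2⟩, Subtype.ext (mul_comm _ _)⟩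
  · rw [Subring.inclusion_injective h.1 hxy]

lemma LocOf.noeth (h : LocOf B R) [IsNoetherianRing B] : IsNoetherianRing R :=
  letI := (Subring.inclusion h.1).toAlgebra
  haveI := h.isLocalization
  IsLocalization.isNoetherianRing ((unS R).comap B.subtype) R inferInstance

lemma LocOf.exists_mul {L : Type} [Field L] [Algebra K L] (h : LocOf B R) {z : L}
    (hz : IsIntegral R z) : ∃ b ∈ B, Un R b ∧ IsIntegral B (algebraMap K L b * z) := by
  letI := (Subring.inclusion h.1).toAlgebra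
  haveI := h.isLocalization
  haveI : IsScalarTower B R L := IsScalarTower.of_algebraMap_eq fun _ => rfl
  obtain ⟨m, hm⟩ := hz.exists_multiple_integral_of_isLocalization ((unS R).comap B.subtype)
  refine ⟨m.1, m.1.2, m.2, ?_⟩
  rwa [Submonoid.smul_def, Algebra.smul_def] at hm

lemma LocOf.nml (h : LocOf B R) (hB : Nml B) : Nml R := fun z hz => by
  obtain ⟨b, -, h2, h3⟩ := h.exists_mul (L := K) hz
  exact h2.mem_of_mul (h.1 (hB _ h3))

lemma isIntegral_mono {L : Type} [Field L] [Algebra K L] (h : B ≤ R) {z : L}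
    (hz : IsIntegral B z) : IsIntegral R z :=
  letI := (Subring.inclusion h).toAlgebra
  haveI : IsScalarTower B R L := IsScalarTower.of_algebraMap_eq fun _ => rfl
  hz.tower_top

lemma isFrac (h : ∀ z : K, ∃ b ∈ R, b ≠ 0 ∧ b * z ∈ R) : IsFractionRing R K :=
  IsFractionRing.of_field R K fun z => by
    obtain ⟨b, h1, h2, h3⟩ := h z
    exact ⟨⟨_, h3⟩, ⟨b, h1⟩, (mul_div_cancel_left₀ z h2).symm⟩

lemma Nml.isIntegrallyClosed (h : Nml R) [IsFractionRing R K] : IsIntegrallyClosed R :=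
  (isIntegrallyClosed_iff K).2 fun hz => ⟨⟨_, h _ hz⟩, rfl⟩

lemma nml_val (V : ValuationSubring K) : Nml V.toSubring := fun _ hz => by
  obtain ⟨y, rfl⟩ := (isIntegrallyClosed_iff (R := V) K).1 inferInstance hz
  exact y.2

lemma isIntegral_of_val (h : ∀ V : ValuationSubring K, R ≤ V.toSubring → z ∈ V) :
    IsIntegral R z := by
  have h1 := iInf_valuationSubring_superset (s := (R : Set K))
  rw [Subring.closure_eq] at h1
  have h2 : z ∈ (integralClosure R K).toSubring := by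
    rw [← h1, Subring.mem_iInf]
    exact fun V => h V.1 V.2
  exact h2

lemma un_comap {L : Type} [Field L] {θ : L →+* K} {R : Subring K} {z : L} : Un (R.comap θ) z ↔ Un R (θ z) := by
  simp [Un]

lemma IsLoc.comap {L : Type} [Field L] {R : Subring K} (h : IsLoc R) (θ : L →+* K) : IsLoc (R.comap θ) := fun a ha => by
  simpa [un_comap] using h (θ a) ha

end Pool.Agent.Lib.MP_e39d36_ag
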