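import Pool.Agent.Lib.MP_e39d36_ag.Hyp

open Set WithZero Pool.Agent.Lib.MP_cc3443_ag

set_option linter.unusedSectionVars false
set_option linter.style.haveILetI false
set_option linter.unusedVariables false

noncomputable section

namespace Pool.Agent.Lib.MP_e39d36_ag

variable {K F : Type} [Field K] [Algebra ℂ K] [Field F] [Algebra ℂ F]

section

variable {ι : Type} {z : ι → K} {a : ι}

/-- The chart of projective space is a polynomial ring. -/
def chEquiv (h0 : z a ≠ 0) (h : AlgebraicIndependent ℂ fun b : {b // b ≠ a} => z b / z a) :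
    MvPolynomial {b // b ≠ a} ℂ ≃ₐ[ℂ] chA z a :=
  h.aevalEquiv.trans (Subalgebra.equivOfEq _ _ (le_antisymm
    (Algebra.adjoin_le (by rintro _ ⟨b, rfl⟩; exact div_mem_chA z a b))
    (Algebra.adjoin_le (by
      rintro _ ⟨b, rfl⟩
      by_cases hb : b = a
      · simp [hb, h0]
      · exact Algebra.subset_adjoin ⟨⟨b, hb⟩, rfl⟩))))

lemma chEquiv_X (h0 : z a ≠ 0) (h : AlgebraicIndependent ℂ fun b : {b // b ≠ a} => z b / z a)
    (b : {b // b ≠ a}) : chEquiv h0 h (MvPolynomial.X b) = ⟨_, div_mem_chA z a b⟩ :=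
  Subtype.ext ((h.algebraMap_aevalEquiv _).trans (MvPolynomial.aeval_X _ _))

lemma ufm_chA (h0 : z a ≠ 0) (h : AlgebraicIndependent ℂ fun b : {b // b ≠ a} => z b / z a) :
    UniqueFactorizationMonoid (chA z a).toSubring :=
  (chEquiv h0 h).toMulEquiv.uniqueFactorizationMonoid inferInstance

end

namespace Var

/-- Projective space. -/
def pn {ι : Type} [Finite ι] [Nonempty ι] (z : ι → K) (h0 : ∀ a, z a ≠ 0)
    (h : ∀ a, AlgebraicIndependent ℂ fun b : {b // b ≠ a} => z b / z a)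
    (hf : ∀ a w, ∃ b ∈ chA z a, b ≠ 0 ∧ b * w ∈ chA z a) : Var K :=
  ofCharts (chA z) (fun _ => fg_chA) hf
    (fun a w hw => by
      haveI := ufm_chA (h0 a) (h a)
      haveI : IsFractionRing (chA z a).toSubring K := isFrac (hf a)
      obtain ⟨y, rfl⟩ := (isIntegrallyClosed_iff (R := (chA z a).toSubring) K).1 inferInstance hw
      exact y.2)
    (fun i j _ _ _ _ => sep_chA (h0 i) (h0 j))
    fun i _ _ _ h1 _ h2 h3 => (compl_chA (h0 i) h1.1 h2 h3).imp fun _ h => h.2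

variable {X : Var K} {i : X.ι} {E E' : X.PD}

lemma not_un_iff_dvd (hE : (X.A i).toSubring ≤ X.O E.1) {f : (X.A i).toSubring} (hf : Prime f)
    (hu : ¬Un (X.O E.1) f) (b : (X.A i).toSubring) : ¬Un (X.O E.1) b ↔ f ∣ b := by
  haveI := (Ideal.span_singleton_prime hf.ne_zero).2 hf
  obtain ⟨T, h1, h2, h3⟩ := exists_locP (Ideal.span {f})
  have h4 : X.O E.1 ≤ T := (locOf_of_le hE).le h2.1 fun b hb h => (h3 ⟨b, hb⟩).2 fun h5 => by
    obtain ⟨g, hg⟩ := Ideal.mem_span_singleton.1 h5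
    have h6 : b = f * g := congrArg Subtype.val hg
    exact hu (Un.of_mul (b := g) (h6 ▸ h) (hE f.2) (hE g.2))
  rcases (isV E).eq_or_top h4 with rfl | rfl
  · rw [h3, not_not, Ideal.mem_span_singleton]
  · exact absurd (Ideal.mem_span_singleton_self f)
      ((h3 f).1 (un_top.2 fun h => hf.ne_zero (Subtype.ext h)))

lemma eq_of_prime (hE : (X.A i).toSubring ≤ X.O E.1) (hE' : (X.A i).toSubring ≤ X.O E'.1)
    {f : (X.A i).toSubring} (hf : Prime f) (hu : ¬Un (X.O E.1) f) (hu' : ¬Un (X.O E'.1) f) :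
    E = E' :=
  pd_eq ((locOf_of_le hE).le hE' fun b hb h => of_not_not fun h1 =>
    (not_un_iff_dvd hE hf hu ⟨b, hb⟩).2 ((not_un_iff_dvd hE' hf hu' ⟨b, hb⟩).1 h1) h)

lemma exists_principal [UniqueFactorizationMonoid (X.A i).toSubring] (N : X.PD →₀ ℤ) :
    ∃ φ : K, φ ≠ 0 ∧ ∀ E : X.PD, (X.A i).toSubring ≤ X.O E.1 → X.ord φ E.1 = N E := by
  classical
  induction N using Finsupp.induction_linear with
  | zero => exact ⟨1, one_ne_zero, fun E _ => ord_un Un.one⟩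
  | add N N' h h' =>
    obtain ⟨f, h1, h2⟩ := h
    obtain ⟨g, h3, h4⟩ := h'
    exact ⟨f * g, mul_ne_zero h1 h3, fun E hE => by rw [ord_mul h1 h3, h2 E hE, h4 E hE]; rfl⟩
  | single E n =>
    by_cases hE : (X.A i).toSubring ≤ X.O E.1
    swap
    · exact ⟨1, one_ne_zero, fun E' h => by
        rw [ord_un Un.one, Finsupp.single_eq_of_ne (by rintro rfl; exact hE h)]⟩
    obtain ⟨t, h0, ht⟩ := exists_unif (isV E).1
    rw [← ord_val] at ht
    obtain ⟨b, h1, h2, h3⟩ := (locOf_of_le hE).2 t (((isV E).mem_iff h0).2 (by rw [← ord_val]; omega))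
    have h4 : X.ord (b * t) E.1 = 1 := by rw [ord_mul h2.1 h0, ord_un h2, ht, zero_add]
    have h5 : ¬Un (X.O E.1) (b * t) := fun h => by rw [ord_un h] at h4; omega
    obtain ⟨f, h6, hf⟩ := Ideal.IsPrime.exists_mem_prime_of_ne_bot (I := mx (X.isLoc _) hE)
      inferInstance fun h => by
        have : (⟨_, h3⟩ : (X.A i).toSubring) ∈ mx (X.isLoc _) hE := h5
        rw [h] at this
        exact mul_ne_zero h2.1 h0 (congrArg Subtype.val this)
    have hf0 : (f : K) ≠ 0 := fun h => hf.ne_zero (Subtype.ext h)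
    obtain ⟨g, hg⟩ := (not_un_iff_dvd hE hf h6 ⟨_, h3⟩).1 h5
    have h7 : b * t = f * g := congrArg Subtype.val hg
    have h8 := ord_pos hf0 (hE f.2) h6
    have h9 := ord_nonneg (hE g.2)
    rw [h7, ord_mul hf0 (right_ne_zero_of_mul (h7 ▸ mul_ne_zero h2.1 h0))] at h4
    refine ⟨f ^ n, zpow_ne_zero _ hf0, fun E' hE' => ?_⟩
    have h10 : X.ord ((f : K) ^ n) E'.1 = n * X.ord f E'.1 := by simp [ord_val, od]
    rw [h10, Finsupp.single_apply]
    split_ifs with h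
    · subst h
      rw [show X.ord f E.1 = 1 by omega, mul_one]
    · rw [ord_un (of_not_not fun h11 => h (eq_of_prime hE hE' hf h6 h11)), mul_zero]

namespace Prj

variable (Q : Prj X) (h : ∀ a, AlgebraicIndependent ℂ fun b : {b // b ≠ a} => Q.y b / Q.y a)

include h

lemma prime_y {a b : X.ι} (hb : b ≠ a) : Prime (⟨_, Q.mem a b⟩ : (X.A a).toSubring) ∧
    ∀ c, c ≠ b → ¬(⟨_, Q.mem a b⟩ : (X.A a).toSubring) ∣ ⟨_, Q.mem a c⟩ := by
  obtain ⟨e, he⟩ : ∃ e : MvPolynomial {b // b ≠ a} ℂ ≃+* (X.A a).toSubring,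
      ∀ c (hc : c ≠ a), e (MvPolynomial.X ⟨c, hc⟩) = ⟨_, Q.mem a c⟩ :=
    ⟨(chEquiv (Q.ne a) (h a)).toRingEquiv.trans (RingEquiv.subringCongr
      (congrArg Subalgebra.toSubring (Q.A_eq a).symm)), fun c hc => Subtype.ext
        (congrArg (fun x : chA Q.y a => (x : K)) (chEquiv_X (Q.ne a) (h a) ⟨c, hc⟩))⟩
  have h1 : Prime (⟨_, Q.mem a b⟩ : (X.A a).toSubring) := by
    rw [← he b hb, MulEquiv.prime_iff]
    exact MvPolynomial.X_prime
  refine ⟨h1, fun c hc h2 => ?_⟩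
  by_cases hca : c = a
  · refine h1.not_dvd_one (h2.trans (dvd_of_eq (Subtype.ext ?_)))
    simp [hca, Q.ne a]
  · rw [← he b hb, ← he c hca, map_dvd_iff, MvPolynomial.X_dvd_X] at h2
    exact hc (congrArg Subtype.val h2).symm

lemma eq_at_infinity (hE : ¬(X.A i).toSubring ≤ X.O E.1) (hE' : ¬(X.A i).toSubring ≤ X.O E'.1) :
    E = E' := by
  have h1 := (ch_spec E.1).1
  have h2 := (ch_spec E'.1).1
  have h3 : i ≠ ch E.1 := fun h => hE (h ▸ h1)
  obtain ⟨h4, h5⟩ := Q.prime_y h (show i ≠ ch E'.1 from fun h => hE' (h ▸ h2))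
  have h6 := Q.le_of_un h2 (of_not_not fun h6 => h5 _ h3.symm ((not_un_iff_dvd h2 h4
    (fun hu => hE' (Q.le_of_un h2 hu)) ⟨_, Q.mem _ _⟩).1 h6))
  exact eq_of_prime h1 h6 (Q.prime_y h h3).1 (fun hu => hE (Q.le_of_un h1 hu))
    fun hu => hE' (Q.le_of_un h6 hu)

theorem deg_nonneg [IsFF F] (γ : CMap X F) {N : X.PD →₀ ℤ} (hN : Cart N) (h0 : 0 ≤ N) :
    0 ≤ γ.deg N := by
  obtain ⟨i⟩ := X.nei
  haveI : UniqueFactorizationMonoid (X.A i).toSubring := Q.A_eq i ▸ ufm_chA (Q.ne i) (h i)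
  obtain ⟨φ, h1, h2⟩ := exists_principal (i := i) N
  by_cases h3 : ∀ E : X.PD, (X.A i).toSubring ≤ X.O E.1
  · rw [show N = X.div φ from Finsupp.ext fun E => (h2 E (h3 E)).symm, CMap.deg_div h1]
  obtain ⟨E, hE⟩ := not_forall.1 h3
  have h4 : 0 ≤ N E - X.ord φ E.1 := by
    by_contra h4
    obtain ⟨a, rfl⟩ := eq_const (X := X) (z := φ) fun x => hartogs fun E' _ => by
      have := h0 E'
      by_cases h5 : (X.A i).toSubring ≤ X.O E'.1
      · rwa [h2 E' h5]
      · rw [Q.eq_at_infinity h h5 hE] at this ⊢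
        simp only [Finsupp.coe_zero, Pi.zero_apply] at this
        omega
    rw [ord_un (X.un_const _ fun h => h1 (by simp [h])), sub_zero] at h4
    exact h4 (h0 E)
  have h5 := Q.hyp_pos hE
  obtain ⟨d, hd⟩ := Int.eq_ofNat_of_zero_le h4
  obtain ⟨k, hk⟩ := Int.eq_ofNat_of_zero_le h5.le
  have h6 : k • N = k • X.div φ + d • Q.hyp i := by
    ext E'
    simp only [Finsupp.add_apply, Finsupp.smul_apply, nsmul_eq_mul, div_apply]
    by_cases h6 : (X.A i).toSubring ≤ X.O E'.1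
    · rw [h2 E' h6, Q.hyp_eq_zero h6]; simp
    · rw [Q.eq_at_infinity h h6 hE, ← hd, ← hk]; ring
  have h7 := congrArg γ.deg h6
  rw [CMap.deg_add ((cart_div h1).nsmul _) ((Q.cart_hyp _).nsmul _), CMap.deg_nsmul hN,
    CMap.deg_nsmul (cart_div h1), CMap.deg_nsmul (Q.cart_hyp _), CMap.deg_div h1] at h7
  refine nonneg_of_mul_nonneg_right ?_ (hk ▸ h5)
  rw [h7, mul_zero, zero_add]
  exact mul_nonneg (Int.natCast_nonneg _) (Q.deg_hyp_nonneg γ i)

end Prj

end Var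

end Pool.Agent.Lib.MP_e39d36_ag
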