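import Pool.Agent.Lib.MP_e39d36_ag.Abs2
import Pool.Agent.Lib.MP_e39d36_ag.Defs
import Pool.Agent.Lib.MP_99f32e_ag.Sch

open AlgebraicGeometry CategoryTheory Order WithZero Set MvPolynomial HomogeneousLocalization
open Pool.Agent.Lib.MP_99f32e_ag hiding IsProjective

set_option linter.unusedSectionVars false
set_option linter.style.haveILetI false
set_option linter.unusedVariables false

noncomputable section

namespace Pool.Agent.Lib.MP_e39d36_ag

attribute [local instance] MvPolynomial.gradedAlgebra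

lemma eval₂_scale {R S σ : Type} [CommRing R] [CommRing S] [Fintype σ] (f : R →+* S) (t : S)
    (u : σ → S) {a : MvPolynomial σ R} {m : ℕ} (ha : a.IsHomogeneous m) :
    eval₂ f (fun j => u j * t) a = eval₂ f u a * t ^ m := by
  rw [eval₂_eq', eval₂_eq', Finset.sum_mul]
  refine Finset.sum_congr rfl fun d hd => ?_
  have hdeg : m = ∑ j, d j := by
    rw [← ha (mem_support_iff.mp hd), Finsupp.weight_apply, Finsupp.sum_fintype] <;> simp
  simp only [mul_pow, Finset.prod_mul_distrib, Finset.prod_pow_eq_pow_sum, hdeg]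
  ring

lemma away_ext {K : Type} [Field K] [Algebra ℂ K] {n : ℕ} (i : Fin n)
    (φ : Away (homogeneousSubmodule (Fin n) ℂ) (X i) →+* K)
    (h : (φ.comp (fromZeroRingHom _ _)).comp (algebraMap ℂ (homogeneousSubmodule (Fin n) ℂ 0)) =
      algebraMap ℂ K) : ∃ (y : Fin n → K) (hy : aeval y (X i : MvPolynomial (Fin n) ℂ) ≠ 0),
        φ = awayEval y (X i) hy := by
  have hX : (X i : MvPolynomial (Fin n) ℂ) ∈ homogeneousSubmodule (Fin n) ℂ 1 :=
    isHomogeneous_X ℂ i
  let u : Fin n → Away (homogeneousSubmodule (Fin n) ℂ) (X i) := fun j =>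
    Away.mk _ hX 1 (X j) (by simpa using isHomogeneous_X ℂ j)
  have h1 : u i = 1 := by
    ext
    simp [u]
  have h2 : aeval (fun j => φ (u j)) (X i : MvPolynomial (Fin n) ℂ) = 1 := by simp [h1]
  refine ⟨fun j => φ (u j), h2 ▸ one_ne_zero, RingHom.ext fun a => ?_⟩
  obtain ⟨m, a, ha, rfl⟩ := Away.mk_surjective _ hX a
  have h3 : Away.mk _ hX m a ha = eval₂ ((fromZeroRingHom _ _).comp
      (algebraMap ℂ (homogeneousSubmodule (Fin n) ℂ 0))) u a := by
    ext
    let v := algebraMap (Away (homogeneousSubmodule (Fin n) ℂ) (X i))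
      (Localization.Away (X i : MvPolynomial (Fin n) ℂ))
    let w := algebraMap (MvPolynomial (Fin n) ℂ) (Localization.Away (X i : MvPolynomial (Fin n) ℂ))
    have h4 : ∀ m a ha, v (Away.mk _ hX m a ha) * w (X i) ^ m = w a := fun m a ha => by
      rw [← map_pow, HomogeneousLocalization.algebraMap_apply, Away.val_mk,
        Localization.mk_eq_mk'_apply]
      exact IsLocalization.mk'_spec _ _ _
    have h3 : ∀ j, v (u j) * w (X i) = w (X j) := fun j => by simpa using h4 1 _ _
    rw [← HomogeneousLocalization.algebraMap_apply, ← HomogeneousLocalization.algebraMap_apply]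
    refine ((IsLocalization.Away.algebraMap_isUnit (S := Localization.Away (X i))
      (X i : MvPolynomial (Fin n) ℂ)).pow m).mul_left_injective ?_
    change v _ * w _ ^ m = v _ * w _ ^ m
    rw [h4, eval₂_comp_left, ← eval₂_scale _ _ _ (by simpa using ha)]
    simp only [Function.comp_apply, h3]
    conv_lhs => rw [← eval₂_eta a, eval₂_comp_left]
    rfl
  rw [awayEval_mk, h2, one_pow, div_one, h3, eval₂_comp_left, ← RingHom.comp_assoc, h]
  rfl

variable {X : Scheme.{0}} [IsIntegral X]

/-- The local ring inside the function field. -/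
def OX (x : X) : Subring X.functionField := (algebraMap (X.presheaf.stalk x) X.functionField).range

/-- The stalk is the local ring. -/
def eqO (x : X) : X.presheaf.stalk x ≃+* OX x :=
  .ofBijective (algebraMap (X.presheaf.stalk x) X.functionField).rangeRestrict
    ⟨fun _ _ h => IsFractionRing.injective _ _ (congrArg Subtype.val h),
      RingHom.rangeRestrict_surjective _⟩

lemma un_OX {x : X} {a : X.presheaf.stalk x} : Un (OX x) (algebraMap _ _ a) ↔ IsUnit a :=
  (isUnit_iff_un (a := eqO x a)).symm.trans (isUnit_map_iff _ _)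

instance (x : X) : IsLocalRing (OX x) := (eqO x).isLocalRing

lemma OX_le {x y : X} (h : x ⤳ y) : OX y ≤ OX x := by
  rintro _ ⟨a, rfl⟩
  exact ⟨X.presheaf.stalkSpecializes h a,
    congr($(X.presheaf.stalkSpecializes_comp ((genericPoint_spec X).specializes trivial) h) a)⟩

lemma specializes_of_dom [X.IsSeparated] {x y : X} {T : Subring X.functionField} (hT : IsLoc T)
    (hx : Dom (OX x) T) (hy : OX y ≤ T) : x ⤳ y := by
  haveI := hT.isLocalRing
  let m : ∀ z : X, OX z ≤ T → (X.presheaf.stalk z ⟶ .of T) := fun z hz =>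
    CommRingCat.ofHom ((Subring.inclusion hz).comp (eqO z).toRingHom)
  let j : CommRingCat.of T ⟶ X.functionField := CommRingCat.ofHom T.subtype
  haveI : IsDominant (Spec.map j) := ⟨(PrimeSpectrum.denseRange_comap_iff_ker_le_nilRadical _).2
    fun a ha => by rw [show a = 0 from Subtype.ext ha]; exact zero_mem _⟩
  have h1 : ∀ z hz, Spec.map j ≫ Spec.map (m z hz) ≫ X.fromSpecStalk z =
      X.fromSpecStalk (genericPoint X) := fun z hz => by
    rw [← Spec.map_comp_assoc]
    exact Scheme.SpecMap_stalkSpecializes_fromSpecStalk ((genericPoint_spec X).specializes trivial)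
  have h2 := ext_of_isDominant (Spec.map j) ((h1 x hx.1).trans (h1 y hy).symm)
  haveI : IsLocalHom (m x hx.1).hom := ⟨fun a ha => un_OX.1 (hx.2 _ ⟨a, rfl⟩ (isUnit_iff_un.1 ha))⟩
  have h3 : (Spec.map (m x hx.1) ≫ X.fromSpecStalk x) (IsLocalRing.closedPoint T) = x := by
    rw [Scheme.Hom.comp_apply, Spec_closedPoint, Scheme.fromSpecStalk_closedPoint]
  rw [h2] at h3
  exact Scheme.range_fromSpecStalk.le ⟨_, h3⟩

/-- The ring of sections inside the function field. -/
def AU (U : X.Opens) (h : genericPoint X ∈ U) : Subring X.functionField :=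
  (X.presheaf.germ U _ h).hom.range

section

variable {U : X.Opens} (hU : IsAffineOpen U) (h : genericPoint X ∈ U)

lemma alg_germ {x : X} (hx : x ∈ U) (a : Γ(X, U)) :
    algebraMap _ X.functionField (X.presheaf.germ U x hx a) = X.presheaf.germ U _ h a :=
  haveI : Nonempty U := ⟨⟨x, hx⟩⟩
  Scheme.algebraMap_germ_eq_germToFunctionField X hx a

include hU

lemma un_germ {x : X} (hx : x ∈ U) (a : Γ(X, U)) :
    Un (OX x) (X.presheaf.germ U _ h a) ↔ a ∉ (hU.primeIdealOf ⟨x, hx⟩).asIdeal := by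
  letI := X.presheaf.algebra_section_stalk ⟨x, hx⟩
  haveI := hU.isLocalization_stalk ⟨x, hx⟩
  rw [← alg_germ h hx, un_OX]
  exact IsLocalization.AtPrime.isUnit_to_map_iff (X.presheaf.stalk x) _ a

lemma locOf_AU {x : X} (hx : x ∈ U) : LocOf (AU U h) (OX x) := by
  letI := X.presheaf.algebra_section_stalk ⟨x, hx⟩
  haveI := hU.isLocalization_stalk ⟨x, hx⟩
  refine ⟨by rintro _ ⟨a, rfl⟩; exact ⟨_, alg_germ h hx a⟩, ?_⟩
  rintro _ ⟨z, rfl⟩
  obtain ⟨⟨a, b⟩, hab⟩ := IsLocalization.surj (hU.primeIdealOf ⟨x, hx⟩).asIdeal.primeCompl z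
  refine ⟨_, ⟨b, rfl⟩, (un_germ hU h hx b).2 b.2, a, ?_⟩
  rw [← alg_germ h hx, ← alg_germ h hx, ← map_mul, mul_comm]
  exact congrArg _ hab.symm

lemma pt_AU {T : Subring X.functionField} (hT : IsLoc T) (h' : LocOf (AU U h) T) :
    ∃ x ∈ U, OX x = T := by
  let p : PrimeSpectrum Γ(X, U) :=
    ⟨(mx hT h'.1).comap (X.presheaf.germ U _ h).hom.rangeRestrict, inferInstance⟩
  obtain ⟨⟨x, hx⟩, hp⟩ := hU.isoSpec.hom.homeomorph.surjective p
  have h1 : ∀ b ∈ AU U h, Un (OX x) b ↔ Un T b := by
    rintro _ ⟨a, rfl⟩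
    rw [un_germ hU h hx, show hU.primeIdealOf ⟨x, hx⟩ = p from hp]
    exact not_not
  exact ⟨x, hx, le_antisymm ((locOf_AU hU h hx).le h'.1 fun b hb => (h1 b hb).1)
    (h'.le (locOf_AU hU h hx).1 fun b hb => (h1 b hb).2)⟩

end

lemma OX_generic : OX (genericPoint X) = ⊤ := eq_top_iff.2 fun z _ =>
  ⟨z, congr($(X.presheaf.stalkSpecializes_refl (genericPoint X)) z)⟩

lemma nml_OX {x : X} [IsIntegrallyClosed (X.presheaf.stalk x)] : Nml (OX x) := fun z hz => by
  letI := (eqO x).symm.toRingHom.toAlgebra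
  haveI : IsScalarTower (OX x) (X.presheaf.stalk x) X.functionField :=
    IsScalarTower.of_algebraMap_eq fun a =>
      (congrArg Subtype.val ((eqO x).apply_symm_apply a)).symm
  exact IsIntegrallyClosed.isIntegral_iff.1 (hz.tower_top (A := X.presheaf.stalk x))

variable [IsLocallyNoetherian X]

lemma isV_OX {x : X} [IsDiscreteValuationRing (X.presheaf.stalk x)] :
    IsV ((IsDiscreteValuationRing.maximalIdeal (X.presheaf.stalk x)).valuation X.functionField)
      (OX x) :=
  ⟨IsDedekindDomain.HeightOneSpectrum.valuation_surjective _ _, fun z =>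
    ⟨by rintro ⟨a, rfl⟩; exact IsDedekindDomain.HeightOneSpectrum.valuation_le_one _ a,
      IsDiscreteValuationRing.exists_lift_of_le_one⟩⟩

lemma dvr_of_isV {x : X} {v} (hv : IsV v (OX x)) :
    IsDiscreteValuationRing (X.presheaf.stalk x) :=
  haveI := isNoetherianRing_of_ringEquiv _ (eqO x)
  haveI := dvr_of_val hv.val hv.ne_top
  IsDiscreteValuationRing.RingEquivClass.isDiscreteValuationRing (eqO x).symm

lemma coheight_of_dvr {x : X} [IsDiscreteValuationRing (X.presheaf.stalk x)] :
    coheight x = 1 := by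
  have h1 := ringKrullDim_stalk_eq_coheight x
  rw [IsDiscreteValuationRing.ringKrullDim_eq_one] at h1
  exact_mod_cast h1.symm

lemma pd_iff_OX {x : X} [IsIntegrallyClosed (X.presheaf.stalk x)] :
    coheight x = 1 ↔ ∃ v, IsV v (OX x) := by
  refine ⟨fun h => ?_, fun ⟨v, hv⟩ => haveI := dvr_of_isV hv; coheight_of_dvr⟩
  haveI : Ring.KrullDimLE 1 (X.presheaf.stalk x) := krullDimLE_of_coheight_le h.le
  have h1 : ¬IsField (X.presheaf.stalk x) := fun hF => by
    have h1 := ringKrullDim_stalk_eq_coheight x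
    rw [ringKrullDim_eq_zero_of_isField hF, h] at h1
    exact absurd h1 (by decide)
  haveI : IsDedekindDomain (X.presheaf.stalk x) := (isDedekindDomain_iff _ X.functionField).2
    ⟨inferInstance, inferInstance, ⟨fun h1 h2 => h2.isMaximal_of_ne_bot h1⟩,
      IsIntegrallyClosed.isIntegral_iff.1⟩
  haveI : IsDiscreteValuationRing (X.presheaf.stalk x) :=
    ((IsDiscreteValuationRing.TFAE (X.presheaf.stalk x) h1).out 2 0).1 this
  exact ⟨_, isV_OX⟩

lemma ord_eq_OX {x : X} {v} (hv : IsV v (OX x)) (f : X.functionField) : X.ord f x = od v f := by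
  haveI := dvr_of_isV hv
  rw [hv.unique isV_OX]
  by_cases hf : f = 0
  · simp [hf]
  rw [Scheme.ord_eq_iff coheight_of_dvr hf]
  refine (Ring.ordFrac_eq_valuation_inv f).trans ?_
  rw [val_eq_exp hf, ← exp_neg, neg_neg]
  rfl

end Pool.Agent.Lib.MP_e39d36_ag
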