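import Pool.Agent.Lib.MP_e39d36_ag.Sch1

open AlgebraicGeometry CategoryTheory Order WithZero Set MvPolynomial HomogeneousLocalization
open Pool.Agent.Lib.MP_99f32e_ag hiding IsProjective
open Pool.Agent.Lib.MP_cc3443_ag

set_option linter.unusedSectionVars false
set_option linter.style.haveILetI false
set_option linter.unusedVariables false

noncomputable section

namespace Pool.Agent.Lib.MP_e39d36_ag

attribute [local instance] MvPolynomial.gradedAlgebra

variable {X : Scheme.{0}} [IsIntegral X]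

/-- The constants. -/
abbrev algK (s : X ⟶ Spec (.of ℂ)) : Algebra ℂ X.functionField :=
  ((Scheme.ΓSpecIso (.of ℂ)).inv ≫ s.appTop ≫
    X.presheaf.germ ⊤ (genericPoint X) trivial).hom.toAlgebra

lemma algK_spec (s : X ⟶ Spec (.of ℂ)) : X.fromSpecStalk (genericPoint X) ≫ s =
    Spec.map (CommRingCat.ofHom (@algebraMap ℂ X.functionField _ _ (algK s))) := by
  conv_lhs => rw [← Category.comp_id s, ← toSpecΓ_SpecMap_ΓSpecIso_inv,
    Scheme.toSpecΓ_naturality_assoc, Scheme.fromSpecStalk_toSpecΓ_assoc, ← Spec.map_comp,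
    ← Spec.map_comp]
  rfl

variable [Algebra ℂ X.functionField] {s : X ⟶ Spec (.of ℂ)}

theorem exists_coord (hp : IsProjective s) (hs : X.fromSpecStalk (genericPoint X) ≫ s =
    Spec.map (CommRingCat.ofHom (algebraMap ℂ X.functionField))) :
    ∃ (n : ℕ) (y : Fin n → X.functionField) (U : Fin n → X.Opens), (∀ i, IsAffineOpen (U i)) ∧
      (∀ x, ∃ i, x ∈ U i) ∧ (∀ i, genericPoint X ∈ U i → y i ≠ 0) ∧
        ∀ i, y i ≠ 0 → ∃ h, AU (U i) h = (chA y i).toSubring := by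
  obtain ⟨n, ι, hι, rfl⟩ := hp
  have hX (i : Fin (n + 1)) : (MvPolynomial.X i : MvPolynomial (Fin (n + 1)) ℂ) ∈
      homogeneousSubmodule (Fin (n + 1)) ℂ 1 := isHomogeneous_X ℂ i
  have hV := fun i => Proj.isAffineOpen_basicOpen _ _ (hX i) one_pos
  have hcov : ∀ x : X, ∃ i, x ∈ ι ⁻¹ᵁ Proj.basicOpen _ (MvPolynomial.X i) := fun x => by
    have h1 : ⨆ i, Proj.basicOpen (homogeneousSubmodule (Fin (n + 1)) ℂ) (MvPolynomial.X i) = ⊤ := by
      apply Proj.iSup_basicOpen_eq_top'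
      · exact fun i => ⟨1, hX i⟩
      · rw [eq_top_iff]
        intro f _
        induction f using MvPolynomial.induction_on with
        | C a => exact Subalgebra.algebraMap_mem _ (algebraMap ℂ (homogeneousSubmodule _ ℂ 0) a)
        | add p q hp hq => exact add_mem (hp trivial) (hq trivial)
        | mul_X p i hp => exact mul_mem (hp trivial) (Algebra.subset_adjoin ⟨i, rfl⟩)
    obtain ⟨i, hi⟩ := TopologicalSpace.Opens.mem_iSup.mp (h1.ge (mem_univ (ι x)))
    exact ⟨i, hi⟩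
  let γ : Spec (.of X.functionField) ⟶ X := X.fromSpecStalk (genericPoint X)
  have hγ : γ (IsLocalRing.closedPoint _) = genericPoint X := Scheme.fromSpecStalk_closedPoint
  have htop : ∀ U : X.Opens, genericPoint X ∈ U → ⊤ ≤ γ ⁻¹ᵁ U := fun U hU =>
    (Scheme.preimage_eq_top_of_closedPoint_mem γ (by rw [hγ]; exact hU)).ge
  obtain ⟨o, ho⟩ := hcov (genericPoint X)
  let φ := (Proj.basicOpenIsoAway _ _ (hX o) one_pos).hom ≫ evalAt (γ ≫ ι) _ (htop _ ho)
  have h1 : Spec.map φ ≫ Proj.awayι _ _ (hX o) one_pos = γ ≫ ι := by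
    rw [awayι_eq, ← Spec.map_comp_assoc, Iso.inv_hom_id_assoc, SpecMap_evalAt]
  obtain ⟨y, hy, h2⟩ := away_ext o φ.hom (by
    have h2 := (Category.assoc γ ι _).trans hs
    rw [← h1, Category.assoc, Proj.awayι_toSpecZero_assoc, ← Spec.map_comp, ← Spec.map_comp] at h2
    exact congrArg CommRingCat.Hom.hom (Spec.map_injective h2))
  have h3 : projPoint y _ hy (hX o) one_pos = γ ≫ ι := by
    rw [projPoint, ← h2]; exact h1
  refine ⟨n + 1, y, fun i => ι ⁻¹ᵁ Proj.basicOpen _ (MvPolynomial.X i), fun i => (hV i).preimage _,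
    hcov, fun i hi => ?_, fun i hi => ?_⟩
  · simpa using projPoint_mem_basicOpen y _ hy (hX o) one_pos _ (hX i) one_pos
      (IsLocalRing.closedPoint _) (by rw [h3, Scheme.Hom.comp_apply, hγ]; exact hi)
  have hi' : aeval y (MvPolynomial.X i : MvPolynomial (Fin (n + 1)) ℂ) ≠ 0 := by simpa using hi
  have h4 : Spec.map ((Proj.basicOpenIsoAway _ _ (hX i) one_pos).inv ≫
      CommRingCat.ofHom (awayEval y _ hi')) ≫ (hV i).fromSpec = γ ≫ ι := by
    rw [Spec.map_comp, Category.assoc, ← awayι_eq, ← h3]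
    exact projPoint_eq y _ _ _ _ _ _ _ _
  have h5 : ⊤ ≤ γ ⁻¹ᵁ ι ⁻¹ᵁ Proj.basicOpen _ (MvPolynomial.X i) := by
    rw [← Scheme.Hom.comp_preimage]
    exact top_le_preimage_of_eq _ (hV i) _ h4
  have h6 : genericPoint X ∈ ι ⁻¹ᵁ Proj.basicOpen _ (MvPolynomial.X i) := by
    rw [← hγ]
    exact h5 (mem_univ (IsLocalRing.closedPoint _))
  have h7 := (app_evalAt γ ι _ h5).trans (evalAt_eq_of_eq _ (hV i) _ _ h4)
  rw [evalAt_eq_of_eq γ ((hV i).preimage ι) h5 (X.presheaf.germ _ _ h6)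
    (((hV i).preimage ι).fromSpecStalk_eq_fromSpecStalk h6)] at h7
  refine ⟨h6, SetLike.ext' (Eq.trans ?_ (range_awayEval y i hi'))⟩
  ext z
  constructor
  · rintro ⟨a, rfl⟩
    obtain ⟨a, rfl⟩ := ι.app_surjective _ (hV i) a
    exact ⟨_, (congr($h7 a)).symm⟩
  · rintro ⟨a, rfl⟩
    refine ⟨ι.app _ ((Proj.basicOpenIsoAway _ _ (hX i) one_pos).hom a), (congr($h7 _)).trans ?_⟩
    simp

end Pool.Agent.Lib.MP_e39d36_ag
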