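import Pool.Agent.Lib.MP_e39d36_ag.Sch2

open AlgebraicGeometry CategoryTheory Order WithZero Set
open Pool.Agent.Lib.MP_99f32e_ag hiding IsProjective
open Pool.Agent.Lib.MP_cc3443_ag

set_option linter.unusedSectionVars false
set_option linter.style.haveILetI false
set_option linter.unusedVariables false

noncomputable section

namespace Pool.Agent.Lib.MP_e39d36_ag

lemma chA_sub {K ι : Type} [Field K] [Algebra ℂ K] (y : ι → K) (i : {i // y i ≠ 0}) :
    chA (fun j : {i // y i ≠ 0} => y j) i = chA y i :=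
  le_antisymm (Algebra.adjoin_mono (by rintro _ ⟨j, rfl⟩; exact ⟨j, rfl⟩)) (Algebra.adjoin_le (by
    rintro _ ⟨j, rfl⟩
    by_cases hj : y j = 0
    · simp [hj]
    · exact Algebra.subset_adjoin ⟨⟨j, hj⟩, rfl⟩))

lemma Var.IC.free {K L : Type} [Field K] [Field L] [Algebra L K] [Algebra ℂ K] [Algebra ℂ L]
    [IsScalarTower ℂ L K] [FiniteDimensional L K] [IsGalois L K] {X : Var K} {Y : Var L}
    (π : Var.IC Y X) (h : ∀ x, ∃ (R A : Type) (_ : CommRing R) (_ : CommRing A) (_ : Algebra R A)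
      (_ : Algebra.FormallyUnramified R A) (e : A ≃+* X.O x),
        ∀ r : R, ∃ l, algebraMap L K l = e (algebraMap R A r)) : π.Free := by
  intro x σ hσ
  obtain ⟨R, A, _, _, _, _, e, he⟩ := h x
  have h1 := π.locOf x
  have h2 : ∀ a ∈ icl K (Y.O (π.p x)), σ a - a ∈ X.nu x := fun a ha =>
    ⟨h1.1 (sub_mem (aut_mem_icl σ ha) ha), hσ a ha⟩
  have h3 : ∀ a ∈ X.O x, ∀ b ∈ X.nu x, a * b ∈ X.nu x := fun a ha b hb =>
    ⟨mul_mem ha hb.1, fun h => hb.2 (h.of_mul' ha hb.1)⟩
  have h4 : ∀ w ∈ X.O x, σ w - w ∈ X.nu x := fun w hw => by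
    obtain ⟨b, h4, h5, h6⟩ := h1.2 w hw
    have h7 : Un (X.O x) (σ b) := by
      simpa using (X.isLoc x).add_un h5 (h2 b h4).1 (h2 b h4).2
    have h8 := h3 _ h7.2.2 _ (sub_mem (h2 _ h6) (h3 w hw _ (h2 b h4)))
    convert h8 using 1
    have := h7.1
    rw [map_mul]
    field_simp
    ring
  letI : Algebra R (X.O x) := (e.toRingHom.comp (algebraMap R A)).toAlgebra
  let g : A →ₐ[R] X.O x := ⟨((σ.toRingEquiv.toRingHom.comp (X.O x).subtype).codRestrict (X.O x)
    fun w => by simpa using add_mem (h4 w w.2).1 w.2).comp e.toRingHom, fun r => Subtype.ext (by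
      obtain ⟨l, hl⟩ := he r
      exact (congrArg σ hl.symm).trans ((σ.commutes l).trans hl))⟩
  have h5 := Algebra.FormallyUnramified.ext_of_iInf (IsLocalRing.maximalIdeal (X.O x))
    (Ideal.iInf_pow_eq_bot_of_isLocalRing _ Ideal.IsPrime.ne_top') (g₁ := g)
    (g₂ := ⟨e.toRingHom, fun _ => rfl⟩) fun a => Ideal.Quotient.eq.2 fun hu =>
      (h4 _ (e a).2).2 (isUnit_iff_un.1 hu)
  have h6 : ∀ w ∈ X.O x, σ w = w := fun w hw => by
    obtain ⟨a, ha⟩ := e.surjective ⟨w, hw⟩
    have h6 : σ (e a) = e a := congrArg Subtype.val (DFunLike.congr_fun h5 a)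
    rwa [ha] at h6
  ext w
  obtain ⟨b, h7, h8, h9⟩ := X.frac_O x w
  have := h6 _ h9
  rw [map_mul, h6 b h7] at this
  exact mul_left_cancel₀ h8 this

variable (X : Scheme.{0}) [IsIntegral X] [IsLocallyNoetherian X] [Algebra ℂ X.functionField]

/-- Homogeneous coordinates on a normal projective variety. -/
structure Coord where
  n : ℕ
  y : Fin n → X.functionField
  U : Fin n → X.Opens
  aff : ∀ i, IsAffineOpen (U i)
  cov : ∀ x, ∃ i, x ∈ U i
  ne : ∀ i, genericPoint X ∈ U i → y i ≠ 0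
  eq : ∀ i, y i ≠ 0 → ∃ h, AU (U i) h = (chA y i).toSubring
  sep : X.IsSeparated
  nml : ∀ x : X, IsIntegrallyClosed (X.presheaf.stalk x)

variable {X}

lemma exists_coord' {s : X ⟶ Spec (.of ℂ)} (hp : IsProjective s)
    (hs : X.fromSpecStalk (genericPoint X) ≫ s =
      Spec.map (CommRingCat.ofHom (algebraMap ℂ X.functionField)))
    (hn : ∀ x : X, IsIntegrallyClosed (X.presheaf.stalk x)) : Nonempty (Coord X) := by
  obtain ⟨n, y, U, h1, h2, h3, h4⟩ := exists_coord hp hs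
  haveI := isProper_of_isProjective hp
  exact ⟨⟨n, y, U, h1, h2, h3, h4, ⟨by rw [← Limits.terminal.comp_from s]; infer_instance⟩, hn⟩⟩

namespace Coord

variable (c : Coord X)

lemma locOf {i : {i // c.y i ≠ 0}} {x : X} (h : x ∈ c.U i) :
    LocOf (chA (fun j : {i // c.y i ≠ 0} => c.y j) i).toSubring (OX x) := by
  obtain ⟨h1, h2⟩ := c.eq i i.2
  rw [chA_sub, ← h2]
  exact locOf_AU (c.aff i) h1 h

lemma chart (x : X) : ∃ i, LocOf (chA (fun j : {i // c.y i ≠ 0} => c.y j) i).toSubring (OX x) := by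
  obtain ⟨i, hi⟩ := c.cov x
  exact ⟨⟨i, c.ne i (genericPoint_mem ⟨x, hi⟩)⟩, c.locOf hi⟩

/-- The model. -/
def var : Var X.functionField where
  Pt := X
  O := OX
  sp := (· ⤳ ·)
  pd x := coheight x = 1
  ord := X.ord
  ι := {i // c.y i ≠ 0}
  fin := inferInstance
  nei := ⟨(c.chart (genericPoint X)).choose⟩
  A := chA fun j : {i // c.y i ≠ 0} => c.y j
  fg _ := fg_chA
  frac i z := by
    obtain ⟨b, h1, h2, h3⟩ := (c.locOf (c.eq i i.2).1).2 z (OX_generic (X := X) ▸ trivial)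
    exact ⟨b, h1, h2.1, h3⟩
  isLoc _ := isLoc_of_isLocalRing
  chart := c.chart
  pt i T h1 h2 := by
    obtain ⟨h3, h4⟩ := c.eq i i.2
    rw [chA_sub, ← h4] at h2
    exact (pt_AU (c.aff i) h3 h1 h2).imp fun _ h => h.2
  nml x := haveI := c.nml x; nml_OX
  sep x y T h1 h2 h3 := haveI := c.sep
    ((specializes_of_dom h1 h2 h3.1).antisymm (specializes_of_dom h1 h3 h2.1)).eq
  compl x T _ h2 h3 := by
    obtain ⟨i, hi⟩ := c.chart x
    exact (compl_chA (y := fun j : {i // c.y i ≠ 0} => c.y j) i.2 hi.1 h2 h3).imp fun _ h => h.2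
  sp_iff x y := haveI := c.sep
    ⟨OX_le, specializes_of_dom isLoc_of_isLocalRing Dom.refl⟩
  pd_iff x := haveI := c.nml x; pd_iff_OX
  ord_eq _ _ := ord_eq_OX

/-- The coordinates of the model. -/
def prj : Var.Prj c.var := ⟨fun j => c.y j.1, fun j => j.2, fun _ => rfl⟩

lemma height_iff (x : X) : height x = 1 ↔ Var.IsCurve (X := c.var) x := by
  have h1 : ∀ x y : X, x < y ↔ OX x < OX y := fun x y =>
    and_congr (c.var.sp_iff y x) (not_congr (c.var.sp_iff x y))
  rw [le_antisymm_iff, ← not_lt, one_lt_height_iff, Order.one_le_iff_pos, height_pos,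
    not_isMin_iff, and_comm]
  simp only [h1]
  rfl

lemma ev_alg {x : X} (a : X.presheaf.stalk x) : ev x (algebraMap _ _ a) = X.residue x a :=
  (IsFractionRing.injective _ _).extend_apply _ _ a

/-- The constants in a residue field. -/
abbrev algRes (x : X) : Algebra ℂ (X.residueField x) :=
  ((X.residue x).hom.comp ((eqO x).symm.toRingHom.comp
    ((algebraMap ℂ X.functionField).codRestrict _ (c.var.const_mem x)))).toAlgebra

/-- The residue map. -/
def res (x : X) : letI := c.algRes x; Var.CMap c.var (X.residueField x) :=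
  letI := c.algRes x
  { c := x
    τ := ev x
    add := by
      rintro _ ⟨a, rfl⟩ _ ⟨b, rfl⟩
      rw [← map_add, ev_alg, ev_alg, ev_alg, map_add]
    mul := by
      rintro _ ⟨a, rfl⟩ _ ⟨b, rfl⟩
      rw [← map_mul, ev_alg, ev_alg, ev_alg, map_mul]
    const a := (congrArg (fun z : OX x => ev x z)
      ((eqO x).apply_symm_apply ⟨_, c.var.const_mem x a⟩).symm).trans (ev_alg _)
    zero := by
      rintro _ ⟨a, rfl⟩ h
      rw [ev_alg]
      exact (IsLocalRing.residue_eq_zero_iff a).2 (mt un_OX.2 h) }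

lemma res_surj (x : X) : letI := c.algRes x; (c.res x).Surj := fun w => by
  obtain ⟨a, rfl⟩ := X.residue_surjective x w
  exact ⟨_, ⟨a, rfl⟩, ev_alg a⟩

lemma centre_iff (x : X) : letI := c.algRes x
    ∀ [IsFF (X.residueField x)] (P : Place (X.residueField x)) (y : X),
      IsCentre x P.val y ↔ Dom (OX y) ((c.res x).T P) := by
  letI := c.algRes x
  intro _ P y
  have h1 : ∀ w, Un P.O.toSubring w ↔ P.val w = 1 := fun w =>
    ⟨fun h => by rw [val_eq_exp h.1, ((place_isV P).un_iff.1 h).2]; rfl, fun h =>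
      (place_isV P).un_iff.2 ⟨by rintro rfl; simp at h, by simp [od, h]⟩⟩
  constructor
  · rintro ⟨h2, h3⟩
    refine ⟨?_, ?_⟩
    · rintro _ ⟨a, rfl⟩
      exact Var.CMap.mem_T.2 ⟨OX_le h2 ⟨a, rfl⟩, P.mem_iff.2 (h3 a).1⟩
    · rintro _ ⟨a, rfl⟩ h
      exact un_OX.2 ((h3 a).2 ((h1 _).1 (Var.CMap.un_T.1 h).2))
  · intro h
    refine ⟨(c.var.sp_iff x y).2 fun z hz => (Var.CMap.mem_T.1 (h.1 hz)).1, fun a => ?_⟩
    have h2 := Var.CMap.mem_T.1 (h.1 ⟨a, rfl⟩)
    refine ⟨P.mem_iff.1 h2.2, fun h3 => un_OX.1 (h.2 _ ⟨a, rfl⟩ (Var.CMap.un_T.2 ?_))⟩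
    exact ⟨Var.CMap.un_of_ne h2.1 ((h1 _).2 h3).1, (h1 _).2 h3⟩

/-- The curves. -/
def curves : Var.Curves c.var where
  cv x := height (α := X) x = 1
  int D x := inter D x
  cv_iff := c.height_iff
  int_eq x hx := by
    letI := c.algRes x
    haveI := Var.CMap.isFF_of_isCurve (c.res_surj x) ((c.height_iff x).1 hx)
    refine ⟨X.residueField x, inferInstance, inferInstance, this, c.res x, rfl, c.res_surj x,
      fun D _ => Eq.symm ?_⟩
    unfold inter Var.CMap.deg
    refine finsum_eq_of_bijective (fun P : Place (X.residueField x) =>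
      ⟨(P.val, (c.res x).ctr P), P.val_surj, (c.centre_iff x P _).2 ((c.res x).dom_ctr P)⟩)
      ⟨fun P P' h => Place.ext' (SetLike.ext fun z => ?_), ?_⟩ fun _ => rfl
    · rw [P.mem_iff, P'.mem_iff, show P.val = P'.val from congrArg (·.1.1) h]
    · rintro ⟨⟨v, y⟩, h1, h2⟩
      have h3 : IsV v v.valuationSubring.toSubring := ⟨h1, fun _ => Iff.rfl⟩
      let P : Place (X.residueField x) := ⟨v.valuationSubring,
        fun h => h3.ne_top (congrArg ValuationSubring.toSubring h), fun a => by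
          obtain ⟨b, hb⟩ := c.var.const_mem y a
          have := (h2.2 b).1
          rw [hb] at this
          exact ((c.res x).const a) ▸ this⟩
      have h4 : P.val = v := (place_isV P).unique h3
      exact ⟨P, Subtype.ext (Prod.ext h4
        (Var.CMap.ctr_eq ((c.centre_iff x P y).1 (h4.symm ▸ h2))))⟩

end Coord

end Pool.Agent.Lib.MP_e39d36_ag
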