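import Pool.Agent.Lib.MP_e39d36_ag.Loc
import Pool.Agent.Lib.MP_99f32e_ag.Hartogs

open Set WithZero

set_option linter.unusedSectionVars false
set_option linter.style.haveILetI false
set_option linter.unusedVariables false

noncomputable section

namespace Pool.Agent.Lib.MP_e39d36_ag

variable {K : Type} [Field K]

/-- Additive form of a discrete valuation. -/
def od (v : Valuation K ℤᵐ⁰) (f : K) : ℤ := -log (v f)

/-- `v` is a normalised discrete valuation with ring `R`. -/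
def IsV (v : Valuation K ℤᵐ⁰) (R : Subring K) : Prop :=
  Function.Surjective v ∧ ∀ z, z ∈ R ↔ v z ≤ 1

variable {v w : Valuation K ℤᵐ⁰} {R T : Subring K} {a b f : K}

lemma od_mul (ha : a ≠ 0) (hb : b ≠ 0) : od v (a * b) = od v a + od v b := by
  simp [od, log_mul (v.ne_zero_iff.2 ha) (v.ne_zero_iff.2 hb), add_comm]

@[simp] lemma od_one : od v 1 = 0 := by simp [od]
@[simp] lemma od_zero : od v 0 = 0 := by simp [od]
@[simp] lemma od_neg : od v (-a) = od v a := by simp [od]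
@[simp] lemma od_inv : od v a⁻¹ = -od v a := by simp [od]
@[simp] lemma od_pow (n : ℕ) : od v (a ^ n) = n * od v a := by simp [od]
@[simp] lemma od_zpow (n : ℤ) : od v (a ^ n) = n * od v a := by simp [od]

lemma od_div (ha : a ≠ 0) (hb : b ≠ 0) : od v (a / b) = od v a - od v b := by
  rw [div_eq_mul_inv, od_mul ha (inv_ne_zero hb), od_inv, sub_eq_add_neg]

lemma od_prod {ι : Type*} {s : Finset ι} {f : ι → K} (h : ∀ i ∈ s, f i ≠ 0) :
    od v (∏ i ∈ s, f i) = ∑ i ∈ s, od v (f i) := by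
  classical
  induction s using Finset.induction_on with
  | empty => simp
  | insert i s hi ih =>
    rw [Finset.prod_insert hi, Finset.sum_insert hi, od_mul (h i (Finset.mem_insert_self _ _))
      (Finset.prod_ne_zero_iff.2 fun j hj => h j (Finset.mem_insert_of_mem hj)),
      ih fun j hj => h j (Finset.mem_insert_of_mem hj)]

lemma od_le_od (ha : a ≠ 0) (hb : b ≠ 0) : od v a ≤ od v b ↔ v b ≤ v a := by
  simp [od, log_le_log (v.ne_zero_iff.2 hb) (v.ne_zero_iff.2 ha)]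

lemma od_nonneg_iff (ha : a ≠ 0) : 0 ≤ od v a ↔ v a ≤ 1 := by
  simpa using od_le_od (v := v) one_ne_zero ha

lemma od_add (ha : a ≠ 0) (hb : b ≠ 0) (hab : a + b ≠ 0) :
    min (od v a) (od v b) ≤ od v (a + b) := by
  rw [min_le_iff, od_le_od ha hab, od_le_od hb hab, ← le_max_iff]
  exact v.map_add a b

lemma val_eq_exp (ha : a ≠ 0) : v a = exp (-od v a) := by
  simp [od, exp_log (v.ne_zero_iff.2 ha)]

lemma IsV.mem_iff (h : IsV v R) (ha : a ≠ 0) : a ∈ R ↔ 0 ≤ od v a := by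
  rw [h.2, od_nonneg_iff ha]

lemma IsV.od_nonneg (h : IsV v R) (ha : a ∈ R) : 0 ≤ od v a := by
  by_cases h0 : a = 0
  · simp [h0]
  · exact (h.mem_iff h0).1 ha

lemma IsV.un_iff (h : IsV v R) : Un R a ↔ a ≠ 0 ∧ od v a = 0 := by
  refine and_congr_right fun ha => ?_
  rw [h.mem_iff ha, h.mem_iff (inv_ne_zero ha), od_inv]
  omega

lemma exists_unif (h : Function.Surjective v) : ∃ π, π ≠ 0 ∧ od v π = 1 := by
  obtain ⟨π, hπ⟩ := h (exp (-1))
  exact ⟨π, fun h0 => exp_ne_zero (by rw [← hπ, h0, map_zero]), by simp [od, hπ]⟩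

lemma surj_of_unif {π : K} (h : od v π = 1) : Function.Surjective v := by
  have h0 : π ≠ 0 := by rintro rfl; simp at h
  intro x
  by_cases hx : x = 0
  · exact ⟨0, by simp [hx]⟩
  · refine ⟨π ^ (-log x), ?_⟩
    rw [val_eq_exp (zpow_ne_zero _ h0), od_zpow, h]
    simp [exp_log hx]

lemma IsV.val (h : IsV v R) (z : K) : z ∈ R ∨ z⁻¹ ∈ R := by
  by_cases h0 : z = 0
  · simp [h0]
  rw [h.mem_iff h0, h.mem_iff (inv_ne_zero h0), od_inv]
  omega

lemma IsV.ne_top (h : IsV v R) : R ≠ ⊤ := by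
  obtain ⟨π, h0, hπ⟩ := exists_unif h.1
  rintro rfl
  have := h.od_nonneg (a := π⁻¹) trivial
  simp [hπ] at this

lemma IsV.eq_or_top (h : IsV v R) (hT : R ≤ T) : T = R ∨ T = ⊤ := by
  by_cases h1 : T ≤ R
  · exact Or.inl (le_antisymm h1 hT)
  right
  obtain ⟨t, ht, ht'⟩ := SetLike.not_le_iff_exists.1 h1
  have h0 : t ≠ 0 := by rintro rfl; exact ht' (zero_mem _)
  rw [h.mem_iff h0, not_le] at ht'
  rw [eq_top_iff]
  intro z _
  by_cases hz : z = 0
  · simp [hz]
  have h2 : z / t ^ (od v z).natAbs ∈ R := by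
    rw [h.mem_iff (div_ne_zero hz (pow_ne_zero _ h0)), od_div hz (pow_ne_zero _ h0), od_pow]
    have h3 : -od v z ≤ (od v z).natAbs := by omega
    nlinarith [Int.natCast_nonneg (od v z).natAbs]
  have := mul_mem (hT h2) (pow_mem ht (od v z).natAbs)
  rwa [div_mul_cancel₀ _ (pow_ne_zero _ h0)] at this

lemma exists_ram {L : Type} [Field L] (θ : L →+* K) {u : Valuation L ℤᵐ⁰}
    (hu : Function.Surjective u) (h : ∀ z, u z ≤ 1 ↔ w (θ z) ≤ 1) :
    ∃ e : ℕ, 0 < e ∧ ∀ f, od w (θ f) = e * od u f := by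
  obtain ⟨π, h0, hπ⟩ := exists_unif hu
  have h1 : ∀ z, z ≠ 0 → (0 ≤ od u z ↔ 0 ≤ od w (θ z)) := fun z hz => by
    rw [od_nonneg_iff hz, od_nonneg_iff ((map_ne_zero θ).2 hz), h]
  have h2 : 0 < od w (θ π) := by
    have := (h1 π⁻¹ (inv_ne_zero h0)).not
    simp only [od_inv, hπ, map_inv₀] at this
    omega
  refine ⟨(od w (θ π)).toNat, by omega, fun f => ?_⟩
  by_cases hf : f = 0
  · simp [hf]
  have h3 : f / π ^ od u f ≠ 0 := div_ne_zero hf (zpow_ne_zero _ h0)
  have h4 : od u (f / π ^ od u f) = 0 := by rw [od_div hf (zpow_ne_zero _ h0)]; simp [hπ]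
  have h5 := (h1 _ h3).1 h4.ge
  have h6 := (h1 _ (inv_ne_zero h3)).1 (by rw [od_inv, h4]; simp)
  rw [map_inv₀, od_inv] at h6
  rw [map_div₀, map_zpow₀, od_div ((map_ne_zero θ).2 hf)
    (zpow_ne_zero _ ((map_ne_zero θ).2 h0)), od_zpow] at h5 h6
  rw [Int.toNat_of_nonneg h2.le]
  linarith

lemma od_eq_of_equiv {L : Type} [Field L] (θ : L ≃+* K) {u : Valuation L ℤᵐ⁰}
    (hu : Function.Surjective u) (hw : Function.Surjective w)
    (h : ∀ z, u z ≤ 1 ↔ w (θ z) ≤ 1) (f : L) : od w (θ f) = od u f := by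
  obtain ⟨e, he, he'⟩ := exists_ram (θ : L →+* K) hu h
  obtain ⟨π, -, hπ⟩ := exists_unif hw
  have h1 := he' (θ.symm π)
  simp only [RingHom.coe_coe, RingEquiv.apply_symm_apply, hπ] at h1
  have h2 : (e : ℤ) = 1 := Int.eq_one_of_mul_eq_one_right (Int.natCast_nonneg e) h1.symm
  simpa [h2] using he' f

lemma IsV.unique (h : IsV v R) (h' : IsV w R) : v = w := by
  ext f
  by_cases hf : f = 0
  · simp [hf]
  have := od_eq_of_equiv (RingEquiv.refl K) h.1 h'.1 (fun z => by rw [← h.2, ← h'.2]; rfl) f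
  rw [val_eq_exp hf, val_eq_exp hf, ← this]; rfl

lemma exists_isV [IsFractionRing R K] [IsDiscreteValuationRing R] : ∃ v, IsV v R :=
  ⟨(IsDiscreteValuationRing.maximalIdeal R).valuation K,
    IsDedekindDomain.HeightOneSpectrum.valuation_surjective _ _, fun z =>
    ⟨fun hz => IsDedekindDomain.HeightOneSpectrum.valuation_le_one _ (⟨z, hz⟩ : R), fun hz => by
      obtain ⟨a, rfl⟩ := IsDiscreteValuationRing.exists_lift_of_le_one hz
      exact a.2⟩⟩

lemma dvr_of_val [IsNoetherianRing R] (h : ∀ z, z ∈ R ∨ z⁻¹ ∈ R) (h' : R ≠ ⊤) :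
    IsDiscreteValuationRing R := by
  let V : ValuationSubring K := ⟨R, h⟩
  haveI : IsLocalRing R := inferInstanceAs (IsLocalRing V)
  have hV : ValuationRing R := inferInstanceAs (ValuationRing V)
  have hf : ¬IsField R := fun hF => h' (by
    rw [eq_top_iff]
    intro z _
    by_cases hz : z = 0
    · simp [hz]
    rcases h z with h1 | h1
    · exact h1
    · obtain ⟨b, hb⟩ := hF.mul_inv_cancel (a := ⟨_, h1⟩)
        (fun h2 => inv_ne_zero hz (congrArg Subtype.val h2))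
      have h2 : z⁻¹ * b = 1 := congrArg Subtype.val hb
      rw [inv_mul_eq_one₀ hz] at h2
      exact h2 ▸ b.2)
  exact ((IsDiscreteValuationRing.TFAE R hf).out 0 1).2 hV

lemma exists_isV_of_val [IsNoetherianRing R] (h : ∀ z, z ∈ R ∨ z⁻¹ ∈ R) (h' : R ≠ ⊤) :
    ∃ v, IsV v R :=
  haveI := dvr_of_val h h'
  haveI : IsFractionRing R K := inferInstanceAs (IsFractionRing (⟨R, h⟩ : ValuationSubring K) K)
  exists_isV

lemma hartogs_ring [IsNoetherianRing T] (hn : Nml T)
    (hfr : ∀ z : K, ∃ b ∈ T, b ≠ 0 ∧ b * z ∈ T) (hf : f ∉ T) :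
    ∃ (R : Subring K) (v : Valuation K ℤᵐ⁰), IsLoc R ∧ LocOf T R ∧ IsV v R ∧ f ∉ R := by
  let I : Ideal T :=
    { carrier := {a | a * f ∈ T}
      zero_mem' := by simp
      add_mem' := fun {a b} ha hb => by
        simpa [add_mul] using add_mem ha hb
      smul_mem' := fun c a ha => by
        simpa [mul_assoc] using mul_mem c.2 ha }
  have hI : I ≠ ⊤ := (Ideal.ne_top_iff_one _).2 fun h => hf (by simpa [I] using h)
  obtain ⟨M, hM, hIM⟩ := Ideal.exists_le_maximal I hI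
  haveI := hM.isPrime
  obtain ⟨Q, hQ, -⟩ := Ideal.exists_minimalPrimes_le hIM
  haveI hQp : Q.IsPrime := hQ.1.1
  obtain ⟨R, h1, h2, h3⟩ := exists_locP Q
  have hfR : f ∉ R := fun h => by
    obtain ⟨b, h4, h5, h6⟩ := h2.2 f h
    exact (h3 ⟨b, h4⟩).1 h5 (hQ.1.2 h6)
  letI := (Subring.inclusion h2.1).toAlgebra
  haveI := h1.isLocalRing
  haveI : IsLocalization.AtPrime R Q := by
    convert h2.isLocalization
    ext b
    exact (h3 b).symm
  haveI := h2.noeth
  haveI : IsFractionRing R K := isFrac fun z => by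
    obtain ⟨b, h4, h5, h6⟩ := hfr z
    exact ⟨b, h2.1 h4, h5, h2.1 h6⟩
  haveI := (h2.nml hn).isIntegrallyClosed
  have hrad := IsLocalization.AtPrime.radical_map_of_mem_minimalPrimes R Q I hQ
  rw [IsLocalization.AtPrime.map_eq_maximalIdeal Q R] at hrad
  obtain ⟨N, hN⟩ := Ideal.exists_radical_pow_le_of_fg (I.map (algebraMap T R))
    (IsNoetherian.noetherian _)
  rw [hrad] at hN
  haveI : IsDiscreteValuationRing R := by
    refine MP_99f32e_ag.dvr_of_pow_mul_mem (K := K) N f (by rintro ⟨a, rfl⟩; exact hfR a.2)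
      fun m hm => ?_
    have hm' := hN hm
    clear hm
    induction hm' using Submodule.span_induction with
    | mem m hm =>
      obtain ⟨a, ha, rfl⟩ := hm
      exact ⟨⟨_, h2.1 ha⟩, rfl⟩
    | zero => simp
    | add a b _ _ ha hb => rw [map_add, add_mul]; exact add_mem ha hb
    | smul a b _ hb =>
      rw [smul_eq_mul, map_mul, mul_assoc]
      exact mul_mem ⟨a, rfl⟩ hb
  obtain ⟨v, hv⟩ := exists_isV (R := R)
  exact ⟨R, v, h1, h2, hv, hfR⟩

end Pool.Agent.Lib.MP_e39d36_ag
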