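import Pool.Agent.Lib.MP_e39d36_ag.Val

open Set WithZero

set_option linter.unusedSectionVars false
set_option linter.style.haveILetI false
set_option linter.unusedVariables false

noncomputable section

namespace Pool.Agent.Lib.MP_e39d36_ag

/-- A normal complete model of a function field, given by its local rings. -/
structure Var (K : Type) [Field K] [Algebra ℂ K] where
  Pt : Type
  O : Pt → Subring K
  sp : Pt → Pt → Prop
  pd : Pt → Prop
  ord : K → Pt → ℤ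
  ι : Type
  fin : Finite ι
  nei : Nonempty ι
  A : ι → Subalgebra ℂ K
  fg : ∀ i, (A i).FG
  frac : ∀ i z, ∃ b ∈ A i, b ≠ 0 ∧ b * z ∈ A i
  isLoc : ∀ x, IsLoc (O x)
  chart : ∀ x, ∃ i, LocOf (A i).toSubring (O x)
  pt : ∀ i T, IsLoc T → LocOf (A i).toSubring T → ∃ x, O x = T
  nml : ∀ x, Nml (O x)
  sep : ∀ x y T, IsLoc T → Dom (O x) T → Dom (O y) T → x = y
  compl : ∀ x (T : Subring K), T ≤ O x → (∀ a : ℂ, algebraMap ℂ K a ∈ T) →
    (∀ z ∈ O x, z ∉ T → Un (O x) z ∧ z⁻¹ ∈ T) → ∃ i, (A i).toSubring ≤ T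
  sp_iff : ∀ x y, sp x y ↔ O y ≤ O x
  pd_iff : ∀ x, pd x ↔ ∃ v, IsV v (O x)
  ord_eq : ∀ x v, IsV v (O x) → ∀ f, ord f x = od v f

namespace Var

variable {K : Type} [Field K] [Algebra ℂ K] (X : Var K)

instance : Finite X.ι := X.fin

lemma O_inj {x y : X.Pt} (h : X.O x = X.O y) : x = y :=
  X.sep x y _ (X.isLoc y) (h ▸ Dom.refl) Dom.refl

instance (i : X.ι) : IsNoetherianRing (X.A i).toSubring :=
  (isNoetherianRing_of_fg (X.fg i) : IsNoetherianRing (X.A i))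

instance (x : X.Pt) : IsNoetherianRing (X.O x) := by
  obtain ⟨i, hi⟩ := X.chart x
  exact hi.noeth

lemma frac_O (x : X.Pt) (z : K) : ∃ b ∈ X.O x, b ≠ 0 ∧ b * z ∈ X.O x := by
  obtain ⟨i, hi⟩ := X.chart x
  obtain ⟨b, h1, h2, h3⟩ := X.frac i z
  exact ⟨b, hi.1 h1, h2, hi.1 h3⟩

instance (x : X.Pt) : IsFractionRing (X.O x) K := isFrac (X.frac_O x)

lemma const_mem (x : X.Pt) (a : ℂ) : algebraMap ℂ K a ∈ X.O x := by
  obtain ⟨i, hi⟩ := X.chart x
  exact hi.1 ((X.A i).algebraMap_mem a)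

lemma smul_mem (x : X.Pt) (a : ℂ) {z : K} (hz : z ∈ X.O x) : a • z ∈ X.O x := by
  rw [Algebra.smul_def]; exact mul_mem (X.const_mem x a) hz

lemma un_const (x : X.Pt) {a : ℂ} (ha : a ≠ 0) : Un (X.O x) (algebraMap ℂ K a) :=
  ⟨by simpa using ha, X.const_mem x a, by rw [← map_inv₀]; exact X.const_mem x _⟩

variable {X}

lemma exists_centre {i : X.ι} {T : Subring K} (hT : IsLoc T) (h : (X.A i).toSubring ≤ T) :
    ∃ x, Dom (X.O x) T ∧ LocOf (X.A i).toSubring (X.O x) := by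
  obtain ⟨x, hx⟩ := X.pt i _ ((dom_loc h).isLoc hT) locOf_loc
  exact ⟨x, hx ▸ dom_loc h, hx ▸ locOf_loc⟩

lemma locOf_of_le {i : X.ι} {x : X.Pt} (h : (X.A i).toSubring ≤ X.O x) :
    LocOf (X.A i).toSubring (X.O x) := by
  obtain ⟨y, h1, h2⟩ := exists_centre (X.isLoc x) h
  rwa [X.sep y x _ (X.isLoc x) h1 Dom.refl] at h2

lemma exists_gen {x : X.Pt} {T : Subring K} (hT : IsLoc T) (h : X.O x ≤ T) :
    ∃ y, Dom (X.O y) T ∧ X.O x ≤ X.O y := by
  obtain ⟨i, hi⟩ := X.chart x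
  obtain ⟨y, h1, h2⟩ := exists_centre hT (hi.1.trans h)
  exact ⟨y, h1, hi.le h2.1 fun b hb hu => h1.2 b (h2.1 hb) (hu.mono h)⟩

lemma exists_pt_of_locOf {x : X.Pt} {T : Subring K} (hT : IsLoc T) (h : LocOf (X.O x) T) :
    ∃ y, X.O y = T := by
  obtain ⟨i, hi⟩ := X.chart x
  exact X.pt i T hT (hi.trans h)

lemma locOf_of_sp {x y : X.Pt} (h : X.O x ≤ X.O y) : LocOf (X.O x) (X.O y) := by
  obtain ⟨i, hi⟩ := X.chart x
  exact (locOf_of_le (hi.1.trans h)).of_le hi.1 h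

variable (X) in
lemma exists_top : ∃ x, X.O x = ⊤ := by
  obtain ⟨i⟩ := X.nei
  refine X.pt i ⊤ isLoc_top ⟨le_top, fun z _ => ?_⟩
  obtain ⟨b, h1, h2, h3⟩ := X.frac i z
  exact ⟨b, h1, un_top.2 h2, h3⟩

variable (X) in
lemma exists_chart_val (V : ValuationSubring K) (hV : ∀ a : ℂ, algebraMap ℂ K a ∈ V) :
    ∃ i, (X.A i).toSubring ≤ V.toSubring := by
  obtain ⟨x, hx⟩ := X.exists_top
  refine X.compl x V.toSubring (hx ▸ le_top) hV fun z _ hz => ⟨?_, (V.mem_or_inv_mem z).resolve_left hz⟩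
  rw [hx, un_top]
  rintro rfl
  exact hz (zero_mem _)

lemma eq_const {z : K} (h : ∀ x, z ∈ X.O x) : ∃ a : ℂ, z = algebraMap ℂ K a := by
  have h1 : IsIntegral (algebraMap ℂ K).range z := isIntegral_of_val fun V hV => by
    obtain ⟨i, hi⟩ := X.exists_chart_val V fun a => hV ⟨a, rfl⟩
    obtain ⟨x, hx, -⟩ := exists_centre (isLoc_of_val V.mem_or_inv_mem) hi
    exact hx.1 (h x)
  letI : Algebra ℂ (algebraMap ℂ K).range := (algebraMap ℂ K).rangeRestrict.toAlgebra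
  haveI : IsScalarTower ℂ (algebraMap ℂ K).range K := IsScalarTower.of_algebraMap_eq fun _ => rfl
  haveI : Algebra.IsIntegral ℂ (algebraMap ℂ K).range :=
    Algebra.isIntegral_of_surjective (algebraMap ℂ K).rangeRestrict_surjective
  have h2 : IsIntegral ℂ z := isIntegral_trans z h1
  obtain ⟨a, ha⟩ := minpoly.mem_range_of_degree_eq_one ℂ z
    (IsAlgClosed.degree_eq_one_of_irreducible ℂ (minpoly.irreducible h2))
  exact ⟨a, ha.symm⟩

variable (X) in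
/-- Prime divisors. -/
abbrev PD : Type := {E : X.Pt // X.pd E}

/-- The valuation of a prime divisor. -/
def val (E : X.PD) : Valuation K ℤᵐ⁰ := ((X.pd_iff E.1).1 E.2).choose

lemma isV (E : X.PD) : IsV (val E) (X.O E.1) := ((X.pd_iff E.1).1 E.2).choose_spec

lemma ord_val (f : K) (E : X.PD) : X.ord f E.1 = od (val E) f := X.ord_eq _ _ (isV E) f

lemma pd_eq {E F : X.PD} (h : X.O E.1 ≤ X.O F.1) : E = F :=
  Subtype.ext (X.O_inj (((isV E).eq_or_top h).resolve_right (isV F).ne_top).symm)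

lemma ord_mul {f g : K} (hf : f ≠ 0) (hg : g ≠ 0) (E : X.PD) :
    X.ord (f * g) E.1 = X.ord f E.1 + X.ord g E.1 := by simp only [ord_val, od_mul hf hg]

lemma ord_div {f g : K} (hf : f ≠ 0) (hg : g ≠ 0) (E : X.PD) :
    X.ord (f / g) E.1 = X.ord f E.1 - X.ord g E.1 := by simp only [ord_val, od_div hf hg]

lemma ord_nonneg {f : K} {E : X.PD} (hf : f ∈ X.O E.1) : 0 ≤ X.ord f E.1 := by
  rw [ord_val]; exact (isV E).od_nonneg hf

lemma ord_un {f : K} {E : X.PD} (hf : Un (X.O E.1) f) : X.ord f E.1 = 0 := by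
  rw [ord_val]; exact ((isV E).un_iff.1 hf).2

lemma ord_pos {f : K} {E : X.PD} (h0 : f ≠ 0) (hf : f ∈ X.O E.1) (hu : ¬Un (X.O E.1) f) :
    0 < X.ord f E.1 := by
  refine (ord_nonneg hf).lt_of_ne' fun h => hu ((isV E).un_iff.2 ⟨h0, ?_⟩)
  rwa [ord_val] at h

theorem hartogs {x : X.Pt} {f : K} (h : ∀ E : X.PD, X.O x ≤ X.O E.1 → 0 ≤ X.ord f E.1) :
    f ∈ X.O x := by
  by_contra hf
  obtain ⟨R, v, h1, h2, h3, h4⟩ := hartogs_ring (X.nml x) (X.frac_O x) hf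
  obtain ⟨y, rfl⟩ := exists_pt_of_locOf h1 h2
  have h5 := h ⟨y, (X.pd_iff y).2 ⟨v, h3⟩⟩ h2.1
  rw [X.ord_eq _ _ h3] at h5
  exact h4 ((h3.mem_iff (by rintro rfl; exact hf (zero_mem _))).2 h5)

lemma finite_zeros (i : X.ι) {a : K} (ha : a ∈ X.A i) (h0 : a ≠ 0) :
    {E : X.PD | (X.A i).toSubring ≤ X.O E.1 ∧ X.ord a E.1 ≠ 0}.Finite := by
  classical
  let p : X.PD → Ideal (X.A i).toSubring := fun E =>
    if h : (X.A i).toSubring ≤ X.O E.1 then mx (X.isLoc _) h else ⊥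
  refine Set.Finite.of_finite_image (f := p)
    ((Ideal.finite_minimalPrimes_of_isNoetherianRing _
      (Ideal.span {(⟨a, ha⟩ : (X.A i).toSubring)})).subset ?_) ?_
  · rintro _ ⟨E, ⟨h1, h2⟩, rfl⟩
    simp only [p, dif_pos h1]
    refine ⟨⟨inferInstance, (Ideal.span_singleton_le_iff_mem _).2 fun h => h2 (ord_un h)⟩, ?_⟩
    rintro q ⟨hq, hq'⟩ hle
    obtain ⟨T, h3, h4, h5⟩ := exists_locP q
    have h6 : X.O E.1 ≤ T := (locOf_of_le h1).le h4.1 fun b hb hu =>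
      (h5 ⟨b, hb⟩).2 fun h => hle h hu
    rcases (isV E).eq_or_top h6 with h7 | h7
    · intro b hb
      by_contra h8
      exact hb (h7 ▸ (h5 b).2 h8)
    · exact absurd ((Ideal.span_singleton_le_iff_mem _).1 hq')
        ((h5 ⟨a, ha⟩).1 (h7 ▸ un_top.2 h0))
  · rintro E ⟨h1, -⟩ F ⟨h2, -⟩ h
    simp only [p, dif_pos h1, dif_pos h2] at h
    refine pd_eq ((locOf_of_le h1).le h2 fun b hb hu => ?_)
    by_contra h3
    have : (⟨b, hb⟩ : (X.A i).toSubring) ∈ mx (X.isLoc _) h2 := h3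
    rw [← h] at this
    exact this hu

lemma finite_ord (f : K) : {E : X.PD | X.ord f E.1 ≠ 0}.Finite := by
  by_cases hf : f = 0
  · simp [hf, ord_val]
  choose b h1 h2 h3 using fun i => X.frac i f
  refine (Set.finite_iUnion fun i => (finite_zeros i (h1 i) (h2 i)).union
    (finite_zeros i (h3 i) (mul_ne_zero (h2 i) hf))).subset fun E hE => ?_
  obtain ⟨i, hi⟩ := X.chart E.1
  refine mem_iUnion.2 ⟨i, ?_⟩
  by_contra! h
  simp only [mem_union, mem_ofPred_eq, hi.1, true_and, not_or, not_not] at h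
  have := ord_mul (h2 i) hf E
  rw [h.1, h.2] at this
  exact hE (by omega)

variable (X) in
/-- Principal divisors. -/
def div (f : K) : X.PD →₀ ℤ := Finsupp.ofSupportFinite (fun E => X.ord f E.1) (finite_ord f)

@[simp] lemma div_apply (f : K) (E : X.PD) : X.div f E = X.ord f E.1 := rfl

lemma exists_fix {R : Subring K} {x : X.Pt} (h : LocOf R (X.O x)) {S : Set X.PD} (hS : S.Finite)
    (h1 : ∀ E ∈ S, R ≤ X.O E.1) (h2 : ∀ E ∈ S, ¬X.O x ≤ X.O E.1) (k : X.PD → ℤ) :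
    ∃ r ∈ R, Un (X.O x) r ∧ ∀ E ∈ S, k E ≤ X.ord r E.1 := by
  induction S, hS using Set.Finite.induction_on with
  | empty => exact ⟨1, one_mem _, Un.one, by simp⟩
  | @insert F S _ hS ih =>
    obtain ⟨r, h3, h4, h5⟩ := ih (fun E hE => h1 E (mem_insert_of_mem _ hE))
      fun E hE => h2 E (mem_insert_of_mem _ hE)
    obtain ⟨b, h6, h7, h8⟩ : ∃ b ∈ R, Un (X.O x) b ∧ ¬Un (X.O F.1) b := by
      by_contra! h9
      exact h2 F (mem_insert _ _) (h.le (h1 F (mem_insert _ _)) h9)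
    refine ⟨r * b ^ (k F).toNat, mul_mem h3 (pow_mem h6 _), h4.mul (h7.pow _), fun E hE => ?_⟩
    rw [ord_mul h4.1 (h7.pow _).1]
    have h9 := ord_nonneg (h1 E hE h3)
    have h10 := ord_nonneg (h1 E hE (pow_mem h6 (k F).toNat))
    rcases hE with rfl | hE
    · have h11 := ord_pos h7.1 (h1 E (mem_insert _ _) h6) h8
      rw [ord_val (b ^ _), od_pow, ← ord_val]
      nlinarith [Int.self_le_toNat (k E), Int.natCast_nonneg (k E).toNat]
    · linarith [h5 E hE]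

/-- Local equations. -/
def LocEq (D : X.PD →₀ ℤ) (x : X.Pt) (f : K) : Prop :=
  f ≠ 0 ∧ ∀ E : X.PD, X.sp E.1 x → D E = X.ord f E.1

/-- Cartier divisors. -/
def Cart (D : X.PD →₀ ℤ) : Prop := ∀ x, ∃ f, LocEq D x f

variable {D D' : X.PD →₀ ℤ} {x y : X.Pt} {f g : K}

lemma LocEq.eq (h : LocEq D x f) {E : X.PD} (hE : X.O x ≤ X.O E.1) : D E = X.ord f E.1 :=
  h.2 E ((X.sp_iff _ _).2 hE)

lemma LocEq.mk' (h0 : f ≠ 0) (h : ∀ E : X.PD, X.O x ≤ X.O E.1 → D E = X.ord f E.1) :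
    LocEq D x f := ⟨h0, fun E hE => h E ((X.sp_iff _ _).1 hE)⟩

lemma LocEq.mono (h : LocEq D x f) (hy : X.O x ≤ X.O y) : LocEq D y f :=
  .mk' h.1 fun _ hE => h.eq (hy.trans hE)

lemma LocEq.un (h : LocEq D x f) (h' : LocEq D x g) : Un (X.O x) (f / g) := by
  refine ⟨div_ne_zero h.1 h'.1, hartogs fun E hE => ?_, hartogs fun E hE => ?_⟩
  · rw [ord_div h.1 h'.1, ← h.eq hE, ← h'.eq hE, sub_self]
  · rw [inv_div, ord_div h'.1 h.1, ← h.eq hE, ← h'.eq hE, sub_self]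

lemma LocEq.of_un (h : LocEq D x g) (hu : Un (X.O x) (f / g)) : LocEq D x f := by
  have h0 : f ≠ 0 := (div_ne_zero_iff.1 hu.1).1
  refine .mk' h0 fun E hE => ?_
  have := ord_un (hu.mono hE)
  rw [ord_div h0 h.1] at this
  rw [h.eq hE]; omega

lemma LocEq.add (h : LocEq D x f) (h' : LocEq D' x g) : LocEq (D + D') x (f * g) :=
  .mk' (mul_ne_zero h.1 h'.1) fun E hE => by
    rw [ord_mul h.1 h'.1, ← h.eq hE, ← h'.eq hE]; rfl

lemma LocEq.neg (h : LocEq D x f) : LocEq (-D) x f⁻¹ :=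
  .mk' (inv_ne_zero h.1) fun E hE => by
    rw [ord_val, od_inv, ← ord_val, ← h.eq hE]; rfl

lemma locEq_div (hf : f ≠ 0) : LocEq (X.div f) x f := ⟨hf, fun _ _ => rfl⟩

lemma locEq_zero : LocEq (0 : X.PD →₀ ℤ) x 1 := ⟨one_ne_zero, fun E _ => by simp [ord_val]⟩

lemma LocEq.mem (h : LocEq D x f) (hD : 0 ≤ D) : f ∈ X.O x :=
  hartogs fun E hE => h.eq hE ▸ hD E

lemma Cart.add (h : Cart D) (h' : Cart D') : Cart (D + D') := fun x =>
  ⟨_, (h x).choose_spec.add (h' x).choose_spec⟩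

lemma Cart.neg (h : Cart D) : Cart (-D) := fun x => ⟨_, (h x).choose_spec.neg⟩

lemma cart_zero : Cart (0 : X.PD →₀ ℤ) := fun _ => ⟨_, locEq_zero⟩

lemma cart_div (hf : f ≠ 0) : Cart (X.div f) := fun _ => ⟨_, locEq_div hf⟩

lemma Cart.nsmul (h : Cart D) (n : ℕ) : Cart (n • D) := by
  induction n with
  | zero => simpa using cart_zero
  | succ n ih => rw [succ_nsmul]; exact ih.add h

lemma Cart.sum {ι : Type*} {s : Finset ι} {D : ι → X.PD →₀ ℤ} (h : ∀ i ∈ s, Cart (D i)) :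
    Cart (∑ i ∈ s, D i) :=
  Finset.sum_induction _ _ (fun _ _ => Cart.add) cart_zero h

lemma LocEq.exists_section {R : Subring K} (h : LocEq D x f) (hR : LocOf R (X.O x)) :
    ∃ g, LocEq D x g ∧ ∀ E : X.PD, R ≤ X.O E.1 → D E ≤ X.ord g E.1 := by
  have hS : {E : X.PD | R ≤ X.O E.1 ∧ X.ord f E.1 < D E}.Finite := by
    refine ((finite_ord f).union D.support.finite_toSet).subset fun E hE => ?_
    by_contra! h1
    simp only [mem_union, mem_ofPred_eq, Finset.mem_coe, Finsupp.mem_support_iff, not_or,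
      not_not] at h1
    have := hE.2
    omega
  obtain ⟨r, h1, h2, h3⟩ := exists_fix hR hS (fun E hE => hE.1)
    (fun E hE h4 => hE.2.ne' (h.eq h4)) fun E => D E - X.ord f E.1
  refine ⟨r * f, h.of_un (by rwa [mul_div_cancel_right₀ _ h.1]), fun E hE => ?_⟩
  rw [ord_mul h2.1 h.1]
  by_cases h4 : X.ord f E.1 < D E
  · linarith [h3 E ⟨hE, h4⟩]
  · linarith [ord_nonneg (hE h1)]

/-- Semilocal equations. -/
lemma Cart.exists_semiloc (h : Cart D) {R : Subring K} {S : Set X.Pt} (hS : S.Finite)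
    (hne : S.Nonempty) (hR : ∀ x ∈ S, LocOf R (X.O x))
    (hinc : ∀ x ∈ S, ∀ y ∈ S, X.O x ≤ X.O y → x = y) : ∃ f, ∀ x ∈ S, LocEq D x f := by
  classical
  have h1 : ∀ x ∈ S, ∃ g, LocEq D x g ∧ ∀ E : X.PD, R ≤ X.O E.1 → D E ≤ X.ord g E.1 :=
    fun x hx => (h x).choose_spec.exists_section (hR x hx)
  choose! g hg hg' using h1
  have h2 : ∀ x ∈ S, ∀ y ∈ S, ∃ b ∈ R, Un (X.O x) b ∧ (y ≠ x → ¬Un (X.O y) b) := by
    intro x hx y hy
    by_cases hxy : y = x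
    · exact ⟨1, one_mem _, Un.one, fun h => absurd hxy h⟩
    by_contra! h3
    exact hxy (hinc x hx y hy ((hR x hx).le (hR y hy).1 fun b hb hu => (h3 b hb hu).2)).symm
  choose! b hb hb' hb'' using h2
  let e : X.Pt → K := fun x => ∏ y ∈ hS.toFinset, b x y
  have he : ∀ x ∈ S, e x ∈ R := fun x hx => prod_mem fun y hy => hb x hx y (hS.mem_toFinset.1 hy)
  refine ⟨∑ x ∈ hS.toFinset, e x * g x, fun x hx => (hg x hx).of_un ?_⟩
  have hx' := hS.mem_toFinset.2 hx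
  rw [Finset.sum_div, ← Finset.add_sum_erase _ _ hx', mul_div_cancel_right₀ _ (hg x hx).1]
  have h3 : ∀ y ∈ hS.toFinset.erase x, g y / g x ∈ X.O x := fun y hy => hartogs fun E hE => by
    have hy' := hS.mem_toFinset.1 (Finset.mem_of_mem_erase hy)
    rw [ord_div (hg y hy').1 (hg x hx).1, ← (hg x hx).eq hE, sub_nonneg]
    exact hg' y hy' E ((hR x hx).1.trans hE)
  have h4 : ∀ y ∈ hS.toFinset.erase x, e y * g y / g x ∈ X.O x := fun y hy => by
    rw [mul_div_assoc]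
    exact mul_mem ((hR x hx).1 (he y (hS.mem_toFinset.1 (Finset.mem_of_mem_erase hy)))) (h3 y hy)
  refine (X.isLoc x).add_un (Un.prod fun y hy => hb' x hx y (hS.mem_toFinset.1 hy))
    (sum_mem h4) fun hu => ?_
  obtain ⟨y, hy, hy'⟩ := (X.isLoc x).of_sum h4 hu
  have hyS := hS.mem_toFinset.1 (Finset.mem_of_mem_erase hy)
  rw [mul_div_assoc] at hy'
  have h5 := hy'.of_mul ((hR x hx).1 (he y hyS)) (h3 y hy)
  simp only [e] at h5
  rw [← Finset.mul_prod_erase _ _ hx'] at h5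
  exact hb'' y hyS x hx (Finset.ne_of_mem_erase hy).symm (h5.of_mul ((hR x hx).1 (hb y hyS x hx))
    (prod_mem fun z hz => (hR x hx).1 (hb y hyS z (hS.mem_toFinset.1 (Finset.mem_of_mem_erase hz)))))

end Var

end Pool.Agent.Lib.MP_e39d36_ag
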